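import Pool.Agent.NLF.Defs

/-!
# NLF-Arith: the final inequality

The bound of `roth_b` contradicts `q ^ C ≤ z`, `C` an absolute constant, with no relation between
`n2` and `n` (copy of `NLE.arith_u`, the powers `(D1 D2) ^ K` replaced by `2 ^ (D1 + D2)`).
-/

namespace Pool.Agent.NLF

open Finset Polynomial
open Pool.Agent.NLG (KZ kap)

private lemma Arith_lin {x a R : ℕ} (hR : 1 ≤ R) (h : x ≤ a * R) : x ≤ (2 * a) ^ R := by
  calc x ≤ a * R := h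
    _ ≤ a ^ R * 2 ^ R := Nat.mul_le_mul (Nat.le_self_pow (by omega) a) (Nat.lt_two_pow_self).le
    _ = (2 * a) ^ R := by rw [mul_pow, mul_comm]

/-- linear bounds for all parameters -/
private lemma Arith_bounds {p : Par} {n2 : ℕ} (g : Good p n2) :
    1 ≤ p.R ∧ p.S ≤ 84 * p.R ∧ p.Q ≤ 85 * p.R ∧ p.n * p.L ≤ 85 * p.R ∧ p.n * p.B ≤ 204 * p.R ∧
      p.n ≤ 119 * p.R := by
  obtain ⟨he, hf, heh, hq, hq3, hn, hn2, h60, hJ, hP, hR, hL, hB⟩ := g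
  have hR1 : 60 * p.R ≤ n2 := by omega
  have hR2 : n2 < 60 * (p.R + 1) := by omega
  have hR3 : 1 ≤ p.R := by omega
  have hJ2 : 3 * p.J ≤ 2 * n2 := by
    have h3 : p.q * (3 * p.J) ≤ p.q * (2 * n2) := by
      have h4 : p.f * p.n ≤ p.f * n2 := Nat.mul_le_mul_left _ hn2
      have h5 : p.h * n2 = p.e * n2 + p.f * n2 := by rw [heh, add_mul]
      have h6 : 3 * (2 * p.h) * n2 ≤ 4 * p.q * n2 := Nat.mul_le_mul_right _ (by omega)
      have h7 : p.q * (3 * p.J) = 3 * (p.q * p.J) := by ring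
      have h8 : p.q * (2 * n2) = 2 * (p.q * n2) := by ring
      have h9 : 3 * (2 * p.h) * n2 = 6 * (p.h * n2) := by ring
      have h10 : 4 * p.q * n2 = 4 * (p.q * n2) := by ring
      omega
    exact Nat.le_of_mul_le_mul_left h3 (by omega)
  have hQ : p.Q = p.P + p.J + p.R := rfl
  have hS : p.S = p.P + p.J := rfl
  have hnL : p.n * p.L ≤ p.Q := by
    rw [hL]
    exact Nat.mul_div_le _ _
  have hnB : p.n * p.B = p.n * p.L + p.n := by rw [hB, Nat.mul_add, Nat.mul_one]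
  refine ⟨hR3, by omega, by omega, by omega, by omega, by omega⟩

private lemma Arith_sum {R K n : ℕ} (hn : 1 ≤ n) (hK : 1 ≤ K) (h1 : n * K ≤ 700 * R)
    (h2 : 32 * K ≤ R) : K * R ≤ 44800 * ∑ c ∈ range K, (R / 2 - (K - 1) - n * c) := by
  obtain ⟨m, hm⟩ : ∃ m, m = min K (R / (8 * n) + 1) := ⟨_, rfl⟩
  have hmK : m ≤ K := by rw [hm]; exact min_le_left _ _
  have h3 : m * R ≤ 8 * ∑ c ∈ range K, (R / 2 - (K - 1) - n * c) := by
    rw [Finset.mul_sum]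
    have h4 : ∑ c ∈ range m, 8 * (R / 2 - (K - 1) - n * c) ≤
        ∑ c ∈ range K, 8 * (R / 2 - (K - 1) - n * c) :=
      Finset.sum_le_sum_of_subset (Finset.range_subset_range.2 hmK)
    refine le_trans ?_ h4
    have h5 : ∀ c ∈ range m, R ≤ 8 * (R / 2 - (K - 1) - n * c) := by
      intro c hc
      rw [Finset.mem_range] at hc
      have h6 : c ≤ R / (8 * n) := by
        have : m ≤ R / (8 * n) + 1 := by rw [hm]; exact min_le_right _ _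
        omega
      have h7 : 8 * n * c ≤ R := by
        refine le_trans (Nat.mul_le_mul_left _ h6) ?_
        exact Nat.mul_div_le _ _
      rw [mul_assoc] at h7
      omega
    have h8 := Finset.card_nsmul_le_sum (range m) (fun c => 8 * (R / 2 - (K - 1) - n * c)) R h5
    rw [Finset.card_range, smul_eq_mul] at h8
    exact h8
  have h9 : K ≤ 5600 * m := by
    rcases le_total K (R / (8 * n) + 1) with h | h
    · rw [hm, min_eq_left h]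
      omega
    · rw [hm, min_eq_right h]
      have h11 : 0 < 8 * n := by omega
      have h10 : R < 8 * n * (R / (8 * n) + 1) := Nat.lt_mul_div_succ R h11
      suffices key : n * K ≤ n * (5600 * (R / (8 * n) + 1)) from
        Nat.le_of_mul_le_mul_left key (by omega)
      obtain ⟨a, ha⟩ : ∃ a, a = R / (8 * n) + 1 := ⟨_, rfl⟩
      rw [← ha] at h10 ⊢
      nlinarith
  calc K * R ≤ 5600 * m * R := Nat.mul_le_mul_right _ h9
    _ = 5600 * (m * R) := by ring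
    _ ≤ 5600 * (8 * ∑ c ∈ range K, (R / 2 - (K - 1) - n * c)) := Nat.mul_le_mul_left _ h3
    _ = 44800 * ∑ c ∈ range K, (R / 2 - (K - 1) - n * c) := by ring

private lemma Arith_c {q a c M : ℕ} (hq : 2 ≤ q) (h : c = a * q ^ 681) :
    c ^ (2 * M) + 1 ≤ q ^ ((a + 681) * (2 * M) + 1) := by
  have h1 : a ≤ q ^ a := (Nat.lt_two_pow_self).le.trans (Nat.pow_le_pow_left hq a)
  have h2 : c ≤ q ^ (a + 681) := by
    rw [h, pow_add]
    exact Nat.mul_le_mul_right _ h1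
  have h3 : c ^ (2 * M) ≤ q ^ ((a + 681) * (2 * M)) := by
    rw [pow_mul q]
    exact Nat.pow_le_pow_left h2 _
  obtain ⟨x, hx⟩ : ∃ x, x = q ^ ((a + 681) * (2 * M)) := ⟨_, rfl⟩
  have h4 : 0 < x := by
    rw [hx]
    exact Nat.pow_pos (by omega)
  rw [← hx] at h3
  rw [pow_succ, ← hx]
  calc c ^ (2 * M) + 1 ≤ x * 2 := by omega
    _ ≤ x * q := Nat.mul_le_mul_left _ hq

private lemma Arith_c3 {q Y c c0 c2 c3 a : ℕ}
    (hc3 : c3 = 8 * q * 1200 * ((8 * 410 * (8 * 410 * Y) * Y) *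
      (168 * 600 * (8 * 410 * (8 * 410 * Y) * Y)))) (hY : Y = q ^ 170) (hc : c = 1400 * (c2 * c3))
    (hc0 : c0 = 8 * 1200 * ((8 * 410 * (8 * 410)) * (168 * 600 * (8 * 410 * (8 * 410)))))
    (ha : a = 1400 * (c2 * c0)) : c = a * q ^ 681 := by
  rw [hc, hc3, ha, hc0, hY]
  ring

theorem arith : ∃ C : ℕ, ∀ (p : Par) (n2 : ℕ), Good p n2 → 22400 ≤ p.n →
    ∀ z : ℤ, ((p.q ^ C : ℕ) : ℤ) ≤ z → ∀ K : ℕ, 1 ≤ K → K ≤ 2 * (p.B + p.L) + 1 →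
    (K.factorial * (2 ^ (p.P + p.S + p.n * (2 * p.B + p.L) + 2 + 2 * (p.B + p.L)) *
      (8 * p.q * (p.P + p.S + p.n * (2 * p.B + p.L) + 2) *
      ((p.P * p.B * (p.P * p.B * (p.q : ℤ) ^ (2 * p.Q)) * (p.q : ℤ) ^ (2 * p.Q)) *
        (p.S * (p.B + p.L) * (p.P * p.B * (p.P * p.B * (p.q : ℤ) ^ (2 * p.Q)) *
          (p.q : ℤ) ^ (2 * p.Q)))))) ^ K) ^ 2 <
      z ^ (∑ c ∈ range K, (p.R / 2 - (K - 1) - p.n * c)) := by
  obtain ⟨c2, hc2⟩ : ∃ c2 : ℕ, c2 = 2 ^ 1200 := ⟨_, rfl⟩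
  obtain ⟨c0, hc0⟩ : ∃ c0 : ℕ, c0 = 8 * 1200 * ((8 * 410 * (8 * 410)) *
    (168 * 600 * (8 * 410 * (8 * 410)))) := ⟨_, rfl⟩
  obtain ⟨a, ha⟩ : ∃ a : ℕ, a = 1400 * (c2 * c0) := ⟨_, rfl⟩
  obtain ⟨M, hM⟩ : ∃ M : ℕ, M = 44800 := ⟨_, rfl⟩
  refine ⟨(a + 681) * (2 * M) + 1, ?_⟩
  intro p n2 g hn0 z hz0 K hK1 hK2
  obtain ⟨q, hq⟩ : ∃ q, p.q = q := ⟨_, rfl⟩
  rw [hq] at hz0
  obtain ⟨Y, hY⟩ : ∃ Y : ℕ, Y = q ^ 170 := ⟨_, rfl⟩
  obtain ⟨c3, hc3⟩ : ∃ c3 : ℕ, c3 = 8 * q * 1200 * ((8 * 410 * (8 * 410 * Y) * Y) *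
    (168 * 600 * (8 * 410 * (8 * 410 * Y) * Y))) := ⟨_, rfl⟩
  obtain ⟨c, hc⟩ : ∃ c : ℕ, c = 1400 * (c2 * c3) := ⟨_, rfl⟩
  obtain ⟨hR1, hS, hQ, hnL, hnB, hnR⟩ := Arith_bounds g
  have hn1 : 1 ≤ p.n := g.hn
  have hP : p.P = 4 * p.R := g.hP
  have hLB : p.B = p.L + 1 := g.hB
  have hB : p.B ≤ 204 * p.R := le_trans (Nat.le_mul_of_pos_left _ hn1) hnB
  have hLR : p.L ≤ 85 * p.R := le_trans (Nat.le_mul_of_pos_left _ hn1) hnL
  have hnK : p.n * K ≤ 700 * p.R := by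
    have e : p.n * K ≤ p.n * (4 * p.L + 3) := Nat.mul_le_mul_left _ (by omega)
    have e2 : p.n * (4 * p.L + 3) = 4 * (p.n * p.L) + 3 * p.n := by ring
    omega
  have hK : K ≤ 700 * p.R := le_trans (Nat.le_mul_of_pos_left _ hn1) hnK
  have h32 : 32 * K ≤ p.R := by
    have e : 22400 * K ≤ p.n * K := Nat.mul_le_mul_right _ hn0
    omega
  have hsum := Arith_sum hn1 hK1 hnK h32
  rw [← hM] at hsum
  obtain ⟨Sg, hSg⟩ : ∃ Sg, Sg = ∑ c ∈ range K, (p.R / 2 - (K - 1) - p.n * c) := ⟨_, rfl⟩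
  rw [← hSg] at hsum ⊢
  obtain ⟨D1, hD1⟩ : ∃ D1, D1 = p.P + p.S + p.n * (2 * p.B + p.L) + 2 := ⟨_, rfl⟩
  obtain ⟨D2, hD2⟩ : ∃ D2, D2 = 2 * (p.B + p.L) := ⟨_, rfl⟩
  have hD1' : D1 ≤ 600 * p.R := by
    have e2 : p.n * (2 * p.B + p.L) = 2 * (p.n * p.B) + p.n * p.L := by ring
    omega
  have hD2' : D2 ≤ 600 * p.R := by omega
  have hpw : 2 ^ (D1 + D2) ≤ c2 ^ p.R := by
    rw [hc2, ← pow_mul]
    exact Nat.pow_le_pow_right (by norm_num) (by omega)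
  have hq2 : 2 ≤ q := by
    have := g.hq3
    omega
  have hz : ((c ^ (2 * M) + 1 : ℕ) : ℤ) ≤ z := by
    refine le_trans ?_ hz0
    exact_mod_cast Arith_c hq2 (Arith_c3 hc3 hY hc hc0 ha)
  have bP : p.P ≤ 8 ^ p.R := Arith_lin (a := 4) hR1 (by omega)
  have bB : p.B ≤ 410 ^ p.R := Arith_lin (a := 205) hR1 (by omega)
  have bS : p.S ≤ 168 ^ p.R := Arith_lin (a := 84) hR1 (by omega)
  have bBL : p.B + p.L ≤ 600 ^ p.R := Arith_lin (a := 300) hR1 (by omega)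
  have bD1 : D1 ≤ 1200 ^ p.R := Arith_lin (a := 600) hR1 (by omega)
  have bK : K ≤ 1400 ^ p.R := Arith_lin (a := 700) hR1 (by omega)
  have b8 : 8 ≤ 8 ^ p.R := Nat.le_self_pow (by omega) 8
  have bq : q ≤ q ^ p.R := Nat.le_self_pow (by omega) q
  have bY : q ^ (2 * p.Q) ≤ Y ^ p.R := by
    rw [hY, ← pow_mul]
    exact Nat.pow_le_pow_right (by omega) (by omega)
  have hH : 8 * q * D1 * ((p.P * p.B * (p.P * p.B * q ^ (2 * p.Q)) * q ^ (2 * p.Q)) *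
      (p.S * (p.B + p.L) * (p.P * p.B * (p.P * p.B * q ^ (2 * p.Q)) * q ^ (2 * p.Q)))) ≤
      c3 ^ p.R := by
    have e : c3 ^ p.R = 8 ^ p.R * q ^ p.R * 1200 ^ p.R * ((8 ^ p.R * 410 ^ p.R *
        (8 ^ p.R * 410 ^ p.R * Y ^ p.R) * Y ^ p.R) * (168 ^ p.R * 600 ^ p.R *
        (8 ^ p.R * 410 ^ p.R * (8 ^ p.R * 410 ^ p.R * Y ^ p.R) * Y ^ p.R))) := by
      rw [hc3]
      simp only [mul_pow]
    rw [e]
    have bPB : p.P * p.B ≤ 8 ^ p.R * 410 ^ p.R := Nat.mul_le_mul bP bB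
    have b1 : p.P * p.B * (p.P * p.B * q ^ (2 * p.Q)) * q ^ (2 * p.Q) ≤
        8 ^ p.R * 410 ^ p.R * (8 ^ p.R * 410 ^ p.R * Y ^ p.R) * Y ^ p.R :=
      Nat.mul_le_mul (Nat.mul_le_mul bPB (Nat.mul_le_mul bPB bY)) bY
    exact Nat.mul_le_mul (Nat.mul_le_mul (Nat.mul_le_mul b8 bq) bD1)
      (Nat.mul_le_mul b1 (Nat.mul_le_mul (Nat.mul_le_mul bS bBL) b1))
  obtain ⟨H, hHd⟩ : ∃ H, H = 8 * q * D1 * ((p.P * p.B * (p.P * p.B * q ^ (2 * p.Q)) *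
      q ^ (2 * p.Q)) * (p.S * (p.B + p.L) * (p.P * p.B * (p.P * p.B * q ^ (2 * p.Q)) *
      q ^ (2 * p.Q)))) := ⟨_, rfl⟩
  rw [← hHd] at hH
  have hmain : (K.factorial * (2 ^ (D1 + D2) * H) ^ K) ^ 2 ≤ c ^ (2 * (K * p.R)) := by
    have e1 : K.factorial ≤ (1400 ^ p.R) ^ K :=
      (Nat.factorial_le_pow K).trans (Nat.pow_le_pow_left bK K)
    have e2 : (2 ^ (D1 + D2) * H) ^ K ≤ (c2 ^ p.R * c3 ^ p.R) ^ K :=
      Nat.pow_le_pow_left (Nat.mul_le_mul hpw hH) K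
    have e3 : (1400 ^ p.R) ^ K * (c2 ^ p.R * c3 ^ p.R) ^ K = c ^ (K * p.R) := by
      rw [← mul_pow, ← mul_pow, ← mul_pow, ← hc, ← pow_mul, mul_comm p.R K]
    calc (K.factorial * (2 ^ (D1 + D2) * H) ^ K) ^ 2 ≤ (c ^ (K * p.R)) ^ 2 := by
          rw [← e3]
          exact Nat.pow_le_pow_left (Nat.mul_le_mul e1 e2) 2
      _ = c ^ (2 * (K * p.R)) := by
          rw [← pow_mul, mul_comm]
  have hq0 : 0 < q := by omega
  have hY1 : 0 < Y := by rw [hY]; exact Nat.pow_pos hq0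
  have hc2' : 0 < c2 := by
    rw [hc2]
    exact Nat.pow_pos (by norm_num)
  have hA : 0 < 8 * 410 * (8 * 410 * Y) * Y :=
    Nat.mul_pos (Nat.mul_pos (by norm_num) (Nat.mul_pos (by norm_num) hY1)) hY1
  have hc3' : 0 < c3 := by
    rw [hc3]
    exact Nat.mul_pos (Nat.mul_pos (Nat.mul_pos (by norm_num) hq0) (by norm_num))
      (Nat.mul_pos hA (Nat.mul_pos (by norm_num) hA))
  have hc1 : 1 ≤ c := by
    rw [hc]
    exact Nat.mul_pos (by norm_num) (Nat.mul_pos hc2' hc3')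
  have hSg1 : Sg ≠ 0 := by
    intro h0
    rw [h0, mul_zero] at hsum
    have : 0 < K * p.R := Nat.mul_pos hK1 hR1
    omega
  have hfin : (K.factorial * (2 ^ (D1 + D2) * H) ^ K) ^ 2 < (c ^ (2 * M) + 1) ^ Sg := by
    refine lt_of_le_of_lt hmain ?_
    calc c ^ (2 * (K * p.R)) ≤ c ^ (2 * (M * Sg)) :=
          Nat.pow_le_pow_right hc1 (Nat.mul_le_mul_left _ hsum)
      _ = (c ^ (2 * M)) ^ Sg := by
          rw [← pow_mul]
          congr 1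
          ring
      _ < (c ^ (2 * M) + 1) ^ Sg := Nat.pow_lt_pow_left (Nat.lt_succ_self _) hSg1
  have hz2 : (((c ^ (2 * M) + 1) ^ Sg : ℕ) : ℤ) ≤ z ^ Sg := by
    rw [Nat.cast_pow]
    exact pow_le_pow_left₀ (Int.natCast_nonneg _) hz Sg
  refine lt_of_lt_of_le ?_ hz2
  have e : (K.factorial * (2 ^ (p.P + p.S + p.n * (2 * p.B + p.L) + 2 + 2 * (p.B + p.L)) *
      (8 * p.q * (p.P + p.S + p.n * (2 * p.B + p.L) + 2) *
      ((p.P * p.B * (p.P * p.B * (p.q : ℤ) ^ (2 * p.Q)) * (p.q : ℤ) ^ (2 * p.Q)) *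
        (p.S * (p.B + p.L) * (p.P * p.B * (p.P * p.B * (p.q : ℤ) ^ (2 * p.Q)) *
          (p.q : ℤ) ^ (2 * p.Q)))))) ^ K) ^ 2 =
      (((K.factorial * (2 ^ (D1 + D2) * H) ^ K) ^ 2 : ℕ) : ℤ) := by
    rw [hHd, hD1, hD2, hq]
    push_cast
    rfl
  rw [e]
  exact_mod_cast hfin

end Pool.Agent.NLF
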