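import Pool.Agent.NL.Defs

/-!
# NLF-Choice: the exponents `e, f` of `t = y ^ e u ^ f`
-/

namespace Pool.Agent.NLF

/-- For `1 ≤ s ≤ q - 2` there are `e, f ≥ 1` with `e + f ≤ (q + 1) / 2` and `f = e s` modulo `q`. -/
theorem choice_ef {q : ℕ} (hq : q.Prime) (hq3 : 3 ≤ q) {s : ℕ} (h1 : 1 ≤ s) (h2 : s + 2 ≤ q) :
    ∃ e f : ℕ, 1 ≤ e ∧ 1 ≤ f ∧ 2 * (e + f) ≤ q + 1 ∧ (e * s) % q = f % q := by
  rcases Nat.lt_or_ge (2 * s) q with h | h
  · exact ⟨1, s, le_rfl, h1, by omega, by rw [one_mul]⟩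
  · obtain ⟨k, hk⟩ : ∃ k, k = q - s := ⟨_, rfl⟩
    have hk2 : 2 ≤ k := by omega
    have hkq : 2 * k ≤ q := by omega
    have hkq' : 2 * k + 1 ≤ q := by
      rcases Nat.lt_or_ge (2 * k) q with h3 | h3
      · omega
      · exfalso
        have h4 : q = 2 * k := by omega
        have h5 : 2 ∣ q := ⟨k, h4⟩
        have := (Nat.prime_dvd_prime_iff_eq Nat.prime_two hq).1 h5
        omega
    have hdm := Nat.div_add_mod q k
    have hml := Nat.mod_lt q (by omega : 0 < k)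
    obtain ⟨e, he⟩ : ∃ e, e = q / k := ⟨_, rfl⟩
    obtain ⟨f, hf⟩ : ∃ f, f = q % k := ⟨_, rfl⟩
    rw [← he, ← hf] at hdm
    rw [← hf] at hml
    have hf1 : 1 ≤ f := by
      rcases Nat.eq_zero_or_pos f with h0 | h0
      · exfalso
        rw [h0, add_zero] at hdm
        have h5 : k ∣ q := ⟨e, hdm.symm⟩
        rcases (Nat.dvd_prime hq).1 h5 with h6 | h6 <;> omega
      · exact h0
    have he2 : 2 ≤ e := by
      by_contra hcon
      have h6 : e ≤ 1 := by omega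
      have h7 : k * e ≤ k * 1 := Nat.mul_le_mul_left _ h6
      omega
    refine ⟨e, f, by omega, hf1, ?_, ?_⟩
    · -- `2 (e + f) ≤ q + 1`
      obtain ⟨a, ha⟩ : ∃ a, k = a + 2 := ⟨k - 2, by omega⟩
      obtain ⟨b, hb⟩ : ∃ b, e = b + 2 := ⟨e - 2, by omega⟩
      subst ha hb
      have h8 : (a + 2) * (b + 2) = a * b + 2 * a + 2 * b + 4 := by ring
      rw [h8] at hdm
      -- `q = a b + 2 a + 2 b + 4 + f`, `f ≤ a + 1`; need `2 b + 4 + 2 f ≤ q + 1`
      have h9 : f ≤ a + 1 := by omega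
      rcases Nat.eq_zero_or_pos a with h10 | h10
      · subst h10
        omega
      · have h11 : b ≤ a * b := Nat.le_mul_of_pos_left _ h10
        omega
    · -- congruence
      have hs : s = q - k := by omega
      have h12 : e * s + q = f + q * e := by
        have h13 : e * s + e * k = e * q := by
          rw [← mul_add, hs, Nat.sub_add_cancel (by omega)]
        have h14 : k * e = e * k := mul_comm _ _
        have h15 : e * q = q * e := mul_comm _ _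
        omega
      have h16 : (e * s + q) % q = (f + q * e) % q := by rw [h12]
      rwa [Nat.add_mod_right, Nat.add_mul_mod_self_left] at h16

theorem choice {q : ℕ} (hq : q.Prime) (hq3 : 3 ≤ q) {n1 n2 : ℕ} (hn1 : 1 ≤ n1) (hn2 : 1 ≤ n2)
    (h1 : n1 % q ≠ 1) (h2 : n2 % q ≠ 1) (h12 : n1 % q ≠ n2 % q) :
    ∃ e f J : ℕ, 1 ≤ e ∧ 1 ≤ f ∧ 2 * (e + f) ≤ q + 1 ∧ q * J + (e + f) = e * n2 + f * n1 := by
  haveI : Fact q.Prime := ⟨hq⟩
  have hn1q : ((n1 : ℕ) : ZMod q) - 1 ≠ 0 := by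
    intro h0
    apply h1
    have h3 : ((n1 : ℕ) : ZMod q) = ((1 : ℕ) : ZMod q) := by
      rw [Nat.cast_one]
      exact sub_eq_zero.1 h0
    rw [ZMod.natCast_eq_natCast_iff'] at h3
    rwa [Nat.mod_eq_of_lt (by omega : 1 < q)] at h3
  have hn2q : ((n2 : ℕ) : ZMod q) - 1 ≠ 0 := by
    intro h0
    apply h2
    have h3 : ((n2 : ℕ) : ZMod q) = ((1 : ℕ) : ZMod q) := by
      rw [Nat.cast_one]
      exact sub_eq_zero.1 h0
    rw [ZMod.natCast_eq_natCast_iff'] at h3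
    rwa [Nat.mod_eq_of_lt (by omega : 1 < q)] at h3
  set s : ℕ := (-(((n2 : ℕ) : ZMod q) - 1) / (((n1 : ℕ) : ZMod q) - 1)).val with hs
  have hscast : ((s : ℕ) : ZMod q) = -(((n2 : ℕ) : ZMod q) - 1) / (((n1 : ℕ) : ZMod q) - 1) := by
    rw [hs, ZMod.natCast_zmod_val]
  have hsq : s < q := ZMod.val_lt _
  have hs0 : s ≠ 0 := by
    intro h0
    rw [h0, Nat.cast_zero] at hscast
    have := div_ne_zero (neg_ne_zero.2 hn2q) hn1q
    exact this hscast.symm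
  have hs1 : s ≠ q - 1 := by
    intro h0
    have h3 : ((s : ℕ) : ZMod q) = -1 := by
      rw [h0, Nat.cast_sub (by omega), Nat.cast_one, ZMod.natCast_self, zero_sub]
    rw [h3] at hscast
    have h4 := (div_eq_iff hn1q).1 hscast.symm
    apply h12
    have h5 : ((n1 : ℕ) : ZMod q) = ((n2 : ℕ) : ZMod q) := by linear_combination h4
    exact (ZMod.natCast_eq_natCast_iff' n1 n2 q).1 h5
  obtain ⟨e, f, he, hf, hef, hmod⟩ := choice_ef hq hq3 (s := s) (by omega) (by omega)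
  have hef2 : ((e : ℕ) : ZMod q) * ((s : ℕ) : ZMod q) = ((f : ℕ) : ZMod q) := by
    have := (ZMod.natCast_eq_natCast_iff' (e * s) f q).2 hmod
    push_cast at this
    exact this
  have hdvd : q ∣ e * (n2 - 1) + f * (n1 - 1) := by
    rw [← ZMod.natCast_eq_zero_iff]
    push_cast
    rw [Nat.cast_sub hn2, Nat.cast_sub hn1, ← hef2, hscast]
    push_cast
    field_simp
    ring
  obtain ⟨J, hJ⟩ := hdvd
  refine ⟨e, f, J, he, hf, hef, ?_⟩
  rw [← hJ]
  obtain ⟨a, rfl⟩ : ∃ a, n1 = a + 1 := ⟨n1 - 1, by omega⟩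
  obtain ⟨b, rfl⟩ : ∃ b, n2 = b + 1 := ⟨n2 - 1, by omega⟩
  rw [Nat.add_sub_cancel, Nat.add_sub_cancel]
  ring

/-- the equation for `t = y ^ e u ^ f` -/
theorem choice_eq {q z n1 n2 u y e f : ℕ} (hu : u ^ q = NL.rep z n1) (hy : y ^ q = NL.rep z n2) :
    ((y ^ e * u ^ f : ℕ) : ℤ) ^ q * ((z : ℤ) - 1) ^ (e + f) =
      ((z : ℤ) ^ n2 - 1) ^ e * ((z : ℤ) ^ n1 - 1) ^ f := by
  have hu' := NL.rep_mul_int z n1
  have hy' := NL.rep_mul_int z n2
  rw [← hu] at hu'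
  rw [← hy] at hy'
  have e1 : ((y ^ e * u ^ f : ℕ) : ℤ) ^ q * ((z : ℤ) - 1) ^ (e + f) =
      (((y ^ q : ℕ) : ℤ) * ((z : ℤ) - 1)) ^ e * (((u ^ q : ℕ) : ℤ) * ((z : ℤ) - 1)) ^ f := by
    push_cast
    rw [mul_pow, mul_pow, mul_pow, pow_add, ← pow_mul, ← pow_mul, ← pow_mul, ← pow_mul, mul_comm e q,
      mul_comm f q]
    ring
  rw [e1, hu', hy']

end Pool.Agent.NLF
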