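import Pool.Agent.NL.Defs

/-!
# NLF-Elem: two close lengths in the same class
-/

namespace Pool.Agent.NLF

open Finset

private theorem elem_rep_add (z a b : ℕ) : NL.rep z (a + b) = NL.rep z a + z ^ a * NL.rep z b := by
  induction b with
  | zero => rw [NL.rep_zero, mul_zero, add_zero, add_zero]
  | succ b ih => rw [← add_assoc, NL.rep_succ, ih, NL.rep_succ, mul_add, ← pow_add, add_assoc]

private theorem elem_rep_ge {z : ℕ} (a : ℕ) : z ^ a ≤ NL.rep z (a + 1) := by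
  rw [NL.rep_succ]
  exact Nat.le_add_left _ _

/-- `n2 < 2 n1`, `n2 - n1` divisible by `q`. -/
theorem same_small {q z n1 n2 k u y : ℕ} (hq : 2 ≤ q) (hz : 2 ≤ z) (hn1 : 2 ≤ n1) (h12 : n1 < n2)
    (h2 : n2 < 2 * n1) (hk : n2 = n1 + q * k) (hu : u ^ q = NL.rep z n1) (hy : y ^ q = NL.rep z n2) :
    False := by
  obtain ⟨d, hd⟩ : ∃ d, d = q * k := ⟨_, rfl⟩
  obtain ⟨v, hv⟩ : ∃ v, v = u * z ^ k := ⟨_, rfl⟩
  have hd1 : 1 ≤ d := by omega
  have hvq : v ^ q = z ^ d * NL.rep z n1 := by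
    rw [hv, mul_pow, hu, hd, ← pow_mul, mul_comm k q, mul_comm]
  have hyq : y ^ q = NL.rep z d + v ^ q := by
    rw [hy, hk, ← hd, add_comm n1 d, elem_rep_add, hvq]
  have hpos : 0 < NL.rep z d := NL.rep_pos hd1
  have hvy : v < y := by
    apply lt_of_pow_lt_pow_left₀ q (Nat.zero_le _)
    omega
  -- `v ^ (q - 1) ≥ z ^ d`
  obtain ⟨p, rfl⟩ : ∃ p, q = p + 1 := ⟨q - 1, by omega⟩
  have hp1 : 1 ≤ p := by omega
  obtain ⟨a, rfl⟩ : ∃ a, n1 = a + 1 := ⟨n1 - 1, by omega⟩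
  have hda : d ≤ a := by omega
  have hbig : z ^ (d + a) ≤ v ^ (p + 1) := by
    rw [hvq, pow_add]
    exact Nat.mul_le_mul_left _ (elem_rep_ge a)
  have hvd : z ^ d ≤ v ^ p := by
    have h3 : (z ^ d) ^ (p + 1) ≤ (v ^ p) ^ (p + 1) := by
      calc (z ^ d) ^ (p + 1) = z ^ (d * (p + 1)) := by rw [← pow_mul]
        _ ≤ z ^ ((d + a) * p) := by
            refine Nat.pow_le_pow_right (by omega) ?_
            have h4 : d ≤ a * p := hda.trans (Nat.le_mul_of_pos_right _ hp1)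
            calc d * (p + 1) = d * p + d := by ring
              _ ≤ d * p + a * p := by omega
              _ = (d + a) * p := by ring
        _ = (z ^ (d + a)) ^ p := by rw [pow_mul]
        _ ≤ (v ^ (p + 1)) ^ p := Nat.pow_le_pow_left hbig _
        _ = (v ^ p) ^ (p + 1) := by rw [← pow_mul, ← pow_mul, mul_comm]
    exact (Nat.pow_le_pow_iff_left (by omega)).1 h3
  have hlt : NL.rep z d < z ^ d := NL.rep_lt hz
  have h5 : (v + 1) ^ (p + 1) ≤ y ^ (p + 1) := Nat.pow_le_pow_left hvy _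
  have h6 : v ^ (p + 1) + v ^ p ≤ (v + 1) ^ (p + 1) := by
    calc v ^ (p + 1) + v ^ p = v ^ p * (v + 1) := by ring
      _ ≤ (v + 1) ^ p * (v + 1) := Nat.mul_le_mul_right _ (Nat.pow_le_pow_left (by omega) _)
      _ = (v + 1) ^ (p + 1) := by ring
  omega

end Pool.Agent.NLF
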