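import Pool.Agent.NLC.Phi
import Pool.Agent.NLF.Defs

/-!
# NLF-Elim: elimination of `t`

PLAN (both identities below were checked numerically).  `w = z ^ n`, `s = h - 1`.
`Θ = emZ (bs (z-1) (J + h/q) * bs z (-h/q)) * emW (bs (w-1) (-s/q) * bs w (s/q))`
(`((z(τ)-1)/(z-1))^e = (1 - z τ)^e = bs z e`).
(1) Let `G : Rg` have the coefficients `vv l₁ l₂ / q ^ (2(l₁+l₂))`.  Then, from the definitions
(`E1 = q^(2l) * coeff l (bs (z-1) (m - nβ + J + h/q) * bs z (-h/q))`, etc., `NLG.KZ_cast`):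
`G = t * ∑ A i β q^(2Q) z^m emZ (bs (z-1) (m - nβ + J + h/q) * bs z (-h/q)) emW (bs (w-1) (β - s/q) * bs w (s/q))
  - ∑ gZ r j z^(S-1-r) emZ (bs (z-1) (S-1-r - n(j-L))) emW (bs (w-1) (j-L))`.
Multiply by the unit `emZ (bs (z-1) (n(B-1))) * emW (bs (w-1) L)` and by `z ^ (n (B-1+L))`
(`bs_mul`, `phi_monomial`; `w ^ (β+L) = z ^ (n (β+L))`):
`G' := z ^ (n(B-1+L)) * G * unit = t * phi AP * Θ + phi BP`.
(2) With `D` the derivation in `τ`, `z' = - z (z-1)`: `D (phi N) = z' phi (derivative N)` (`phi_deriv`),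
`z(τ) (z(τ)-1) D Θ = z' ((J + h/q)(z(τ)-1) - (h/q) z(τ)) Θ` (`bs_deriv`; `phi X = emZ (wS z)`,
`phi (X-1) = (z-1) emZ (1 - z τ)`), hence
`z' t Θ phi NN = q phi X phi (X-1) (phi BP * D G' - G' * D (phi BP))`.
(3) If `vv = 0` for `l₁ + n l₂ < T` then `Wt n T G`, `Wt n T G'`, `Wt n (T-1) (D G')`, so
`Wt n (T-1) (t z' Θ phi NN)`; multiply by the inverse unit
`emZ (bs (z-1) (-(J+h/q)) * bs z (h/q)) * emW (bs (w-1) (s/q) * bs w (-s/q))` and by `(t z')⁻¹`: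
`Wt n (T-1) (phi NN)`, and `mom_of_Wt`.
-/

namespace Pool.Agent.NLF

open Finset Polynomial
open Pool.Agent.NLG (KZ kap)
open Pool.Agent.NLC

/-! ### constants and coefficients -/

/-- the constants -/
private noncomputable def elim_cc : ℚ →+* Rg := emZ.comp (PowerSeries.C (R := ℚ))

private theorem elim_cc_emZ (x : ℚ) : emZ (PowerSeries.C x) = elim_cc x := rfl

private theorem elim_cc_emW (x : ℚ) : emW (PowerSeries.C x) = elim_cc x := by
  rw [← elim_cc_emZ, emW, emZ, PowerSeries.map_C]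

/-- the coefficients -/
private noncomputable def elim_co (l₁ l₂ : ℕ) : Rg →+ ℚ :=
  ((PowerSeries.coeff l₂ : PowerSeries ℚ →ₗ[ℚ] ℚ).toAddMonoidHom).comp
    (PowerSeries.coeff l₁ : Rg →ₗ[PowerSeries ℚ] PowerSeries ℚ).toAddMonoidHom

private theorem elim_co_apply (l₁ l₂ : ℕ) (F : Rg) :
    elim_co l₁ l₂ F = PowerSeries.coeff l₂ (PowerSeries.coeff l₁ F) := rfl

private theorem elim_co_cc (l₁ l₂ : ℕ) (x : ℚ) (F : Rg) :
    elim_co l₁ l₂ (elim_cc x * F) = x * elim_co l₁ l₂ F := by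
  rw [← elim_cc_emW, elim_co_apply, elim_co_apply, emW, PowerSeries.coeff_C_mul,
    PowerSeries.coeff_C_mul]

private theorem elim_co_em (l₁ l₂ : ℕ) (f g : PowerSeries ℚ) :
    elim_co l₁ l₂ (emZ f * emW g) = PowerSeries.coeff l₁ f * PowerSeries.coeff l₂ g :=
  coeff_emZ_mul_emW f g l₁ l₂

private theorem elim_bs (x e : ℚ) (l : ℕ) : PowerSeries.coeff l (bs x e) = kap e l * x ^ l := by
  rw [bs, PowerSeries.coeff_mk]

private theorem elim_KZ {q : ℕ} (hq : 1 ≤ q) {a x : ℤ} {e x' : ℚ} (ha : (a : ℚ) / q = e)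
    (hx : (x : ℚ) = x') (l : ℕ) :
    ((KZ q a l * x ^ l : ℤ) : ℚ) = (q : ℚ) ^ (2 * l) * PowerSeries.coeff l (bs x' e) := by
  rw [elim_bs, Int.cast_mul, Pool.Agent.NLG.KZ_cast hq, ha, Int.cast_pow, hx]
  ring

private theorem elim_sum {q : ℕ} (hq : 1 ≤ q) {a b x y : ℤ} {e f x' y' : ℚ}
    (ha : (a : ℚ) / q = e) (hb : (b : ℚ) / q = f) (hx : (x : ℚ) = x') (hy : (y : ℚ) = y') (l : ℕ) :
    ((∑ k ∈ range (l + 1), KZ q a k * x ^ k * (KZ q b (l - k) * y ^ (l - k)) : ℤ) : ℚ) =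
      (q : ℚ) ^ (2 * l) * PowerSeries.coeff l (bs x' e * bs y' f) := by
  rw [PowerSeries.coeff_mul, Finset.Nat.sum_antidiagonal_eq_sum_range_succ
    (fun i j => PowerSeries.coeff i (bs x' e) * PowerSeries.coeff j (bs y' f)) l, Finset.mul_sum,
    Int.cast_sum]
  refine Finset.sum_congr rfl (fun k hk => ?_)
  have hk' : k ≤ l := Nat.lt_succ_iff.1 (Finset.mem_range.1 hk)
  have h1 : (q : ℚ) ^ (2 * l) = (q : ℚ) ^ (2 * k) * (q : ℚ) ^ (2 * (l - k)) := by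
    rw [← pow_add]
    congr 1
    omega
  rw [Int.cast_mul, elim_KZ hq ha hx, elim_KZ hq hb hy, h1]
  ring

private theorem elim_E1 {p : Par} (hq : 1 ≤ p.q) (z : ℤ) (m β l : ℕ) : (E1 p z m β l : ℚ) =
    (p.q : ℚ) ^ (2 * l) * PowerSeries.coeff l
      (bs ((z : ℚ) - 1) ((m : ℚ) - p.n * β + p.J + p.h / p.q) * bs (z : ℚ) (-(p.h / p.q))) := by
  have hq0 : (p.q : ℚ) ≠ 0 := by
    have : (p.q : ℕ) ≠ 0 := by omega
    exact_mod_cast this
  rw [E1]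
  refine elim_sum hq ?_ ?_ ?_ rfl l
  · push_cast
    field_simp
  · push_cast
    ring
  · push_cast
    ring

private theorem elim_E2 {p : Par} (hq : 1 ≤ p.q) (w : ℤ) (β l : ℕ) : (E2 p w β l : ℚ) =
    (p.q : ℚ) ^ (2 * l) * PowerSeries.coeff l
      (bs ((w : ℚ) - 1) ((β : ℚ) - (p.f : ℚ) / p.q) * bs (w : ℚ) ((p.f : ℚ) / p.q)) := by
  have hq0 : (p.q : ℚ) ≠ 0 := by
    have : (p.q : ℕ) ≠ 0 := by omega
    exact_mod_cast this
  rw [E2]
  refine elim_sum hq ?_ ?_ ?_ rfl l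
  · push_cast
    field_simp
  · push_cast
    ring
  · push_cast
    ring

/-- the form at the point -/
private noncomputable def elim_G (p : Par) (A : ℕ → ℕ → ℤ) (z w t : ℤ) : Rg :=
  elim_cc (t : ℚ) * ∑ i ∈ range p.P, ∑ β ∈ range p.B,
    elim_cc ((A i β : ℚ) * (p.q : ℚ) ^ (2 * p.Q) * (z : ℚ) ^ (p.P - 1 - i)) *
      (emZ (bs ((z : ℚ) - 1) (((p.P - 1 - i : ℕ) : ℚ) - p.n * β + p.J + p.h / p.q) *
          bs (z : ℚ) (-(p.h / p.q))) *
        emW (bs ((w : ℚ) - 1) ((β : ℚ) - (p.f : ℚ) / p.q) *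
          bs (w : ℚ) ((p.f : ℚ) / p.q))) -
  ∑ r ∈ range p.S, ∑ j ∈ range (p.B + p.L),
    elim_cc ((gZ p A r j : ℚ) * (z : ℚ) ^ (p.S - 1 - r)) *
      (emZ (bs ((z : ℚ) - 1) (((p.S - 1 - r : ℕ) : ℚ) - p.n * ((j : ℚ) - p.L))) *
        emW (bs ((w : ℚ) - 1) ((j : ℚ) - p.L)))

private theorem elim_G_co {p : Par} (hq : 1 ≤ p.q) (A : ℕ → ℕ → ℤ) (z w t : ℤ) (l₁ l₂ : ℕ) :
    (vv p A z w t l₁ l₂ : ℚ) =
      (p.q : ℚ) ^ (2 * l₁) * (p.q : ℚ) ^ (2 * l₂) * elim_co l₁ l₂ (elim_G p A z w t) := by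
  have hq0 : (p.q : ℚ) ≠ 0 := by
    have : (p.q : ℕ) ≠ 0 := by omega
    exact_mod_cast this
  rw [vv, elim_G, map_sub, elim_co_cc, Int.cast_sub, Int.cast_mul, mul_sub]
  have h1 : (vA p A z w l₁ l₂ : ℚ) = (p.q : ℚ) ^ (2 * l₁) * (p.q : ℚ) ^ (2 * l₂) * elim_co l₁ l₂
      (∑ i ∈ range p.P, ∑ β ∈ range p.B,
        elim_cc ((A i β : ℚ) * (p.q : ℚ) ^ (2 * p.Q) * (z : ℚ) ^ (p.P - 1 - i)) *
          (emZ (bs ((z : ℚ) - 1) (((p.P - 1 - i : ℕ) : ℚ) - p.n * β + p.J + p.h / p.q) *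
              bs (z : ℚ) (-(p.h / p.q))) *
            emW (bs ((w : ℚ) - 1) ((β : ℚ) - (p.f : ℚ) / p.q) *
              bs (w : ℚ) ((p.f : ℚ) / p.q)))) := by
    rw [vA, Int.cast_sum, map_sum, Finset.mul_sum]
    refine Finset.sum_congr rfl (fun i _ => ?_)
    rw [Int.cast_sum, map_sum, Finset.mul_sum]
    refine Finset.sum_congr rfl (fun β _ => ?_)
    rw [elim_co_cc, elim_co_em, Int.cast_mul, Int.cast_mul, elim_E1 hq, elim_E2 hq]
    push_cast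
    ring
  have h2 : (vB p A z w l₁ l₂ : ℚ) = (p.q : ℚ) ^ (2 * l₁) * (p.q : ℚ) ^ (2 * l₂) * elim_co l₁ l₂
      (∑ r ∈ range p.S, ∑ j ∈ range (p.B + p.L),
        elim_cc ((gZ p A r j : ℚ) * (z : ℚ) ^ (p.S - 1 - r)) *
          (emZ (bs ((z : ℚ) - 1) (((p.S - 1 - r : ℕ) : ℚ) - p.n * ((j : ℚ) - p.L))) *
            emW (bs ((w : ℚ) - 1) ((j : ℚ) - p.L)))) := by
    rw [vB, Int.cast_sum, map_sum, Finset.mul_sum]
    refine Finset.sum_congr rfl (fun r _ => ?_)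
    rw [Int.cast_sum, map_sum, Finset.mul_sum]
    refine Finset.sum_congr rfl (fun j _ => ?_)
    have h3 := elim_KZ (q := p.q) hq
      (a := p.q * (((p.S - 1 - r : ℕ) : ℤ) - p.n * ((j : ℤ) - p.L))) (x := z - 1)
      (e := ((p.S - 1 - r : ℕ) : ℚ) - p.n * ((j : ℚ) - p.L)) (x' := (z : ℚ) - 1)
      (by push_cast; field_simp) (by push_cast; ring) l₁
    have h4 := elim_KZ (q := p.q) hq
      (a := p.q * ((j : ℤ) - p.L)) (x := w - 1)
      (e := (j : ℚ) - p.L) (x' := (w : ℚ) - 1)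
      (by push_cast; field_simp) (by push_cast; ring) l₂
    rw [elim_co_cc, elim_co_em, Int.cast_mul, Int.cast_mul, h3, h4]
    push_cast
    ring
  rw [h1, h2]
  ring

/-! ### the values of `phi` -/

private theorem elim_phiX (z w : ℤ) : phi z w X = emZ (wS z) := by
  simp [phi]

private theorem elim_phiC (z w : ℤ) (c : ℤ) : phi z w (C (C c)) = elim_cc (c : ℚ) := by
  have h1 : (C (C c) : ℤ[X][X]) = ((c : ℤ) : ℤ[X][X]) := by simp
  rw [h1, map_intCast, map_intCast]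

private theorem elim_phi_mono (z w : ℤ) (i j : ℕ) (c : ℤ) :
    phi z w (monomial i (monomial j c)) =
      (elim_cc ((c : ℚ) * (z : ℚ) ^ i) * emZ (bs ((z : ℚ) - 1) i)) *
        (elim_cc ((w : ℚ) ^ j) * emW (bs ((w : ℚ) - 1) j)) := by
  rw [phi_monomial, map_mul emZ (PowerSeries.C _) (bs _ _), map_mul emW (PowerSeries.C _) (bs _ _),
    elim_cc_emZ, elim_cc_emW]

private theorem elim_emZ_mul (c e e' : ℚ) : emZ (bs c e) * emZ (bs c e') = emZ (bs c (e + e')) := by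
  rw [← map_mul, bs_mul]

private theorem elim_emW_mul (c e e' : ℚ) : emW (bs c e) * emW (bs c e') = emW (bs c (e + e')) := by
  rw [← map_mul, bs_mul]

/-- `T(z, w)` relative to the point -/
private noncomputable def elim_Th (p : Par) (z w : ℤ) : Rg :=
  (emZ (bs ((z : ℚ) - 1) (p.J + p.h / p.q)) * emZ (bs (z : ℚ) (-(p.h / p.q)))) *
    (emW (bs ((w : ℚ) - 1) (-((p.f : ℚ) / p.q))) * emW (bs (w : ℚ) ((p.f : ℚ) / p.q)))

/-- the unit -/
private noncomputable def elim_U (p : Par) (z w : ℤ) : Rg :=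
  elim_cc ((z : ℚ) ^ (p.n * (p.B - 1 + p.L))) *
    (emZ (bs ((z : ℚ) - 1) (p.n * ((p.B : ℚ) - 1))) * emW (bs ((w : ℚ) - 1) p.L))

private theorem elim_pow {z : ℤ} {w : ℤ} {n : ℕ} (hw : w = z ^ n) {u v s m : ℕ} (h : u + v = s) :
    (z : ℚ) ^ (n * s) * (z : ℚ) ^ m = (z : ℚ) ^ (m + n * u) * (w : ℚ) ^ v := by
  rw [hw, ← h]
  push_cast
  rw [← pow_mul, ← pow_add, ← pow_add]
  congr 1
  ring

private theorem elim_G' {p : Par} (hB : 1 ≤ p.B) (A : ℕ → ℕ → ℤ) {z w t : ℤ}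
    (hw : w = z ^ p.n) : elim_U p z w * elim_G p A z w t =
      elim_cc (t : ℚ) * phi z w (AP p A) * elim_Th p z w + phi z w (BP p A) := by
  have h1 : elim_U p z w * (∑ i ∈ range p.P, ∑ β ∈ range p.B,
        elim_cc ((A i β : ℚ) * (p.q : ℚ) ^ (2 * p.Q) * (z : ℚ) ^ (p.P - 1 - i)) *
          (emZ (bs ((z : ℚ) - 1) (((p.P - 1 - i : ℕ) : ℚ) - p.n * β + p.J + p.h / p.q) *
              bs (z : ℚ) (-(p.h / p.q))) *
            emW (bs ((w : ℚ) - 1) ((β : ℚ) - (p.f : ℚ) / p.q) *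
              bs (w : ℚ) ((p.f : ℚ) / p.q)))) = phi z w (AP p A) * elim_Th p z w := by
    rw [AP, map_sum, Finset.mul_sum, Finset.sum_mul]
    refine Finset.sum_congr rfl (fun i _ => ?_)
    rw [map_sum, Finset.mul_sum, Finset.sum_mul]
    refine Finset.sum_congr rfl (fun β hβ => ?_)
    have hβ' : β < p.B := Finset.mem_range.1 hβ
    have hβ2 : ((p.B - 1 - β : ℕ) : ℚ) = (p.B : ℚ) - 1 - β := by
      rw [Nat.cast_sub (by omega), Nat.cast_sub hB, Nat.cast_one]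
    rw [elim_phi_mono, elim_U, elim_Th, map_mul emZ, map_mul emW]
    have hk : emZ (bs ((z : ℚ) - 1) (p.n * ((p.B : ℚ) - 1))) *
        emZ (bs ((z : ℚ) - 1) (((p.P - 1 - i : ℕ) : ℚ) - p.n * β + p.J + p.h / p.q)) =
        emZ (bs ((z : ℚ) - 1) ((p.P - 1 - i + p.n * (p.B - 1 - β) : ℕ) : ℚ)) *
          emZ (bs ((z : ℚ) - 1) (p.J + p.h / p.q)) := by
      rw [elim_emZ_mul, elim_emZ_mul]
      congr 2
      rw [Nat.cast_add, Nat.cast_mul, hβ2]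
      ring
    have hkw : emW (bs ((w : ℚ) - 1) p.L) * emW (bs ((w : ℚ) - 1) ((β : ℚ) - (p.f : ℚ) / p.q)) =
        emW (bs ((w : ℚ) - 1) ((β + p.L : ℕ) : ℚ)) *
          emW (bs ((w : ℚ) - 1) (-((p.f : ℚ) / p.q))) := by
      rw [elim_emW_mul, elim_emW_mul]
      congr 2
      rw [Nat.cast_add]
      ring
    have hc : elim_cc ((z : ℚ) ^ (p.n * (p.B - 1 + p.L))) *
        elim_cc ((A i β : ℚ) * (p.q : ℚ) ^ (2 * p.Q) * (z : ℚ) ^ (p.P - 1 - i)) =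
        elim_cc ((((p.q : ℤ) ^ (2 * p.Q) * A i β : ℤ) : ℚ) *
          (z : ℚ) ^ (p.P - 1 - i + p.n * (p.B - 1 - β))) * elim_cc ((w : ℚ) ^ (β + p.L)) := by
      rw [← map_mul, ← map_mul]
      congr 1
      have h2 := elim_pow (m := p.P - 1 - i) hw
        (show (p.B - 1 - β) + (β + p.L) = p.B - 1 + p.L by omega)
      push_cast
      linear_combination (A i β : ℚ) * (p.q : ℚ) ^ (2 * p.Q) * h2
    calc _ = (elim_cc ((z : ℚ) ^ (p.n * (p.B - 1 + p.L))) *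
          elim_cc ((A i β : ℚ) * (p.q : ℚ) ^ (2 * p.Q) * (z : ℚ) ^ (p.P - 1 - i))) *
          (emZ (bs ((z : ℚ) - 1) (p.n * ((p.B : ℚ) - 1))) *
            emZ (bs ((z : ℚ) - 1) (((p.P - 1 - i : ℕ) : ℚ) - p.n * β + p.J + p.h / p.q))) *
          (emW (bs ((w : ℚ) - 1) p.L) *
            emW (bs ((w : ℚ) - 1) ((β : ℚ) - (p.f : ℚ) / p.q))) *
          (emZ (bs (z : ℚ) (-(p.h / p.q))) * emW (bs (w : ℚ) ((p.f : ℚ) / p.q))) := by ring
      _ = _ := by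
        rw [hk, hkw, hc]
        ring
  have h2 : elim_U p z w * (∑ r ∈ range p.S, ∑ j ∈ range (p.B + p.L),
        elim_cc ((gZ p A r j : ℚ) * (z : ℚ) ^ (p.S - 1 - r)) *
          (emZ (bs ((z : ℚ) - 1) (((p.S - 1 - r : ℕ) : ℚ) - p.n * ((j : ℚ) - p.L))) *
            emW (bs ((w : ℚ) - 1) ((j : ℚ) - p.L)))) = - phi z w (BP p A) := by
    rw [BP, map_neg, neg_neg, map_sum, Finset.mul_sum]
    refine Finset.sum_congr rfl (fun r _ => ?_)
    rw [map_sum, Finset.mul_sum]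
    refine Finset.sum_congr rfl (fun j hj => ?_)
    have hj' : j < p.B + p.L := Finset.mem_range.1 hj
    have hj2 : ((p.B + p.L - 1 - j : ℕ) : ℚ) = (p.B : ℚ) + p.L - 1 - j := by
      rw [Nat.cast_sub (by omega), Nat.cast_sub (by omega), Nat.cast_one, Nat.cast_add]
    rw [elim_phi_mono, elim_U]
    have hk : emZ (bs ((z : ℚ) - 1) (p.n * ((p.B : ℚ) - 1))) *
        emZ (bs ((z : ℚ) - 1) (((p.S - 1 - r : ℕ) : ℚ) - p.n * ((j : ℚ) - p.L))) =
        emZ (bs ((z : ℚ) - 1) ((p.S - 1 - r + p.n * (p.B + p.L - 1 - j) : ℕ) : ℚ)) := by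
      rw [elim_emZ_mul]
      congr 2
      rw [Nat.cast_add, Nat.cast_mul, hj2]
      ring
    have hkw : emW (bs ((w : ℚ) - 1) p.L) * emW (bs ((w : ℚ) - 1) ((j : ℚ) - p.L)) =
        emW (bs ((w : ℚ) - 1) (j : ℚ)) := by
      rw [elim_emW_mul]
      congr 2
      ring
    have hc : elim_cc ((z : ℚ) ^ (p.n * (p.B - 1 + p.L))) *
        elim_cc ((gZ p A r j : ℚ) * (z : ℚ) ^ (p.S - 1 - r)) =
        elim_cc ((gZ p A r j : ℚ) *
          (z : ℚ) ^ (p.S - 1 - r + p.n * (p.B + p.L - 1 - j))) * elim_cc ((w : ℚ) ^ j) := by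
      rw [← map_mul, ← map_mul]
      congr 1
      have h2 := elim_pow (m := p.S - 1 - r) hw
        (show (p.B + p.L - 1 - j) + j = p.B - 1 + p.L by omega)
      linear_combination (gZ p A r j : ℚ) * h2
    calc _ = (elim_cc ((z : ℚ) ^ (p.n * (p.B - 1 + p.L))) *
          elim_cc ((gZ p A r j : ℚ) * (z : ℚ) ^ (p.S - 1 - r))) *
          (emZ (bs ((z : ℚ) - 1) (p.n * ((p.B : ℚ) - 1))) *
            emZ (bs ((z : ℚ) - 1) (((p.S - 1 - r : ℕ) : ℚ) - p.n * ((j : ℚ) - p.L)))) *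
          (emW (bs ((w : ℚ) - 1) p.L) * emW (bs ((w : ℚ) - 1) ((j : ℚ) - p.L))) := by ring
      _ = _ := by
        rw [hk, hkw, hc]
        ring
  rw [elim_G, mul_sub, h2, mul_left_comm, h1]
  ring

/-! ### the derivative of `Θ` -/

private theorem elim_leib {R : Type} [CommRing R] (F G : PowerSeries R) :
    PowerSeries.derivative R (F * G) =
      F * PowerSeries.derivative R G + G * PowerSeries.derivative R F :=
  (PowerSeries.derivative R).leibniz F G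

private theorem elim_d1 (z e f : ℚ) :
    (PowerSeries.C z * (1 - PowerSeries.C (z - 1) * PowerSeries.X)) *
      (PowerSeries.C z * (1 - PowerSeries.C (z - 1) * PowerSeries.X) - 1) *
      PowerSeries.derivative ℚ (bs (z - 1) e * bs z (-f)) =
    PowerSeries.C (-(z * (z - 1))) *
      (PowerSeries.C e * (PowerSeries.C z * (1 - PowerSeries.C (z - 1) * PowerSeries.X) - 1) -
        PowerSeries.C f * (PowerSeries.C z * (1 - PowerSeries.C (z - 1) * PowerSeries.X))) *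
      (bs (z - 1) e * bs z (-f)) := by
  have h1 := bs_deriv (z - 1) e
  have h2 := bs_deriv z (-f)
  rw [elim_leib]
  obtain ⟨a, ha⟩ : ∃ a, a = bs (z - 1) e := ⟨_, rfl⟩
  obtain ⟨b, hb⟩ : ∃ b, b = bs z (-f) := ⟨_, rfl⟩
  rw [← ha] at h1
  rw [← hb] at h2
  rw [← ha, ← hb]
  obtain ⟨da, hda⟩ : ∃ da, da = PowerSeries.derivative ℚ a := ⟨_, rfl⟩
  obtain ⟨db, hdb⟩ : ∃ db, db = PowerSeries.derivative ℚ b := ⟨_, rfl⟩
  rw [← hda] at h1
  rw [← hdb] at h2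
  rw [← hda, ← hdb]
  simp only [map_neg, map_mul, map_sub, map_one] at h1 h2 ⊢
  obtain ⟨Z, hZ⟩ : ∃ Z : PowerSeries ℚ, Z = PowerSeries.C z := ⟨_, rfl⟩
  obtain ⟨E, hE⟩ : ∃ E : PowerSeries ℚ, E = PowerSeries.C e := ⟨_, rfl⟩
  obtain ⟨F, hF⟩ : ∃ F : PowerSeries ℚ, F = PowerSeries.C f := ⟨_, rfl⟩
  rw [← hZ, ← hE] at h1
  rw [← hZ, ← hF] at h2
  rw [← hZ, ← hE, ← hF]
  linear_combination (Z * (Z - 1) * (1 - Z * PowerSeries.X) * b) * h1 +
    (Z * (Z - 1) * (1 - (Z - 1) * PowerSeries.X) * a) * h2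

private theorem elim_Th_deriv (p : Par) (z w : ℤ) :
    emZ (wS z) * (emZ (wS z) - 1) * PowerSeries.derivative (PowerSeries ℚ) (elim_Th p z w) =
    elim_cc (-((z : ℚ) * ((z : ℚ) - 1))) *
      (elim_cc (p.J + p.h / p.q) * (emZ (wS z) - 1) - elim_cc (p.h / p.q) * emZ (wS z)) *
      elim_Th p z w := by
  have h1 := congrArg emZ (elim_d1 (z : ℚ) (p.J + p.h / p.q) (p.h / p.q))
  rw [elim_Th, elim_leib, ← map_mul emW, deriv_emW, mul_zero,
    zero_add, ← map_mul emZ, deriv_emZ]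
  have h2 : wS z = PowerSeries.C (z : ℚ) *
    (1 - PowerSeries.C ((z : ℚ) - 1) * PowerSeries.X) := rfl
  rw [← h2] at h1
  rw [map_mul emZ, map_mul emZ, map_sub emZ, map_one emZ, map_mul emZ (PowerSeries.C _ * _),
    map_mul emZ (PowerSeries.C _), map_sub emZ, map_mul emZ, map_sub emZ, map_one emZ,
    map_mul emZ (PowerSeries.C _) (wS z), elim_cc_emZ, elim_cc_emZ, elim_cc_emZ] at h1
  linear_combination (emW (bs ((w : ℚ) - 1) (-((p.f : ℚ) / p.q)) *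
    bs (w : ℚ) ((p.f : ℚ) / p.q))) * h1

private theorem elim_Th_inv (p : Par) (z w : ℤ) : ∃ V : Rg, V * elim_Th p z w = 1 := by
  refine ⟨(emZ (bs ((z : ℚ) - 1) (-(p.J + p.h / p.q))) * emZ (bs (z : ℚ) (p.h / p.q))) *
    (emW (bs ((w : ℚ) - 1) ((p.f : ℚ) / p.q)) *
      emW (bs (w : ℚ) (-((p.f : ℚ) / p.q)))), ?_⟩
  have h1 : ∀ c e : ℚ, emZ (bs c e) * emZ (bs c (-e)) = 1 := by
    intro c e
    rw [elim_emZ_mul, add_neg_cancel, bs_zero, map_one]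
  have h2 : ∀ c e : ℚ, emW (bs c e) * emW (bs c (-e)) = 1 := by
    intro c e
    rw [elim_emW_mul, add_neg_cancel, bs_zero, map_one]
  rw [elim_Th]
  calc _ = (emZ (bs ((z : ℚ) - 1) (p.J + p.h / p.q)) *
        emZ (bs ((z : ℚ) - 1) (-(p.J + p.h / p.q)))) *
        (emZ (bs (z : ℚ) (p.h / p.q)) * emZ (bs (z : ℚ) (-(p.h / p.q)))) *
        (emW (bs ((w : ℚ) - 1) ((p.f : ℚ) / p.q)) *
          emW (bs ((w : ℚ) - 1) (-((p.f : ℚ) / p.q)))) *
        (emW (bs (w : ℚ) ((p.f : ℚ) / p.q)) *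
          emW (bs (w : ℚ) (-((p.f : ℚ) / p.q)))) := by ring
    _ = 1 := by
      rw [h1, h1, h2, h2]
      ring

theorem elim (p : Par) (hq : 1 ≤ p.q) (hn : 1 ≤ p.n) (hB : 1 ≤ p.B) (A : ℕ → ℕ → ℤ) {z t : ℤ}
    (hz : 2 ≤ z) (ht : t ≠ 0) {T : ℕ}
    (hv : ∀ l₁ l₂, l₁ + p.n * l₂ < T + 1 → vv p A z (z ^ p.n) t l₁ l₂ = 0) :
    ∀ a b, a + p.n * b < T → mom z (z ^ p.n) (NN p A) a b = 0 := by
  obtain ⟨w, hw⟩ : ∃ w, w = z ^ p.n := ⟨_, rfl⟩
  rw [← hw] at hv ⊢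
  have hw1 : w ≠ 1 := by
    have h1 : 1 < z ^ p.n := one_lt_pow₀ (by omega) (by omega)
    rw [hw]
    exact h1.ne'
  refine mom_of_Wt (by omega) hw1 ?_
  have hq0 : (p.q : ℚ) ≠ 0 := by
    have : (p.q : ℕ) ≠ 0 := by omega
    exact_mod_cast this
  -- the weights of the form
  have hG : Wt p.n (T + 1) (elim_G p A z w t) := by
    intro l₁ l₂ hl
    have h1 := elim_G_co hq A z w t l₁ l₂
    rw [hv l₁ l₂ hl, Int.cast_zero] at h1
    have h2 : (p.q : ℚ) ^ (2 * l₁) * (p.q : ℚ) ^ (2 * l₂) ≠ 0 :=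
      mul_ne_zero (pow_ne_zero _ hq0) (pow_ne_zero _ hq0)
    rw [← elim_co_apply]
    exact (mul_eq_zero.1 h1.symm).resolve_left h2
  obtain ⟨G', hG'⟩ : ∃ G', G' = elim_U p z w * elim_G p A z w t := ⟨_, rfl⟩
  have hW1 : Wt p.n (T + 1) G' := by
    rw [hG']
    exact Wt_mul hG _
  have hW2 : Wt p.n T G' := Wt_mono (Nat.le_succ T) hW1
  have hW3 : Wt p.n T (PowerSeries.derivative (PowerSeries ℚ) G') := Wt_deriv hW1
  rw [elim_G' hB A hw] at hG'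
  -- the derivative
  have ha := phi_deriv z w (AP p A)
  have hb := phi_deriv z w (BP p A)
  have hT := elim_Th_deriv p z w
  have ht' : PowerSeries.derivative (PowerSeries ℚ) (elim_cc (t : ℚ)) = 0 := by
    rw [← elim_cc_emW, deriv_emW]
  have hDG : PowerSeries.derivative (PowerSeries ℚ) G' = elim_cc (t : ℚ) *
      (phi z w (AP p A) * PowerSeries.derivative (PowerSeries ℚ) (elim_Th p z w) +
        elim_Th p z w * PowerSeries.derivative (PowerSeries ℚ) (phi z w (AP p A))) +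
      PowerSeries.derivative (PowerSeries ℚ) (phi z w (BP p A)) := by
    rw [hG', map_add, elim_leib, elim_leib, ht']
    ring
  have hX1 : phi z w (X - 1) = emZ (wS z) - 1 := by
    rw [map_sub, elim_phiX, map_one]
  have hNN : phi z w (NN p A) = elim_cc (p.q : ℚ) * (emZ (wS z) * (emZ (wS z) - 1)) *
      (phi z w (BP p A) * phi z w (derivative (AP p A)) -
        phi z w (AP p A) * phi z w (derivative (BP p A))) +
      phi z w (AP p A) * phi z w (BP p A) *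
        (elim_cc (p.q : ℚ) * elim_cc (p.J : ℚ) * (emZ (wS z) - 1) - elim_cc (p.h : ℚ)) := by
    have h1 : elim_cc ((((p.q : ℤ) * (p.J : ℤ) : ℤ)) : ℚ) =
        elim_cc (p.q : ℚ) * elim_cc (p.J : ℚ) := by
      rw [← map_mul]
      congr 1
      push_cast
      ring
    have h2 : ∀ m : ℕ, elim_cc (((m : ℤ)) : ℚ) = elim_cc (m : ℚ) := by
      intro m
      congr 1
    have h3 : phi z w (C (C ((p.q : ℤ) * (p.J : ℤ)))) = elim_cc (p.q : ℚ) * elim_cc (p.J : ℚ) := by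
      rw [elim_phiC, h1]
    have h4 : phi z w (C (C (p.q : ℤ))) = elim_cc (p.q : ℚ) := by
      rw [elim_phiC, h2]
    have h5 : phi z w (C (C (p.h : ℤ))) = elim_cc (p.h : ℚ) := by
      rw [elim_phiC, h2]
    obtain ⟨Xm, hXm⟩ : ∃ Xm : ℤ[X][X], Xm = X - 1 := ⟨_, rfl⟩
    rw [← hXm] at hX1
    rw [NN, ← hXm]
    simp only [map_add, map_mul, map_sub] at h3 ⊢
    rw [h3, h4, h5, hX1, elim_phiX]
  have hcq : elim_cc (p.q : ℚ) * elim_cc (p.h / p.q : ℚ) = elim_cc (p.h : ℚ) := by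
    rw [← map_mul]
    congr 1
    field_simp
  have hcq2 : elim_cc (p.q : ℚ) * elim_cc (p.J + p.h / p.q : ℚ) =
      elim_cc (p.q : ℚ) * elim_cc (p.J : ℚ) + elim_cc (p.h : ℚ) := by
    rw [map_add, mul_add, hcq]
  obtain ⟨zz, hzz⟩ : ∃ zz : ℚ, zz = -((z : ℚ) * ((z : ℚ) - 1)) := ⟨_, rfl⟩
  rw [elim_cc_emZ, ← hzz] at ha hb
  rw [← hzz] at hT
  have hmain : elim_cc (p.q : ℚ) * (emZ (wS z) * (emZ (wS z) - 1)) *
      (phi z w (BP p A) * PowerSeries.derivative (PowerSeries ℚ) G' +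
        -(PowerSeries.derivative (PowerSeries ℚ) (phi z w (BP p A)) * G')) =
      elim_cc zz * elim_cc (t : ℚ) * (elim_Th p z w * phi z w (NN p A)) := by
    rw [hDG, hNN, ha, hb, hG']
    obtain ⟨DT, hDT⟩ : ∃ DT, DT = PowerSeries.derivative (PowerSeries ℚ) (elim_Th p z w) :=
      ⟨_, rfl⟩
    rw [← hDT] at hT ⊢
    linear_combination (elim_cc (p.q : ℚ) * elim_cc (t : ℚ) * phi z w (AP p A) *
      phi z w (BP p A)) * hT + (elim_cc zz * elim_cc (t : ℚ) * phi z w (AP p A) *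
      phi z w (BP p A) * elim_Th p z w * (emZ (wS z) - 1)) * hcq2 -
      (elim_cc zz * elim_cc (t : ℚ) * phi z w (AP p A) *
      phi z w (BP p A) * elim_Th p z w * emZ (wS z)) * hcq
  have hW : Wt p.n T (elim_cc zz * elim_cc (t : ℚ) * (elim_Th p z w * phi z w (NN p A))) := by
    rw [← hmain]
    exact Wt_mul (Wt_add (Wt_mul hW3 _) (Wt_neg (Wt_mul hW2 _))) _
  obtain ⟨V, hV⟩ := elim_Th_inv p z w
  have hz0 : zz ≠ 0 := by
    rw [hzz]
    have h1 : (2 : ℚ) ≤ (z : ℚ) := by exact_mod_cast hz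
    have h2 : 0 < (z : ℚ) * ((z : ℚ) - 1) := mul_pos (by linarith) (by linarith)
    linarith
  have ht0 : (t : ℚ) ≠ 0 := by exact_mod_cast ht
  have hcz : elim_cc zz⁻¹ * elim_cc zz = 1 := by
    rw [← map_mul, inv_mul_cancel₀ hz0, map_one]
  have hct : elim_cc (t : ℚ)⁻¹ * elim_cc (t : ℚ) = 1 := by
    rw [← map_mul, inv_mul_cancel₀ ht0, map_one]
  have hfin : phi z w (NN p A) = (elim_cc zz⁻¹ * elim_cc (t : ℚ)⁻¹ * V) *
      (elim_cc zz * elim_cc (t : ℚ) * (elim_Th p z w * phi z w (NN p A))) := by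
    calc phi z w (NN p A) = 1 * 1 * 1 * phi z w (NN p A) := by ring
      _ = (elim_cc zz⁻¹ * elim_cc zz) * (elim_cc (t : ℚ)⁻¹ * elim_cc (t : ℚ)) *
          (V * elim_Th p z w) * phi z w (NN p A) := by rw [hcz, hct, hV]
      _ = _ := by ring
  rw [hfin]
  exact Wt_mul hW _

end Pool.Agent.NLF
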