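import Pool.Agent.NLF.HSum

/-!
# NLF-Err: the error made by replacing `t` by `T`

`T ^ q = z ^ (qJ) (1-1/z) ^ (-h) (1-1/w) ^ f`, and `t ^ q (z-1)^h = (z^n2 - 1)^e (w-1)^f` with
`q J + h = e n2 + f n` gives `t ^ q = T ^ q (1 - 1/z^n2)^e`; so `T (1 - 1/z^n2) ≤ t ≤ T ≤ 2 z ^ J` as `e ≤ q`.
-/

namespace Pool.Agent.NLF

open Finset Polynomial
open Pool.Agent.NLG (KZ kap)
open Pool.Agent.NLC (mom nrm)

private theorem err_kap {ρ : ℚ} {M : ℕ} (h : |ρ| ≤ M) (k : ℕ) :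
    |kap ρ k| ≤ ((M + k).choose k : ℚ) := by
  induction k with
  | zero =>
    rw [Pool.Agent.NLG.kap_zero, abs_one, Nat.choose_zero_right, Nat.cast_one]
  | succ k ih =>
    have hk := Pool.Agent.NLG.kap_succ ρ k
    have hk0 : (0 : ℚ) < (k : ℚ) + 1 := by positivity
    have h3 : ((k : ℚ) + 1) * |kap ρ (k + 1)| = |(k : ℚ) - ρ| * |kap ρ k| := by
      rw [← abs_mul, ← hk, abs_mul, abs_of_pos hk0]
    have h4 : |(k : ℚ) - ρ| ≤ (M : ℚ) + k + 1 := by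
      have := abs_le.1 h
      rw [abs_le]
      have hk1 : (0 : ℚ) ≤ k := by positivity
      have hM1 : (0 : ℚ) ≤ M := by positivity
      constructor <;> linarith [this.1, this.2]
    have h5 : ((M : ℚ) + k + 1) * ((M + k).choose k : ℚ) =
        ((M + (k + 1)).choose (k + 1) : ℚ) * ((k : ℚ) + 1) := by
      have := Nat.add_one_mul_choose_eq (M + k) k
      exact_mod_cast this
    have h6 : ((k : ℚ) + 1) * |kap ρ (k + 1)| ≤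
        ((k : ℚ) + 1) * ((M + (k + 1)).choose (k + 1) : ℚ) := by
      rw [h3, mul_comm ((k : ℚ) + 1), ← h5]
      exact mul_le_mul h4 ih (abs_nonneg _) (by positivity)
    exact le_of_mul_le_mul_left h6 hk0

private theorem err_KZ {q : ℕ} (hq : 1 ≤ q) {j : ℤ} {M : ℕ} (hj : |j| ≤ q * M) (k : ℕ) :
    |(KZ q j k : ℝ)| ≤ (q : ℝ) ^ (2 * k) * 2 ^ (M + k) := by
  have hq0 : (0 : ℚ) < (q : ℚ) := by
    have : 0 < q := by omega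
    exact_mod_cast this
  have h1 : |((j : ℚ) / q)| ≤ M := by
    rw [abs_div, abs_of_pos hq0, div_le_iff₀ hq0]
    have : ((|j| : ℤ) : ℚ) ≤ ((q * M : ℤ) : ℚ) := by exact_mod_cast hj
    push_cast at this
    linarith
  have h2 : |(KZ q j k : ℚ)| ≤ (q : ℚ) ^ (2 * k) * 2 ^ (M + k) := by
    rw [Pool.Agent.NLG.KZ_cast hq, abs_mul,
      abs_of_nonneg (by positivity : (0 : ℚ) ≤ (q : ℚ) ^ (2 * k))]
    refine mul_le_mul_of_nonneg_left ((err_kap h1 k).trans ?_) (by positivity)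
    exact_mod_cast Nat.choose_le_two_pow (M + k) k
  exact_mod_cast h2

private theorem err_KZ1 {q : ℕ} (hq : 1 ≤ q) {j : ℤ} (hj : |j| ≤ q) (k : ℕ) :
    |(KZ q j k : ℝ)| ≤ (q : ℝ) ^ (2 * k) := by
  have h := Pool.Agent.NLG.abs_KZ_le hq hj k
  exact_mod_cast h

/-- the common form of `E1` and `E2` -/
private theorem err_E {q : ℕ} (hq : 1 ≤ q) {z : ℝ} (hz : 1 ≤ z) {j j' : ℤ} {M : ℕ}
    (hj : |j| ≤ q * M) (hj' : |j'| ≤ q) (l : ℕ) :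
    |∑ k ∈ range (l + 1), (KZ q j k : ℝ) * (z - 1) ^ k * ((KZ q j' (l - k) : ℝ) * z ^ (l - k))| ≤
      (q : ℝ) ^ (2 * l) * z ^ l * 2 ^ (M + l + 1) := by
  refine (abs_sum_le_sum_abs _ _).trans ?_
  have hz0 : 0 ≤ z := by linarith
  have h1 : ∀ k ∈ range (l + 1),
      |(KZ q j k : ℝ) * (z - 1) ^ k * ((KZ q j' (l - k) : ℝ) * z ^ (l - k))| ≤
      (q : ℝ) ^ (2 * l) * z ^ l * (2 ^ M * 2 ^ k) := by
    intro k hk
    have hkl : k ≤ l := Nat.lt_succ_iff.1 (mem_range.1 hk)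
    rw [abs_mul, abs_mul, abs_mul, abs_pow, abs_pow, abs_of_nonneg hz0,
      abs_of_nonneg (by linarith : 0 ≤ z - 1)]
    have e1 := err_KZ hq hj k
    have e2 := err_KZ1 hq hj' (l - k)
    have e3 : (z - 1) ^ k ≤ z ^ k := pow_le_pow_left₀ (by linarith) (by linarith) k
    have e4 : (0 : ℝ) ≤ (z - 1) ^ k := pow_nonneg (by linarith) k
    calc |(KZ q j k : ℝ)| * (z - 1) ^ k * (|(KZ q j' (l - k) : ℝ)| * z ^ (l - k))
        ≤ ((q : ℝ) ^ (2 * k) * 2 ^ (M + k)) * z ^ k * ((q : ℝ) ^ (2 * (l - k)) * z ^ (l - k)) := by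
          refine mul_le_mul (mul_le_mul e1 e3 e4 (by positivity))
            (mul_le_mul_of_nonneg_right e2 (by positivity)) (by positivity) (by positivity)
      _ = (q : ℝ) ^ (2 * l) * z ^ l * (2 ^ M * 2 ^ k) := by
          have f1 : (q : ℝ) ^ (2 * l) = (q : ℝ) ^ (2 * k) * (q : ℝ) ^ (2 * (l - k)) := by
            rw [← pow_add, ← mul_add, Nat.add_sub_cancel' hkl]
          have f2 : z ^ l = z ^ k * z ^ (l - k) := by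
            rw [← pow_add, Nat.add_sub_cancel' hkl]
          rw [f1, f2, pow_add]
          ring
  refine (sum_le_sum h1).trans ?_
  rw [← mul_sum, ← mul_sum]
  refine mul_le_mul_of_nonneg_left ?_ (by positivity)
  have h2 : ∑ k ∈ range (l + 1), (2 : ℝ) ^ k = 2 ^ (l + 1) - 1 := by
    have := geom_sum_eq (by norm_num : (2 : ℝ) ≠ 1) (l + 1)
    rw [this]
    norm_num
  have h3 : (2 : ℝ) ^ (M + l + 1) = 2 ^ M * 2 ^ (l + 1) := by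
    rw [← pow_add, add_assoc]
  rw [h2, h3]
  exact mul_le_mul_of_nonneg_left (by linarith) (by positivity)

private theorem err_E1 (p : Par) (h1 : 1 ≤ p.h) (hh : p.h ≤ p.q) {z : ℕ} (hz : 1 ≤ z)
    {m β : ℕ} (hm : m < p.P) (hβ : β < p.B) (l : ℕ) :
    |(E1 p z m β l : ℝ)| ≤ (p.q : ℝ) ^ (2 * l) * (z : ℝ) ^ l *
      2 ^ (p.P + p.J + p.n * p.B + l + 1) := by
  have hq : 1 ≤ p.q := h1.trans hh
  unfold E1
  have hj : |((p.q : ℤ) * ((m : ℤ) - p.n * β + p.J) + p.h)| ≤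
      (p.q : ℤ) * ((p.P + p.J + p.n * p.B : ℕ) : ℤ) := by
    push_cast
    have hq' : (1 : ℤ) ≤ p.q := by exact_mod_cast hq
    have hh' : (p.h : ℤ) ≤ p.q := by exact_mod_cast hh
    have hh0 : (0 : ℤ) ≤ p.h := by positivity
    have hm' : (m : ℤ) + 1 ≤ p.P := by exact_mod_cast hm
    have hm0 : (0 : ℤ) ≤ m := by positivity
    have hJ0 : (0 : ℤ) ≤ p.J := by positivity
    have hnβ : (0 : ℤ) ≤ p.n * β := by positivity
    have hnB : (p.n : ℤ) * β ≤ p.n * p.B := by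
      have : (β : ℤ) ≤ p.B := by exact_mod_cast hβ.le
      exact mul_le_mul_of_nonneg_left this (by positivity)
    rw [abs_le]
    constructor
    · nlinarith
    · nlinarith
  have h2 := err_E hq (z := (z : ℝ)) (by exact_mod_cast hz) hj
    (j' := -(p.h : ℤ)) (by rw [abs_neg, Nat.abs_cast]; exact_mod_cast hh) l
  push_cast at h2 ⊢
  exact h2

private theorem err_E2 (p : Par) (h1 : 1 ≤ p.h) (hh : p.h ≤ p.q) (hf : p.f ≤ p.q) {w : ℤ} (hw : 1 ≤ w)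
    {β : ℕ} (hβ : β < p.B) (l : ℕ) :
    |(E2 p w β l : ℝ)| ≤ (p.q : ℝ) ^ (2 * l) * (w : ℝ) ^ l * 2 ^ (p.B + l + 1) := by
  have hq : 1 ≤ p.q := h1.trans hh
  unfold E2
  have hh' : (p.f : ℤ) ≤ p.q := by exact_mod_cast hf
  have hh0 : (0 : ℤ) ≤ p.f := Nat.cast_nonneg _
  have hj : |((p.q : ℤ) * β - p.f)| ≤ (p.q : ℤ) * ((p.B : ℕ) : ℤ) := by
    have hq' : (1 : ℤ) ≤ p.q := by exact_mod_cast hq
    have hβ' : (β : ℤ) + 1 ≤ p.B := by exact_mod_cast hβ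
    have hβ0 : (0 : ℤ) ≤ β := by positivity
    rw [abs_le]
    constructor
    · nlinarith
    · nlinarith
  have h2 := err_E hq (z := (w : ℝ)) (by exact_mod_cast hw) hj
    (j' := (p.f : ℤ)) (by
      rw [abs_le]
      constructor <;> linarith) l
  push_cast at h2 ⊢
  exact h2

private theorem err_vA (p : Par) (h1 : 1 ≤ p.h) (hh : p.h ≤ p.q) (hf : p.f ≤ p.q) (A : ℕ → ℕ → ℤ) {H : ℝ}
    (hH : 0 ≤ H) (hA : ∀ i β, |(A i β : ℝ)| ≤ H) {z : ℕ} (hz : 1 ≤ z) (l₁ l₂ : ℕ) :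
    |(vA p A z ((z : ℤ) ^ p.n) l₁ l₂ : ℝ)| ≤ p.P * (p.B * (H * (p.q : ℝ) ^ (2 * p.Q) *
      (z : ℝ) ^ p.P * ((p.q : ℝ) ^ (2 * l₁) * (z : ℝ) ^ l₁ *
      2 ^ (p.P + p.J + p.n * p.B + l₁ + 1)) * ((p.q : ℝ) ^ (2 * l₂) * ((z : ℝ) ^ p.n) ^ l₂ *
      2 ^ (p.B + l₂ + 1)))) := by
  unfold vA
  rw [Int.cast_sum]
  refine (abs_sum_le_sum_abs _ _).trans ?_
  have hz' : (1 : ℝ) ≤ z := by exact_mod_cast hz
  have hw : (1 : ℤ) ≤ (z : ℤ) ^ p.n := one_le_pow₀ (by exact_mod_cast hz)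
  refine (sum_le_card_nsmul _ _ _ (fun i hi => ?_)).trans (le_of_eq (by
    rw [card_range, nsmul_eq_mul]))
  rw [Int.cast_sum]
  refine (abs_sum_le_sum_abs _ _).trans ?_
  refine (sum_le_card_nsmul _ _ _ (fun β hβ => ?_)).trans (le_of_eq (by
    rw [card_range, nsmul_eq_mul]))
  have hi' : i < p.P := mem_range.1 hi
  have hβ' : β < p.B := mem_range.1 hβ
  have e1 := err_E1 p h1 hh hz (m := p.P - 1 - i) (by omega) hβ' l₁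
  have e2 := err_E2 p h1 hh hf hw hβ' l₂
  rw [Int.cast_pow, Int.cast_natCast] at e2
  rw [Int.cast_mul, Int.cast_mul, Int.cast_mul, Int.cast_mul, Int.cast_pow, Int.cast_pow,
    Int.cast_natCast, Int.cast_natCast, abs_mul, abs_mul, abs_mul, abs_mul, abs_pow, abs_pow,
    Nat.abs_cast, Nat.abs_cast]
  have e3 : (z : ℝ) ^ (p.P - 1 - i) ≤ (z : ℝ) ^ p.P := pow_le_pow_right₀ hz' (by omega)
  refine mul_le_mul (mul_le_mul (mul_le_mul (mul_le_mul_of_nonneg_right (hA i β) (by positivity))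
    e3 (by positivity) (by positivity)) e1 (abs_nonneg _) (by positivity)) e2 (abs_nonneg _)
    (by positivity)

/-- comparison of `t` and `T` -/
private theorem err_T (p : Par) (h1 : 1 ≤ p.h) (hh : p.h ≤ p.q) (he : p.e ≤ p.q) (hn : 1 ≤ p.n)
    {z t n2 : ℕ} (hz : 2 ≤ z) (hJ : p.q * p.J + p.h = p.e * n2 + p.f * p.n)
    (ht : (t : ℤ) ^ p.q * ((z : ℤ) - 1) ^ p.h =
      ((z : ℤ) ^ n2 - 1) ^ p.e * ((z : ℤ) ^ p.n - 1) ^ p.f) :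
    |(t : ℝ) - TT p z ((z : ℝ) ^ p.n)| ≤ 2 * ((z : ℝ) ^ p.J / (z : ℝ) ^ n2) := by
  have hq : 1 ≤ p.q := h1.trans hh
  have hq0 : p.q ≠ 0 := by omega
  have hqR : (0 : ℝ) < p.q := by exact_mod_cast (by omega : 0 < p.q)
  have hzR : (2 : ℝ) ≤ z := by exact_mod_cast hz
  have hz0 : (0 : ℝ) < z := by linarith
  have hwR : (2 : ℝ) ≤ (z : ℝ) ^ p.n := by
    calc (2 : ℝ) ≤ z := hzR
      _ = (z : ℝ) ^ 1 := (pow_one _).symm
      _ ≤ (z : ℝ) ^ p.n := pow_le_pow_right₀ (by linarith) hn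
  have hw0 : (0 : ℝ) < (z : ℝ) ^ p.n := by positivity
  -- `x = 1 - 1 / z`, `y = 1 - 1 / w`
  obtain ⟨x, hx⟩ : ∃ x : ℝ, x = 1 - 1 / (z : ℝ) := ⟨_, rfl⟩
  obtain ⟨y, hy⟩ : ∃ y : ℝ, y = 1 - 1 / (z : ℝ) ^ p.n := ⟨_, rfl⟩
  have hzi : 1 / (z : ℝ) ≤ 1 / 2 := one_div_le_one_div_of_le (by norm_num) hzR
  have hwi : 1 / (z : ℝ) ^ p.n ≤ 1 / 2 := one_div_le_one_div_of_le (by norm_num) hwR
  have hx2 : 1 / 2 ≤ x := by rw [hx]; linarith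
  have hx1 : x ≤ 1 := by
    rw [hx]
    have : 0 ≤ 1 / (z : ℝ) := by positivity
    linarith
  have hx0 : 0 < x := by linarith
  have hy2 : 1 / 2 ≤ y := by rw [hy]; linarith
  have hy1 : y ≤ 1 := by
    rw [hy]
    have : 0 ≤ 1 / (z : ℝ) ^ p.n := by positivity
    linarith
  have hy0 : 0 < y := by linarith
  have hTdef : TT p z ((z : ℝ) ^ p.n) =
      (z : ℝ) ^ p.J * x ^ (-(p.h : ℝ) / p.q) * y ^ ((p.f : ℝ) / p.q) := by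
    unfold TT
    rw [hx, hy]
  have hh1 : (1 : ℝ) ≤ p.h := by exact_mod_cast h1
  have hhq : (p.h : ℝ) ≤ p.q := by exact_mod_cast hh
  -- upper bound for `T`
  have hTx : x ^ (-(p.h : ℝ) / p.q) ≤ 2 := by
    have e1 : x ^ (-(p.h : ℝ) / p.q) ≤ x ^ (-1 : ℝ) := by
      apply Real.rpow_le_rpow_of_exponent_ge hx0 hx1
      rw [le_div_iff₀ hqR]
      linarith
    have e2 : x ^ (-1 : ℝ) ≤ 2 := by
      rw [Real.rpow_neg_one]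
      have := inv_anti₀ (by norm_num : (0 : ℝ) < 1 / 2) hx2
      norm_num at this
      exact this
    exact e1.trans e2
  have hTy : y ^ ((p.f : ℝ) / p.q) ≤ 1 :=
    Real.rpow_le_one hy0.le hy1 (div_nonneg (Nat.cast_nonneg _) hqR.le)
  have hx3 : 0 < x ^ (-(p.h : ℝ) / p.q) := Real.rpow_pos_of_pos hx0 _
  have hy3 : 0 < y ^ ((p.f : ℝ) / p.q) := Real.rpow_pos_of_pos hy0 _
  have hzJ : 0 < (z : ℝ) ^ p.J := by positivity
  obtain ⟨T, hT⟩ : ∃ T : ℝ, T = TT p z ((z : ℝ) ^ p.n) := ⟨_, rfl⟩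
  rw [← hT]
  have hT0 : 0 < T := by
    rw [hT, hTdef]
    positivity
  have hT2 : T ≤ 2 * (z : ℝ) ^ p.J := by
    rw [hT, hTdef]
    calc (z : ℝ) ^ p.J * x ^ (-(p.h : ℝ) / p.q) * y ^ ((p.f : ℝ) / p.q)
        ≤ (z : ℝ) ^ p.J * 2 * 1 :=
          mul_le_mul (mul_le_mul_of_nonneg_left hTx hzJ.le) hTy hy3.le (by positivity)
      _ = 2 * (z : ℝ) ^ p.J := by ring
  -- `T ^ q`
  have hTq : T ^ p.q * x ^ p.h = (z : ℝ) ^ (p.q * p.J) * y ^ p.f := by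
    have e1 : (x ^ (-(p.h : ℝ) / p.q)) ^ p.q * x ^ p.h = 1 := by
      rw [← Real.rpow_natCast (x ^ (-(p.h : ℝ) / p.q)) p.q, ← Real.rpow_mul hx0.le,
        div_mul_cancel₀ _ hqR.ne', Real.rpow_neg hx0.le, Real.rpow_natCast,
        inv_mul_cancel₀ (pow_ne_zero _ hx0.ne')]
    have e2 : (y ^ ((p.f : ℝ) / p.q)) ^ p.q = y ^ p.f := by
      rw [← Real.rpow_natCast (y ^ ((p.f : ℝ) / p.q)) p.q, ← Real.rpow_mul hy0.le,
        div_mul_cancel₀ _ hqR.ne', Real.rpow_natCast]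
    rw [hT, hTdef, mul_pow, mul_pow, e2, ← pow_mul, mul_comm p.J p.q]
    calc (z : ℝ) ^ (p.q * p.J) * (x ^ (-(p.h : ℝ) / p.q)) ^ p.q * y ^ p.f * x ^ p.h
        = (z : ℝ) ^ (p.q * p.J) * y ^ p.f *
          ((x ^ (-(p.h : ℝ) / p.q)) ^ p.q * x ^ p.h) := by ring
      _ = _ := by rw [e1, mul_one]
  -- `t ^ q`
  have hδ0 : 0 ≤ 1 / (z : ℝ) ^ n2 := by positivity
  have hδ1 : 1 / (z : ℝ) ^ n2 ≤ 1 := by
    rw [div_le_one (by positivity)]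
    exact one_le_pow₀ (by linarith)
  have htq : (t : ℝ) ^ p.q = T ^ p.q * (1 - 1 / (z : ℝ) ^ n2) ^ p.e := by
    have htR : (t : ℝ) ^ p.q * ((z : ℝ) - 1) ^ p.h =
        ((z : ℝ) ^ n2 - 1) ^ p.e * ((z : ℝ) ^ p.n - 1) ^ p.f := by exact_mod_cast ht
    have e1 : (z : ℝ) - 1 = z * x := by
      rw [hx]
      field_simp
    have e2 : (z : ℝ) ^ p.n - 1 = (z : ℝ) ^ p.n * y := by
      rw [hy]
      field_simp
    have e3 : (z : ℝ) ^ n2 - 1 = (z : ℝ) ^ n2 * (1 - 1 / (z : ℝ) ^ n2) := by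
      field_simp
    rw [e1, e2, e3, mul_pow, mul_pow, mul_pow] at htR
    have e4 : (z : ℝ) ^ p.h * x ^ p.h ≠ 0 :=
      mul_ne_zero (pow_ne_zero _ hz0.ne') (pow_ne_zero _ hx0.ne')
    apply mul_right_cancel₀ e4
    rw [htR]
    have e5 : (z : ℝ) ^ (p.q * p.J) * (z : ℝ) ^ p.h =
        ((z : ℝ) ^ n2) ^ p.e * ((z : ℝ) ^ p.n) ^ p.f := by
      rw [← pow_add, hJ, pow_add, ← pow_mul, ← pow_mul, mul_comm p.n, mul_comm n2]
    obtain ⟨W, hW⟩ : ∃ W : ℝ, W = (1 - 1 / (z : ℝ) ^ n2) ^ p.e := ⟨_, rfl⟩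
    rw [← hW]
    calc ((z : ℝ) ^ n2) ^ p.e * W * (((z : ℝ) ^ p.n) ^ p.f * y ^ p.f)
        = (((z : ℝ) ^ n2) ^ p.e * ((z : ℝ) ^ p.n) ^ p.f) * y ^ p.f * W := by ring
      _ = (z : ℝ) ^ p.h * ((z : ℝ) ^ (p.q * p.J) * y ^ p.f) * W := by rw [← e5]; ring
      _ = (z : ℝ) ^ p.h * (T ^ p.q * x ^ p.h) * W := by rw [hTq]
      _ = _ := by ring
  have ht0 : (0 : ℝ) ≤ t := by positivity
  have hTq0 : 0 < T ^ p.q := by positivity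
  have hδ2 : 0 ≤ 1 - 1 / (z : ℝ) ^ n2 := by linarith
  have hle : (t : ℝ) ≤ T := by
    rw [← pow_le_pow_iff_left₀ ht0 hT0.le hq0, htq]
    exact mul_le_of_le_one_right hTq0.le (pow_le_one₀ hδ2 (by linarith))
  have hge : T * (1 - 1 / (z : ℝ) ^ n2) ≤ t := by
    rw [← pow_le_pow_iff_left₀ (mul_nonneg hT0.le hδ2) ht0 hq0, htq, mul_pow]
    refine mul_le_mul_of_nonneg_left ?_ hTq0.le
    exact pow_le_pow_of_le_one hδ2 (by linarith) he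
  rw [abs_sub_comm, abs_of_nonneg (by linarith)]
  calc T - t ≤ T * (1 / (z : ℝ) ^ n2) := by linarith
    _ ≤ 2 * (z : ℝ) ^ p.J * (1 / (z : ℝ) ^ n2) := mul_le_mul_of_nonneg_right hT2 hδ0
    _ = 2 * ((z : ℝ) ^ p.J / (z : ℝ) ^ n2) := by ring

theorem err (p : Par) (h1 : 1 ≤ p.h) (hh : p.h ≤ p.q) (he : p.e ≤ p.q) (hf : p.f ≤ p.q)
    (hn : 1 ≤ p.n) (A : ℕ → ℕ → ℤ) {H : ℝ}
    (hH : 0 ≤ H) (hA : ∀ i β, |(A i β : ℝ)| ≤ H) {z t n2 : ℕ} (hz : 2 ≤ z)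
    (hJ : p.q * p.J + p.h = p.e * n2 + p.f * p.n)
    (ht : (t : ℤ) ^ p.q * ((z : ℤ) - 1) ^ p.h =
      ((z : ℤ) ^ n2 - 1) ^ p.e * ((z : ℤ) ^ p.n - 1) ^ p.f)
    (l₁ l₂ : ℕ) :
    |((t : ℝ) - TT p z ((z : ℝ) ^ p.n)) * (vA p A z ((z : ℤ) ^ p.n) l₁ l₂ : ℝ)| ≤
      (p.q : ℝ) ^ (2 * (l₁ + l₂)) * (z : ℝ) ^ (l₁ + p.n * l₂) *
        (p.P * p.B * (H * (p.q : ℝ) ^ (2 * p.Q)) *
          ((z : ℝ) ^ p.P * 2 ^ (p.P + p.J + (p.n + 1) * p.B + 2 * l₁ + 2 * l₂ + 3) *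
            ((z : ℝ) ^ p.J / (z : ℝ) ^ n2))) := by
  have hz1 : 1 ≤ z := by omega
  have hzR : (1 : ℝ) ≤ z := by exact_mod_cast hz1
  have e1 := err_T p h1 hh he hn hz hJ ht
  have e2 := err_vA p h1 hh hf A hH hA hz1 l₁ l₂
  rw [abs_mul]
  refine (mul_le_mul e1 e2 (abs_nonneg _) (by positivity)).trans ?_
  have e3 : (2 : ℝ) * (2 ^ (p.P + p.J + p.n * p.B + l₁ + 1) * 2 ^ (p.B + l₂ + 1)) ≤
      2 ^ (p.P + p.J + (p.n + 1) * p.B + 2 * l₁ + 2 * l₂ + 3) := by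
    rw [← pow_add, ← pow_succ']
    refine pow_le_pow_right₀ (by norm_num) ?_
    have : (p.n + 1) * p.B = p.n * p.B + p.B := by ring
    omega
  have e4 : (z : ℝ) ^ (l₁ + p.n * l₂) = (z : ℝ) ^ l₁ * ((z : ℝ) ^ p.n) ^ l₂ := by
    rw [pow_add, pow_mul]
  have e5 : (p.q : ℝ) ^ (2 * (l₁ + l₂)) = (p.q : ℝ) ^ (2 * l₁) * (p.q : ℝ) ^ (2 * l₂) := by
    rw [mul_add, pow_add]
  rw [e4, e5]
  calc 2 * ((z : ℝ) ^ p.J / (z : ℝ) ^ n2) * (p.P * (p.B * (H * (p.q : ℝ) ^ (2 * p.Q) *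
      (z : ℝ) ^ p.P * ((p.q : ℝ) ^ (2 * l₁) * (z : ℝ) ^ l₁ *
      2 ^ (p.P + p.J + p.n * p.B + l₁ + 1)) * ((p.q : ℝ) ^ (2 * l₂) * ((z : ℝ) ^ p.n) ^ l₂ *
      2 ^ (p.B + l₂ + 1)))))
      = ((p.q : ℝ) ^ (2 * l₁) * (p.q : ℝ) ^ (2 * l₂) * ((z : ℝ) ^ l₁ * ((z : ℝ) ^ p.n) ^ l₂) *
        (p.P * p.B * (H * (p.q : ℝ) ^ (2 * p.Q))) * ((z : ℝ) ^ p.P *
        ((z : ℝ) ^ p.J / (z : ℝ) ^ n2))) *
        (2 * (2 ^ (p.P + p.J + p.n * p.B + l₁ + 1) * 2 ^ (p.B + l₂ + 1))) := by ring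
    _ ≤ ((p.q : ℝ) ^ (2 * l₁) * (p.q : ℝ) ^ (2 * l₂) * ((z : ℝ) ^ l₁ * ((z : ℝ) ^ p.n) ^ l₂) *
        (p.P * p.B * (H * (p.q : ℝ) ^ (2 * p.Q))) * ((z : ℝ) ^ p.P *
        ((z : ℝ) ^ p.J / (z : ℝ) ^ n2))) *
        2 ^ (p.P + p.J + (p.n + 1) * p.B + 2 * l₁ + 2 * l₂ + 3) :=
        mul_le_mul_of_nonneg_left e3 (by positivity)
    _ = _ := by ring

end Pool.Agent.NLF
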