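import Pool.Agent.NLC.Roth

/-!
# NLF-RothE: Roth's lemma at an integer point, with binomial operators

`NLC.roth` has the factor `(D1 D2) ^ (K ^ 2)` because it uses the operators `θ_z ^ a θ_w ^ b`.  Here they are
replaced by the binomial operators `bb a b` (coefficient of `z ^ i w ^ j` times `C(i,a) C(j,b)`); the bound
becomes `2 ^ ((D1 + D2) K)`.

PLAN.  `i ^ a = ∑_{c ≤ a} S(a,c) c! C(i,c)` (Stirling numbers, `Nat.stirlingSecond` if it exists; otherwise
prove by induction on `a` that there are integers `s a c`, `s a a = a!`, `s a c = 0` for `c > a`, with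
`(i : ℤ) ^ a = ∑ c ∈ range (a+1), s a c * (i.choose c : ℤ)`: `i C(i,c) = c C(i,c) + (c+1) C(i,c+1)`), so with the
lower triangular matrix `M a c = s a c` the matrix of the `tt a b N` is `M * (bb a b N) * Mᵀ` and
`DD K N = (∏_{a<K} a!)² DB K N` (`Matrix.det_mul`, `Matrix.det_of_lowerTriangular`); compare coefficients with
`coeff_tt` and its analogue for `bb`.  `nrm_DB`: as `NLC.nrm_DD` in RothC.lean (entries `nrm (bb a b N) ≤
2 ^ (D1 + D2) H` since `C(i,a) ≤ 2 ^ i`; copy the private lemmas).  `roth_b`: `NLC.rank_one` and `NLC.mom_DD` for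
`DD K N`; divide by the nonzero constant (`mom z w (C (C c) * M) a b = c * mom z w M a b`); then
`NLC.rank_one_bound` for `M = DB K N`.
-/

namespace Pool.Agent.NLF

open Finset Polynomial
open Pool.Agent.NLC (mom nrm DD tt)

/-- multiplication of the coefficient of `z ^ i w ^ j` by `C(i,a) C(j,b)`. -/
noncomputable def bb (a b : ℕ) (N : ℤ[X][X]) : ℤ[X][X] :=
  N.sum fun i f => monomial i (f.sum fun j c =>
    monomial j (((i.choose a : ℕ) : ℤ) * ((j.choose b : ℕ) : ℤ) * c))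

/-- The determinant of the `bb a b N`, `a, b < K`. -/
noncomputable def DB (K : ℕ) (N : ℤ[X][X]) : ℤ[X][X] :=
  (Matrix.of fun a b : Fin K => bb (a : ℕ) (b : ℕ) N).det

private def rothE_s : ℕ → ℕ → ℤ
  | 0, 0 => 1
  | 0, _ + 1 => 0
  | _ + 1, 0 => 0
  | a + 1, c + 1 => ((c : ℤ) + 1) * (rothE_s a (c + 1) + rothE_s a c)

private theorem rothE_s_zero : ∀ a c : ℕ, a < c → rothE_s a c = 0
  | 0, 0, h => absurd h (lt_irrefl _)
  | 0, _ + 1, _ => rfl
  | _ + 1, 0, h => absurd h (Nat.not_lt_zero _)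
  | a + 1, c + 1, h => by
    have h1 : a < c := Nat.lt_of_succ_lt_succ h
    rw [rothE_s, rothE_s_zero a (c + 1) (by omega), rothE_s_zero a c h1, add_zero, mul_zero]

private theorem rothE_s_self : ∀ a : ℕ, rothE_s a a = (a.factorial : ℤ)
  | 0 => rfl
  | a + 1 => by
    rw [rothE_s, rothE_s_zero a (a + 1) (Nat.lt_succ_self a), rothE_s_self a, zero_add,
      Nat.factorial_succ]
    push_cast
    ring

private theorem rothE_ch (i c : ℕ) : (i : ℤ) * (i.choose c : ℤ) =
    (c : ℤ) * (i.choose c : ℤ) + ((c : ℤ) + 1) * (i.choose (c + 1) : ℤ) := by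
  have h1 : (i + 1) * i.choose c = (i + 1).choose (c + 1) * (c + 1) :=
    Nat.add_one_mul_choose_eq i c
  rw [Nat.choose_succ_succ] at h1
  have h2 : ((i : ℤ) + 1) * (i.choose c : ℤ) =
      ((i.choose c : ℤ) + (i.choose (c + 1) : ℤ)) * ((c : ℤ) + 1) := by
    exact_mod_cast h1
  linarith

private theorem rothE_pow (i : ℕ) : ∀ a K : ℕ, a < K → (i : ℤ) ^ a =
    ∑ c ∈ range K, rothE_s a c * (i.choose c : ℤ)
  | 0, K, h => by
    rw [pow_zero, Finset.sum_eq_single 0]
    · rw [rothE_s, Nat.choose_zero_right, Nat.cast_one, one_mul]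
    · intro c _ hc
      rw [rothE_s_zero 0 c (Nat.pos_of_ne_zero hc), zero_mul]
    · intro h0
      exact absurd (Finset.mem_range.2 h) h0
  | a + 1, 0, h => absurd h (Nat.not_lt_zero _)
  | a + 1, K + 1, h => by
    have h1 : a < K := Nat.lt_of_succ_lt_succ h
    have h2 : ∑ c ∈ range (K + 1), (c : ℤ) * (rothE_s a c * (i.choose c : ℤ)) =
        ∑ c ∈ range K, (c : ℤ) * (rothE_s a c * (i.choose c : ℤ)) := by
      rw [Finset.sum_range_succ, rothE_s_zero a K h1, zero_mul, mul_zero, add_zero]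
    have h3 : ∑ c ∈ range (K + 1), (c : ℤ) * (rothE_s a c * (i.choose c : ℤ)) =
        ∑ c ∈ range K, ((c : ℤ) + 1) * (rothE_s a (c + 1) * (i.choose (c + 1) : ℤ)) := by
      rw [Finset.sum_range_succ', Nat.cast_zero, zero_mul, add_zero]
      refine Finset.sum_congr rfl fun c _ => ?_
      push_cast
      ring
    rw [pow_succ', rothE_pow i a K h1, Finset.mul_sum, Finset.sum_range_succ']
    have h4 : ∀ c ∈ range K, (i : ℤ) * (rothE_s a c * (i.choose c : ℤ)) =
        (c : ℤ) * (rothE_s a c * (i.choose c : ℤ)) +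
          ((c : ℤ) + 1) * (rothE_s a c * (i.choose (c + 1) : ℤ)) := by
      intro c _
      linear_combination (rothE_s a c) * rothE_ch i c
    rw [Finset.sum_congr rfl h4, Finset.sum_add_distrib, ← h2, h3, ← Finset.sum_add_distrib,
      rothE_s, zero_mul, add_zero]
    refine Finset.sum_congr rfl fun c _ => ?_
    rw [rothE_s]
    ring

private theorem rothE_coeff (a b : ℕ) (N : ℤ[X][X]) (i j : ℕ) :
    ((bb a b N).coeff i).coeff j =
      ((i.choose a : ℕ) : ℤ) * ((j.choose b : ℕ) : ℤ) * (N.coeff i).coeff j := by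
  unfold bb
  rw [Polynomial.sum, finsetSum_coeff]
  simp only [coeff_monomial]
  rw [Finset.sum_ite_eq' N.support i
    (fun i => (N.coeff i).sum fun j c => monomial j
      (((i.choose a : ℕ) : ℤ) * ((j.choose b : ℕ) : ℤ) * c))]
  split_ifs with h
  · rw [Polynomial.sum, finsetSum_coeff]
    simp only [coeff_monomial]
    rw [Finset.sum_ite_eq' (N.coeff i).support j
      (fun j => ((i.choose a : ℕ) : ℤ) * ((j.choose b : ℕ) : ℤ) * (N.coeff i).coeff j)]
    split_ifs with h2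
    · rfl
    · rw [notMem_support_iff.1 h2, mul_zero]
  · rw [notMem_support_iff.1 h, coeff_zero, mul_zero]

theorem DD_eq (K : ℕ) (N : ℤ[X][X]) :
    DD K N = C (C ((∏ a ∈ range K, (a.factorial : ℤ)) ^ 2)) * DB K N := by
  let φ : ℤ →+* ℤ[X][X] := (C : ℤ[X] →+* ℤ[X][X]).comp (C : ℤ →+* ℤ[X])
  let T : Matrix (Fin K) (Fin K) ℤ := Matrix.of fun a c : Fin K => rothE_s (a : ℕ) (c : ℕ)
  have hT : T.det = ∏ a ∈ range K, (a.factorial : ℤ) := by
    have h1 : T.BlockTriangular OrderDual.toDual := by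
      intro a c hac
      exact rothE_s_zero _ _ (OrderDual.toDual_lt_toDual.1 hac)
    rw [Matrix.det_of_isLowerTriangular T h1, Finset.prod_range]
    exact Finset.prod_congr rfl fun a _ => rothE_s_self _
  have hmat : (Matrix.of fun a b : Fin K => tt (a : ℕ) (b : ℕ) N) =
      φ.mapMatrix T * (Matrix.of fun a b : Fin K => bb (a : ℕ) (b : ℕ) N) *
        (φ.mapMatrix T).transpose := by
    ext1 a b
    rw [Matrix.mul_apply, Matrix.of_apply]
    ext i j
    rw [Pool.Agent.NLC.coeff_tt, finsetSum_coeff, finsetSum_coeff]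
    have h1 : ∀ b' : Fin K, (((φ.mapMatrix T *
        (Matrix.of fun a b : Fin K => bb (a : ℕ) (b : ℕ) N)) a b' *
        (φ.mapMatrix T).transpose b' b).coeff i).coeff j =
        (i : ℤ) ^ (a : ℕ) * (N.coeff i).coeff j *
          (rothE_s (b : ℕ) (b' : ℕ) * ((j.choose (b' : ℕ) : ℕ) : ℤ)) := by
      intro b'
      have h2 : (φ.mapMatrix T).transpose b' b = C (C (rothE_s (b : ℕ) (b' : ℕ))) := rfl
      rw [h2, coeff_mul_C, coeff_mul_C, Matrix.mul_apply, finsetSum_coeff, finsetSum_coeff]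
      have h3 : ∀ a' : Fin K, ((φ.mapMatrix T a a' *
          (Matrix.of fun a b : Fin K => bb (a : ℕ) (b : ℕ) N) a' b').coeff i).coeff j =
          rothE_s (a : ℕ) (a' : ℕ) * ((i.choose (a' : ℕ) : ℕ) : ℤ) *
            (((j.choose (b' : ℕ) : ℕ) : ℤ) * (N.coeff i).coeff j) := by
        intro a'
        have h4 : φ.mapMatrix T a a' = C (C (rothE_s (a : ℕ) (a' : ℕ))) := rfl
        rw [h4, coeff_C_mul, coeff_C_mul, Matrix.of_apply, rothE_coeff]
        ring
      rw [Finset.sum_congr rfl fun a' _ => h3 a', ← Finset.sum_mul,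
        ← Finset.sum_range (fun c => rothE_s (a : ℕ) c * ((i.choose c : ℕ) : ℤ)),
        ← rothE_pow i (a : ℕ) K a.isLt]
      ring
    rw [Finset.sum_congr rfl fun b' _ => h1 b', ← Finset.mul_sum,
      ← Finset.sum_range (fun c => rothE_s (b : ℕ) c * ((j.choose c : ℕ) : ℤ)),
      ← rothE_pow j (b : ℕ) K b.isLt]
    ring
  unfold DD DB
  rw [hmat, Matrix.det_mul, Matrix.det_mul, Matrix.det_transpose, ← RingHom.map_det, hT]
  have h5 : ∀ c : ℤ, φ c = C (C c) := fun _ => rfl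
  rw [h5, pow_two, C_mul, C_mul]
  ring

private theorem rothE_inner {f : ℤ[X]} {D : ℕ} (h : f.natDegree ≤ D) :
    (f.sum fun _ c => |c|) = ∑ j ∈ range (D + 1), |f.coeff j| :=
  Polynomial.sum_over_range' f (fun _ => abs_zero) (D + 1) (Nat.lt_succ_iff.2 h)

private theorem rothE_nrm {F : ℤ[X][X]} {D1 D2 : ℕ} (h1 : F.natDegree ≤ D1)
    (h2 : ∀ i, (F.coeff i).natDegree ≤ D2) :
    nrm F = ∑ i ∈ range (D1 + 1), ∑ j ∈ range (D2 + 1), |(F.coeff i).coeff j| := by
  unfold nrm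
  rw [Polynomial.sum_over_range' F (fun _ => Polynomial.sum_zero_index _) (D1 + 1)
    (Nat.lt_succ_iff.2 h1)]
  exact Finset.sum_congr rfl fun i _ => rothE_inner (h2 i)

private theorem rothE_bb {N : ℤ[X][X]} {D1 D2 : ℕ}
    (hD1 : N.natDegree ≤ D1) (hD2 : ∀ i, (N.coeff i).natDegree ≤ D2) (a b : ℕ) :
    nrm (bb a b N) ≤ 2 ^ (D1 + D2) * nrm N := by
  have e1 : (bb a b N).natDegree ≤ D1 := by
    rw [Polynomial.natDegree_le_iff_coeff_eq_zero]
    intro i hi
    ext j
    rw [rothE_coeff, Polynomial.coeff_eq_zero_of_natDegree_lt (lt_of_le_of_lt hD1 hi), coeff_zero,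
      mul_zero]
  have e2 : ∀ i, ((bb a b N).coeff i).natDegree ≤ D2 := by
    intro i
    rw [Polynomial.natDegree_le_iff_coeff_eq_zero]
    intro j hj
    rw [rothE_coeff, Polynomial.coeff_eq_zero_of_natDegree_lt (lt_of_le_of_lt (hD2 i) hj),
      mul_zero]
  rw [rothE_nrm e1 e2, rothE_nrm hD1 hD2, Finset.mul_sum]
  refine Finset.sum_le_sum fun i hi => ?_
  rw [Finset.mul_sum]
  refine Finset.sum_le_sum fun j hj => ?_
  have hi' : i ≤ D1 := Nat.lt_succ_iff.1 (Finset.mem_range.1 hi)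
  have hj' : j ≤ D2 := Nat.lt_succ_iff.1 (Finset.mem_range.1 hj)
  rw [rothE_coeff, abs_mul]
  refine mul_le_mul_of_nonneg_right ?_ (abs_nonneg _)
  rw [abs_mul, Nat.abs_cast, Nat.abs_cast, pow_add]
  have k1 : ((i.choose a : ℕ) : ℤ) ≤ 2 ^ D1 := by
    have : i.choose a ≤ 2 ^ D1 :=
      (Nat.choose_le_two_pow i a).trans (Nat.pow_le_pow_right (by norm_num) hi')
    exact_mod_cast this
  have k2 : ((j.choose b : ℕ) : ℤ) ≤ 2 ^ D2 := by
    have : j.choose b ≤ 2 ^ D2 :=
      (Nat.choose_le_two_pow j b).trans (Nat.pow_le_pow_right (by norm_num) hj')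
    exact_mod_cast this
  exact mul_le_mul k1 k2 (by positivity) (by positivity)

private theorem rothE_one : nrm (1 : ℤ[X][X]) = 1 := by
  have h := Pool.Agent.NLC.nrm_monomial 0 0 1
  rw [monomial_zero_one, monomial_zero_one, abs_one] at h
  exact h

private theorem rothE_prod {ι : Type} (s : Finset ι) (F : ι → ℤ[X][X]) {B : ℤ}
    (h : ∀ x, nrm (F x) ≤ B) : nrm (∏ x ∈ s, F x) ≤ B ^ s.card := by
  classical
  induction s using Finset.induction_on with
  | empty => rw [Finset.prod_empty, Finset.card_empty, pow_zero, rothE_one]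
  | insert x s hx ih =>
    rw [Finset.prod_insert hx, Finset.card_insert_of_notMem hx, pow_succ']
    exact (Pool.Agent.NLC.nrm_mul _ _).trans (mul_le_mul (h x) ih (Pool.Agent.NLC.nrm_nonneg _)
      ((Pool.Agent.NLC.nrm_nonneg _).trans (h x)))

private theorem rothE_sum {ι : Type} (s : Finset ι) (F : ι → ℤ[X][X]) {B : ℤ}
    (h : ∀ x, nrm (F x) ≤ B) : nrm (∑ x ∈ s, F x) ≤ s.card * B := by
  classical
  induction s using Finset.induction_on with
  | empty =>
    rw [Finset.sum_empty, Finset.card_empty, Nat.cast_zero, zero_mul]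
    unfold nrm
    rw [Polynomial.sum_zero_index]
  | insert x s hx ih =>
    rw [Finset.sum_insert hx, Finset.card_insert_of_notMem hx]
    have h1 := Pool.Agent.NLC.nrm_add (F x) (∑ x ∈ s, F x)
    have h2 := h x
    push_cast
    linarith

theorem nrm_DB {N : ℤ[X][X]} {D1 D2 : ℕ} (hD1 : N.natDegree ≤ D1)
    (hD2 : ∀ i, (N.coeff i).natDegree ≤ D2) {H : ℤ} (hH : nrm N ≤ H) (K : ℕ) :
    nrm (DB K N) ≤ K.factorial * (2 ^ (D1 + D2) * H) ^ K := by
  have hB : ∀ a b : Fin K, nrm (bb (a : ℕ) (b : ℕ) N) ≤ 2 ^ (D1 + D2) * H := by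
    intro a b
    exact (rothE_bb hD1 hD2 _ _).trans (mul_le_mul_of_nonneg_left hH (by positivity))
  unfold DB
  rw [Matrix.det_apply]
  have h3 : (K.factorial : ℤ) = ((Finset.univ : Finset (Equiv.Perm (Fin K))).card : ℤ) := by
    rw [Finset.card_univ, Fintype.card_perm, Fintype.card_fin]
  rw [h3]
  refine rothE_sum Finset.univ _ fun σ => ?_
  have h4 : nrm (∏ i : Fin K, bb (σ i : ℕ) (i : ℕ) N) ≤ (2 ^ (D1 + D2) * H) ^ K := by
    have h5 := rothE_prod Finset.univ (fun i : Fin K => bb (σ i : ℕ) (i : ℕ) N)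
      fun i => hB (σ i) i
    rwa [Finset.card_univ, Fintype.card_fin] at h5
  rcases Int.units_eq_one_or (Equiv.Perm.sign σ) with h | h
  · rw [h, one_smul]
    exact h4
  · rw [h, Units.neg_smul, one_smul, Pool.Agent.NLC.nrm_neg]
    exact h4

private theorem rothE_mom (z w : ℤ) (c : ℤ) (M : ℤ[X][X]) (a b : ℕ) :
    mom z w (C (C c) * M) a b = c * mom z w M a b := by
  obtain ⟨N, hN⟩ : ∃ N, ∀ i, (M.coeff i).natDegree < N := by
    refine ⟨(M.support.sup fun i => (M.coeff i).natDegree) + 1, fun i => ?_⟩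
    by_cases hi : i ∈ M.support
    · exact Nat.lt_succ_of_le (Finset.le_sup (f := fun i => (M.coeff i).natDegree) hi)
    · rw [notMem_support_iff.1 hi, natDegree_zero]
      exact Nat.succ_pos _
  have key : ∀ F : ℤ[X][X], F.natDegree < M.natDegree + 1 → (∀ i, (F.coeff i).natDegree < N) →
      mom z w F a b = ∑ i ∈ range (M.natDegree + 1), (i : ℤ) ^ a * z ^ i *
        ∑ j ∈ range N, (j : ℤ) ^ b * w ^ j * (F.coeff i).coeff j := by
    intro F h1 h2
    unfold mom
    rw [Polynomial.sum_over_range' F (by intro i; rw [sum_zero_index, mul_zero]) _ h1]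
    refine Finset.sum_congr rfl fun i _ => ?_
    rw [Polynomial.sum_over_range' (F.coeff i) (by intro j; rw [mul_zero]) N (h2 i)]
  rw [key M (Nat.lt_succ_self _) hN, key (C (C c) * M), Finset.mul_sum]
  · refine Finset.sum_congr rfl fun i _ => ?_
    rw [Finset.mul_sum, Finset.mul_sum, Finset.mul_sum]
    refine Finset.sum_congr rfl fun j _ => ?_
    rw [coeff_C_mul, coeff_C_mul]
    ring
  · exact Nat.lt_succ_of_le (natDegree_C_mul_le _ _)
  · intro i
    rw [coeff_C_mul]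
    exact lt_of_le_of_lt (natDegree_C_mul_le _ _) (hN i)

theorem roth_b {N : ℤ[X][X]} (hN : N ≠ 0) {D1 D2 : ℕ}
    (hD1 : N.natDegree ≤ D1) (hD2 : ∀ i, (N.coeff i).natDegree ≤ D2) {H : ℤ} (hH : nrm N ≤ H)
    {z : ℤ} (hz : 2 ≤ z) {n t : ℕ} (hn : 1 ≤ n)
    (h : ∀ a b, a + n * b < t → mom z (z ^ n) N a b = 0) :
    ∃ K : ℕ, 1 ≤ K ∧ K ≤ D2 + 1 ∧
      z ^ (∑ c ∈ range K, (t - (K - 1) - n * c)) ≤
        (K.factorial * (2 ^ (D1 + D2) * H) ^ K) ^ 2 := by
  obtain ⟨K, hK1, hK2, hne, hr⟩ := Pool.Agent.NLC.rank_one hN hD2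
  have hc0 : ((∏ a ∈ range K, (a.factorial : ℤ)) ^ 2) ≠ 0 := by
    refine pow_ne_zero _ (Finset.prod_ne_zero_iff.2 fun a _ => ?_)
    exact_mod_cast Nat.factorial_ne_zero a
  have hD := DD_eq K N
  obtain ⟨c, hc⟩ : ∃ c : ℤ, c = (∏ a ∈ range K, (a.factorial : ℤ)) ^ 2 := ⟨_, rfl⟩
  rw [← hc] at hD hc0
  have hDB : DB K N ≠ 0 := by
    intro h0
    rw [h0, mul_zero] at hD
    exact hne hD
  have hco : ∀ i j, ((DD K N).coeff i).coeff j = c * ((DB K N).coeff i).coeff j := by
    intro i j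
    rw [hD, coeff_C_mul, coeff_C_mul]
  refine ⟨K, hK1, hK2, Pool.Agent.NLC.rank_one_bound hDB ?_ hz hn ?_
    (nrm_DB hD1 hD2 hH K)⟩
  · intro i j k l
    have h1 := hr i j k l
    rw [hco, hco, hco, hco] at h1
    have h2 : (c * c) * (((DB K N).coeff i).coeff j * ((DB K N).coeff k).coeff l) =
        (c * c) * (((DB K N).coeff i).coeff l * ((DB K N).coeff k).coeff j) := by
      linear_combination h1
    exact mul_left_cancel₀ (mul_ne_zero hc0 hc0) h2
  · intro a b hab
    have h1 := Pool.Agent.NLC.mom_DD K h a b hab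
    rw [hD, rothE_mom] at h1
    exact (mul_eq_zero.1 h1).resolve_left hc0

end Pool.Agent.NLF
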