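import Pool.Agent.NLF.Tail
import Pool.Agent.NLF.Err

/-!
# NLF-Vals: the integers `vv` vanish

`vv = t vA - vB = (T vA - vB) + (t - T) vA`; both parts are `< 1/2` in absolute value (`tail`, `err`).
-/

namespace Pool.Agent.NLF

open Pool.Agent.NLC (mom nrm)
open Finset Polynomial
open Pool.Agent.NLG (KZ kap)

private lemma Vals_par {p : Par} {n2 : ℕ} (hG : Good p n2) {l₁ l₂ : ℕ}
    (hl : 2 * (l₁ + p.n * l₂) ≤ p.R) :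
    1 ≤ p.R ∧ p.P ≤ 4 * p.R ∧ p.J ≤ 80 * p.R ∧ p.Q ≤ 85 * p.R ∧ p.Q < p.n * (p.L + 1) ∧
      (p.n + 1) * p.B ≤ 410 * p.R ∧ p.B ≤ 205 * p.R ∧ 2 * (l₁ + l₂) ≤ p.R ∧
      p.P + p.J + p.R ≤ n2 := by
  obtain ⟨he, hf, heh, hq, hq3, hn, hn2, h60, hJ, hP, hR, hL, hB⟩ := hG
  have hR1 : 60 * p.R ≤ n2 := by omega
  have hR2 : n2 < 60 * (p.R + 1) := by omega
  have hR3 : 1 ≤ p.R := by omega
  have hJ2 : 3 * p.J ≤ 2 * n2 := by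
    have h3 : p.q * (3 * p.J) ≤ p.q * (2 * n2) := by
      have h4 : p.f * p.n ≤ p.f * n2 := Nat.mul_le_mul_left _ hn2
      have h5 : p.h * n2 = p.e * n2 + p.f * n2 := by rw [heh, add_mul]
      have h6 : 3 * (2 * p.h) * n2 ≤ 4 * p.q * n2 := Nat.mul_le_mul_right _ (by omega)
      have h7 : p.q * (3 * p.J) = 3 * (p.q * p.J) := by ring
      have h8 : p.q * (2 * n2) = 2 * (p.q * n2) := by ring
      have h9 : 3 * (2 * p.h) * n2 = 6 * (p.h * n2) := by ring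
      have h10 : 4 * p.q * n2 = 4 * (p.q * n2) := by ring
      omega
    exact Nat.le_of_mul_le_mul_left h3 (by omega)
  have hJ3 : p.J ≤ 80 * p.R := by omega
  have hQ : p.Q = p.P + p.J + p.R := rfl
  have hQ2 : p.Q ≤ 85 * p.R := by omega
  have hnL : p.n * p.L ≤ p.Q := by
    rw [hL]
    exact Nat.mul_div_le _ _
  have hnL2 : p.Q < p.n * (p.L + 1) := by
    rw [hL, mul_comm]
    exact Nat.lt_mul_of_div_lt (Nat.lt_succ_self _) (by omega)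
  have hnB : p.n * p.B ≤ 205 * p.R := by
    rw [hB, mul_add, mul_one]
    omega
  have hB2 : p.B ≤ p.n * p.B := Nat.le_mul_of_pos_left _ (by omega)
  have hl2 : l₂ ≤ p.n * l₂ := Nat.le_mul_of_pos_left _ (by omega)
  refine ⟨hR3, hP.le, hJ3, hQ2, hnL2, ?_, hB2.trans hnB, by omega, by omega⟩
  rw [add_mul, one_mul]
  omega

private lemma Vals_bd {q P B Q R k : ℕ} {W : ℝ} (hW0 : 0 ≤ W) (hW : W ≤ 2 ^ (760 * R))
    (hq : 1 ≤ q) (hk : k ≤ R) (hP : P ≤ 4 * R) (hB : B ≤ 205 * R) (hQ : Q ≤ 85 * R) :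
    (q : ℝ) ^ k * (P * B * (P * B * (q : ℝ) ^ (2 * Q) * (q : ℝ) ^ (2 * Q)) * W) ≤
      ((2 * q : ℝ) ^ 1200) ^ R := by
  have hq1 : (1 : ℝ) ≤ q := by exact_mod_cast hq
  have h1 : (P : ℝ) ≤ 2 ^ (4 * R) := by
    have h3 : P ≤ 2 ^ (4 * R) := hP.trans Nat.lt_two_pow_self.le
    exact_mod_cast h3
  have h2 : (B : ℝ) ≤ 2 ^ (205 * R) := by
    have h3 : B ≤ 2 ^ (205 * R) := hB.trans Nat.lt_two_pow_self.le
    exact_mod_cast h3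
  have h3 : (q : ℝ) ^ k ≤ (q : ℝ) ^ R := pow_le_pow_right₀ hq1 hk
  have h4 : (q : ℝ) ^ (2 * Q) ≤ (q : ℝ) ^ (170 * R) := pow_le_pow_right₀ hq1 (by omega)
  have hq0 : (0 : ℝ) ≤ q := by linarith
  calc (q : ℝ) ^ k * (P * B * (P * B * (q : ℝ) ^ (2 * Q) * (q : ℝ) ^ (2 * Q)) * W)
      ≤ (q : ℝ) ^ R * (2 ^ (4 * R) * 2 ^ (205 * R) * (2 ^ (4 * R) * 2 ^ (205 * R) *
        (q : ℝ) ^ (170 * R) * (q : ℝ) ^ (170 * R)) * 2 ^ (760 * R)) := by gcongr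
    _ = (q : ℝ) ^ (341 * R) * 2 ^ (1178 * R) := by
        have e1 : (q : ℝ) ^ (341 * R) = (q : ℝ) ^ R * ((q : ℝ) ^ (170 * R) * (q : ℝ) ^ (170 * R)) := by
          rw [← pow_add, ← pow_add]
          congr 1
          ring
        have e2 : (2 : ℝ) ^ (1178 * R) = 2 ^ (4 * R) * 2 ^ (205 * R) * (2 ^ (4 * R) * 2 ^ (205 * R)) *
            2 ^ (760 * R) := by
          rw [← pow_add, ← pow_add, ← pow_add]
          congr 1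
          ring
        rw [e1, e2]
        ring
    _ ≤ (q : ℝ) ^ (1200 * R) * 2 ^ (1200 * R) := by
        have e1 : (q : ℝ) ^ (341 * R) ≤ (q : ℝ) ^ (1200 * R) := pow_le_pow_right₀ hq1 (by omega)
        have e2 : (2 : ℝ) ^ (1178 * R) ≤ 2 ^ (1200 * R) :=
          pow_le_pow_right₀ (by norm_num) (by omega)
        gcongr
    _ = ((2 * q : ℝ) ^ 1200) ^ R := by
        rw [← pow_mul, mul_pow, mul_comm]

private lemma Vals_key {c z R l : ℕ} (hc : 1 ≤ c) (hR : 1 ≤ R) (hl : 2 * l ≤ R)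
    (hz : 16 * c ^ 2 ≤ z) : (c : ℝ) ^ R * ((z : ℝ) ^ l / (z : ℝ) ^ R) < 1 / 2 := by
  have hz1 : 1 ≤ z := le_trans (by nlinarith [Nat.one_le_pow 2 c hc]) hz
  have hz0 : (0 : ℝ) < z := by exact_mod_cast hz1
  have hzR : (0 : ℝ) < (z : ℝ) ^ R := pow_pos hz0 R
  have h1 : (2 * (c ^ R * z ^ l)) ^ 2 < (z ^ R) ^ 2 := by
    have h2 : (16 * c ^ 2) ^ R ≤ z ^ R := Nat.pow_le_pow_left hz R
    have h3 : (z ^ l) ^ 2 ≤ z ^ R := by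
      rw [← pow_mul, mul_comm]
      exact Nat.pow_le_pow_right hz1 hl
    have h4 : 16 ≤ 16 ^ R := by
      calc 16 = 16 ^ 1 := by norm_num
        _ ≤ 16 ^ R := Nat.pow_le_pow_right (by norm_num) hR
    have h5 : 0 < (c ^ R) ^ 2 := by positivity
    have h6 : (16 * c ^ 2) ^ R = 16 ^ R * (c ^ R) ^ 2 := by
      rw [mul_pow, ← pow_mul, ← pow_mul, mul_comm 2 R]
    have h7 : 4 * (c ^ R) ^ 2 < z ^ R := by
      calc 4 * (c ^ R) ^ 2 < 16 * (c ^ R) ^ 2 := by omega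
        _ ≤ 16 ^ R * (c ^ R) ^ 2 := Nat.mul_le_mul_right _ h4
        _ ≤ z ^ R := h6 ▸ h2
    have h8 : 0 < z ^ R := by positivity
    calc (2 * (c ^ R * z ^ l)) ^ 2 = 4 * (c ^ R) ^ 2 * (z ^ l) ^ 2 := by ring
      _ ≤ 4 * (c ^ R) ^ 2 * z ^ R := Nat.mul_le_mul_left _ h3
      _ < z ^ R * z ^ R := Nat.mul_lt_mul_of_pos_right h7 h8
      _ = (z ^ R) ^ 2 := by ring
  have h2 : 2 * (c ^ R * z ^ l) < z ^ R := lt_of_pow_lt_pow_left₀ 2 (Nat.zero_le _) h1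
  have h3 : 2 * ((c : ℝ) ^ R * (z : ℝ) ^ l) < (z : ℝ) ^ R := by exact_mod_cast h2
  rw [← mul_div_assoc, div_lt_iff₀ hzR]
  linarith

private lemma Vals_div {z a b R : ℕ} (hz : 1 ≤ z) (h : a + R ≤ b) :
    (z : ℝ) ^ a / (z : ℝ) ^ b ≤ 1 / (z : ℝ) ^ R := by
  have hz1 : (1 : ℝ) ≤ z := by exact_mod_cast hz
  have hz0 : (0 : ℝ) < z := by linarith
  rw [div_le_div_iff₀ (pow_pos hz0 b) (pow_pos hz0 R), one_mul, ← pow_add]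
  exact pow_le_pow_right₀ hz1 h

private lemma Vals_one {a : ℕ} (ha : 1 ≤ a) (k : ℕ) : 1 ≤ a ^ k :=
  Nat.one_le_iff_ne_zero.2 (pow_ne_zero k (by omega))

theorem vals (p : Par) (n2 : ℕ) (hG : Good p n2) (z t : ℕ)
    (hz : 16 * ((2 * p.q) ^ 1200) ^ 2 + 16 ≤ z)
    (ht : (t : ℤ) ^ p.q * ((z : ℤ) - 1) ^ p.h = ((z : ℤ) ^ n2 - 1) ^ p.e * ((z : ℤ) ^ p.n - 1) ^ p.f)
    (A : ℕ → ℕ → ℤ) (hA : ∀ i β, |A i β| ≤ p.P * p.B * (p.q : ℤ) ^ (2 * p.Q))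
    (hg : ∀ r j, p.S ≤ r → r < p.S + p.R → j < p.B + p.L → gZ p A r j = 0)
    (l₁ l₂ : ℕ) (hl : 2 * (l₁ + p.n * l₂) ≤ p.R) : vv p A z ((z : ℤ) ^ p.n) t l₁ l₂ = 0 := by
  obtain ⟨hR, hP, hJ, hQ, hQL, hnB, hB, hl2, hn2⟩ := Vals_par hG hl
  have hq1 : 1 ≤ p.q := by have := hG.hq3; omega
  have hz16 : 16 ≤ z := by omega
  have hpar1 := hG.he
  have hpar2 := hG.hf
  have hpar3 := hG.heh
  have hpar4 := hG.hq
  have hpar5 := hG.hq3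
  have hh1 : 1 ≤ p.h := by omega
  have hhq : p.h ≤ p.q := by omega
  have heq : p.e ≤ p.q := by omega
  have hfq : p.f ≤ p.q := by omega
  have hc1 : 1 ≤ (2 * p.q) ^ 1200 := Vals_one (by omega) 1200
  have hkey := Vals_key (l := l₁ + p.n * l₂) hc1 hR hl (le_trans (by omega) hz)
  have hz0 : (0 : ℝ) ≤ (z : ℝ) ^ (l₁ + p.n * l₂) / (z : ℝ) ^ p.R := by positivity
  have hcc : (((2 * p.q) ^ 1200 : ℕ) : ℝ) = (2 * p.q : ℝ) ^ 1200 := by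
    rw [Nat.cast_pow, Nat.cast_mul, Nat.cast_ofNat]
  rw [hcc] at hkey
  have hH : (0 : ℝ) ≤ p.P * p.B * (p.q : ℝ) ^ (2 * p.Q) := by positivity
  have hA' : ∀ i β, |(A i β : ℝ)| ≤ p.P * p.B * (p.q : ℝ) ^ (2 * p.Q) := fun i β => by
    exact_mod_cast hA i β
  have h1 := tail p hh1 hhq hfq hG.hn hQL A hH hA' hg hz16 l₁ l₂
  have h2 := err p hh1 hhq heq hfq hG.hn A hH hA' (z := z) (t := t) (n2 := n2)
    (by omega) hG.hJ ht l₁ l₂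
  have b1 : |TT p z ((z : ℝ) ^ p.n) * (vA p A z ((z : ℤ) ^ p.n) l₁ l₂ : ℝ) -
        (vB p A z ((z : ℤ) ^ p.n) l₁ l₂ : ℝ)| < 1 / 2 := by
    refine h1.trans_lt ?_
    have hW : (16 : ℝ) ^ p.Q * 2 ^ ((p.n + 1) * p.B + l₁ + l₂ + 2) ≤ 2 ^ (760 * p.R) := by
      have e : (16 : ℝ) ^ p.Q = 2 ^ (4 * p.Q) := by
        rw [pow_mul]
        norm_num
      rw [e, ← pow_add]
      exact pow_le_pow_right₀ (by norm_num) (by omega)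
    have h3 := Vals_bd (q := p.q) (k := 2 * (l₁ + l₂)) (by positivity) hW hq1 hl2 hP hB hQ
    calc _ = ((p.q : ℝ) ^ (2 * (l₁ + l₂)) * (p.P * p.B * (p.P * p.B * (p.q : ℝ) ^ (2 * p.Q) *
          (p.q : ℝ) ^ (2 * p.Q)) * ((16 : ℝ) ^ p.Q * 2 ^ ((p.n + 1) * p.B + l₁ + l₂ + 2)))) *
          ((z : ℝ) ^ (l₁ + p.n * l₂) / (z : ℝ) ^ p.R) := by ring
      _ ≤ ((2 * p.q : ℝ) ^ 1200) ^ p.R * ((z : ℝ) ^ (l₁ + p.n * l₂) / (z : ℝ) ^ p.R) :=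
          mul_le_mul_of_nonneg_right h3 hz0
      _ < 1 / 2 := hkey
  have b2 : |((t : ℝ) - TT p z ((z : ℝ) ^ p.n)) * (vA p A z ((z : ℤ) ^ p.n) l₁ l₂ : ℝ)| <
      1 / 2 := by
    refine h2.trans_lt ?_
    have hW : (2 : ℝ) ^ (p.P + p.J + (p.n + 1) * p.B + 2 * l₁ + 2 * l₂ + 3) ≤ 2 ^ (760 * p.R) :=
      pow_le_pow_right₀ (by norm_num) (by omega)
    have h3 := Vals_bd (q := p.q) (k := 2 * (l₁ + l₂)) (by positivity) hW hq1 hl2 hP hB hQ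
    have h4 := Vals_div (z := z) (a := p.P + p.J) (b := n2) (R := p.R) (by omega) hn2
    have h5 : (z : ℝ) ^ (l₁ + p.n * l₂) * ((z : ℝ) ^ (p.P + p.J) / (z : ℝ) ^ n2) ≤
        (z : ℝ) ^ (l₁ + p.n * l₂) / (z : ℝ) ^ p.R := by
      refine (mul_le_mul_of_nonneg_left h4 (by positivity)).trans_eq ?_
      rw [mul_one_div]
    calc _ = ((p.q : ℝ) ^ (2 * (l₁ + l₂)) * (p.P * p.B * (p.P * p.B * (p.q : ℝ) ^ (2 * p.Q) *
          (p.q : ℝ) ^ (2 * p.Q)) *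
            (2 : ℝ) ^ (p.P + p.J + (p.n + 1) * p.B + 2 * l₁ + 2 * l₂ + 3))) *
          ((z : ℝ) ^ (l₁ + p.n * l₂) * ((z : ℝ) ^ (p.P + p.J) / (z : ℝ) ^ n2)) := by
            rw [pow_add (z : ℝ) p.P p.J]
            ring
      _ ≤ ((2 * p.q : ℝ) ^ 1200) ^ p.R * ((z : ℝ) ^ (l₁ + p.n * l₂) / (z : ℝ) ^ p.R) :=
          mul_le_mul h3 h5 (by positivity) (by positivity)
      _ < 1 / 2 := hkey
  have h3 : (vv p A z ((z : ℤ) ^ p.n) t l₁ l₂ : ℝ) =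
      (TT p z ((z : ℝ) ^ p.n) * (vA p A z ((z : ℤ) ^ p.n) l₁ l₂ : ℝ) -
        (vB p A z ((z : ℤ) ^ p.n) l₁ l₂ : ℝ)) +
      ((t : ℝ) - TT p z ((z : ℝ) ^ p.n)) * (vA p A z ((z : ℤ) ^ p.n) l₁ l₂ : ℝ) := by
    unfold vv
    push_cast
    ring
  have h4 : |(vv p A z ((z : ℤ) ^ p.n) t l₁ l₂ : ℝ)| < 1 := by
    rw [h3]
    refine (abs_add_le _ _).trans_lt ?_
    linarith
  have h5 : |vv p A z ((z : ℤ) ^ p.n) t l₁ l₂| < 1 := by exact_mod_cast h4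
  exact Int.abs_lt_one_iff.1 h5

end Pool.Agent.NLF
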