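import Pool.Agent.NLF.Siegel
import Pool.Agent.NLF.Elim
import Pool.Agent.NLF.NNz
import Pool.Agent.NLF.NBd
import Pool.Agent.NLF.RothE
import Pool.Agent.NLF.Vals
import Pool.Agent.NLF.Arith
import Pool.Agent.NLF.Choice

/-!
# NLF-Main: two q-th power repunits to the same large base, large lengths without any relation
-/

namespace Pool.Agent.NLF

open Finset Polynomial
open Pool.Agent.NLG (KZ kap)
open Pool.Agent.NLC (mom nrm)

private theorem const_le {q : ℕ} (hq : 3 ≤ q) : 16 * ((2 * q) ^ 1200) ^ 2 + 16 ≤ q ^ 4810 := by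
  have h1 : 2 * q ≤ q ^ 2 := by nlinarith
  have h2 : ((2 * q) ^ 1200) ^ 2 ≤ q ^ 4800 := by
    rw [← pow_mul]
    calc (2 * q) ^ (1200 * 2) ≤ (q ^ 2) ^ (1200 * 2) := Nat.pow_le_pow_left h1 _
      _ = q ^ 4800 := by rw [← pow_mul]
  have h3 : 32 ≤ q ^ 10 := by
    calc 32 ≤ 3 ^ 10 := by norm_num
      _ ≤ q ^ 10 := Nat.pow_le_pow_left hq _
  have h4 : 1 ≤ q ^ 4800 := Nat.one_le_pow _ _ (by omega)
  calc 16 * ((2 * q) ^ 1200) ^ 2 + 16 ≤ 16 * q ^ 4800 + 16 * q ^ 4800 := by omega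
    _ = 32 * q ^ 4800 := by ring
    _ ≤ q ^ 10 * q ^ 4800 := Nat.mul_le_mul_right _ h3
    _ = q ^ 4810 := by rw [← pow_add]

theorem main_par : ∃ C : ℕ, ∀ (p : Par) (n2 : ℕ), Good p n2 →
    22400 ≤ p.n → ∀ z t : ℕ, p.q ^ C ≤ z →
    (t : ℤ) ^ p.q * ((z : ℤ) - 1) ^ p.h ≠ ((z : ℤ) ^ n2 - 1) ^ p.e * ((z : ℤ) ^ p.n - 1) ^ p.f := by
  obtain ⟨C, hZ2⟩ := arith
  refine ⟨max C 4810, fun p n2 hg hN z t hz ht => ?_⟩
  have hq3 : 3 ≤ p.q := hg.hq3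
  have hzZ1 : 16 * ((2 * p.q) ^ 1200) ^ 2 + 16 ≤ z :=
    ((const_le hq3).trans (Nat.pow_le_pow_right (by omega) (le_max_right _ _))).trans hz
  have hzZ2 : p.q ^ C ≤ z := (Nat.pow_le_pow_right (by omega) (le_max_left _ _)).trans hz
  have hz2 : 2 ≤ z := by omega
  have hR1 : 1 ≤ p.R := by
    rw [hg.hR]
    have := hg.h60
    omega
  have hB1 : 1 ≤ p.B := by
    rw [hg.hB]
    omega
  have hpar1 := hg.he
  have hpar2 := hg.hf
  have hpar3 := hg.heh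
  have hpar4 := hg.hq
  have hU : 2 * (p.R * (p.B + p.L)) ≤ p.P * p.B := by
    rw [hg.hP]
    have h1 : p.B + p.L ≤ 2 * p.B := by
      rw [hg.hB]
      omega
    calc 2 * (p.R * (p.B + p.L)) ≤ 2 * (p.R * (2 * p.B)) := by gcongr
      _ = 4 * p.R * p.B := by ring
  obtain ⟨A, hA1, hA2, hA3⟩ := siegel p (by omega) (by omega) (by omega) hg.hn hR1 hB1 hU
  have hv := vals p n2 hg z t hzZ1 ht A hA2 hA3
  have hzi : (2 : ℤ) ≤ (z : ℤ) := by exact_mod_cast hz2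
  have ht0 : (t : ℤ) ≠ 0 := by
    intro h0
    rw [h0, zero_pow (by omega), zero_mul] at ht
    have h3 : ∀ k : ℕ, 1 ≤ k → (z : ℤ) ^ k - 1 ≠ 0 := by
      intro k hk h4
      have h5 : (z : ℤ) ≤ (z : ℤ) ^ k := le_self_pow₀ (by omega) (by omega)
      omega
    have hn2' : 1 ≤ n2 := by
      have := hg.h60
      omega
    exact (mul_ne_zero (pow_ne_zero _ (h3 n2 hn2')) (pow_ne_zero _ (h3 p.n hg.hn))) ht.symm
  have hm := elim p (by omega) hg.hn hB1 A hzi ht0 (T := p.R / 2) (fun l₁ l₂ hl =>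
    hv l₁ l₂ (by omega))
  obtain ⟨K, hK1, hK2, hK3⟩ := roth_b (NN_ne_zero p (by omega) (by omega) A hA1)
    (D1 := p.P + p.S + p.n * (2 * p.B + p.L) + 2) (D2 := 2 * (p.B + p.L))
    (natDegree_NN p hg.hn A) (natDegree_coeff_NN p A)
    (nrm_NN p (by omega) (by omega) (by omega) hg.hn A hA2) hzi hg.hn hm
  exact absurd hK3 (not_le.2 (hZ2 p n2 hg hN z (by exact_mod_cast hzZ2) K hK1 hK2))

/-- Two `q`-th power repunits, lengths in different classes, none of them `1` modulo `q`. -/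
theorem pair_large : ∃ C : ℕ, ∀ q : ℕ, q.Prime → 3 ≤ q → ∀ z n1 n2 u y : ℕ,
    q ^ C ≤ z → 22400 ≤ n1 → n1 < n2 → n1 % q ≠ 1 → n2 % q ≠ 1 →
    n1 % q ≠ n2 % q → u ^ q = NL.rep z n1 → y ^ q = NL.rep z n2 → False := by
  obtain ⟨C, h⟩ := main_par
  refine ⟨C, fun q hq hq3 z n1 n2 u y hz hN hn h1 h2 h12 hu hy => ?_⟩
  obtain ⟨e, f, J, he, hf, hef, hJ⟩ := choice hq hq3 (by omega : 1 ≤ n1) (by omega : 1 ≤ n2) h1 h2 h12
  let R := n2 / 60
  let P := 4 * R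
  let L := (P + J + R) / n1
  let p : Par := ⟨q, e, f, e + f, J, n1, P, R, L + 1, L⟩
  have hg : Good p n2 := by
    refine ⟨he, hf, rfl, hef, hq3, ?_, ?_, ?_, hJ, rfl, rfl, rfl, rfl⟩
    · show 1 ≤ n1
      omega
    · show n1 ≤ n2
      omega
    · omega
  exact h p n2 hg hN z (y ^ e * u ^ f) hz (choice_eq hu hy)

end Pool.Agent.NLF
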