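import Pool.Agent.NLV.Main

/-!
# NLF-VMain: the one-variable block (paper: /team-store/theoremF_h43.md, V1-V10; modules in Pool/Agent/NLV)
-/

namespace Pool.Agent.NLF

theorem main_one (n : ℕ) (hn : 2 ≤ n) : ∃ C N1 : ℕ, ∀ q e f J n2 z t : ℕ, 3 ≤ q → 1 ≤ e → 1 ≤ f →
    2 * (e + f) ≤ q + 1 → N1 ≤ n2 → q * J + (e + f) = e * n2 + f * n → q ^ C ≤ z →
    (t : ℤ) ^ q * ((z : ℤ) - 1) ^ (e + f) ≠ ((z : ℤ) ^ n2 - 1) ^ e * ((z : ℤ) ^ n - 1) ^ f := by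
  refine ⟨3000 * n, 1000 * n, fun q e f J n2 z t hq he hf hh hN hJ hz ht => ?_⟩
  let p : NLV.VP := ⟨q, e, f, J, n, n2 / 30⟩
  have hp : NLV.VGood p n2 := ⟨hq, he, hf, hh, hn, hN, rfl, hJ⟩
  exact NLV.main_vp hp (z := z) (t := t) hz ht

end Pool.Agent.NLF
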