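import Pool.Agent.NLC.Final
import Pool.Agent.NLE.LFin
import Pool.Agent.NLE.OneU
import Pool.Agent.NLE.SameU
import Pool.Agent.NLE.SmallU
import Pool.Agent.NLE.SqAll
import Pool.Agent.NLF.Main
import Pool.Agent.NLF.VMain
import Pool.Agent.NLF.Elem

/-!
# NLF-FFin: THEOREM F, at most one solution for almost all `(x, m)`
-/

namespace Pool.Agent.NLF

open Finset Pool.Agent.NLE Pool.Agent.NLC

/-- for bounded `n1` and large `n2` -/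
private theorem one_unif : ∃ C N1 : ℕ, ∀ q : ℕ, q.Prime → 3 ≤ q → ∀ z n1 n2 u y : ℕ, q ^ C ≤ z →
    2 ≤ n1 → n1 < 22400 → n1 < n2 → N1 ≤ n2 → n1 % q ≠ 1 → n2 % q ≠ 1 → n1 % q ≠ n2 % q →
    u ^ q = NL.rep z n1 → y ^ q = NL.rep z n2 → False := by
  have h : ∀ n : ℕ, ∃ C N1 : ℕ, 2 ≤ n → ∀ q e f J n2 z t : ℕ, 3 ≤ q → 1 ≤ e → 1 ≤ f →
      2 * (e + f) ≤ q + 1 → N1 ≤ n2 → q * J + (e + f) = e * n2 + f * n → q ^ C ≤ z →
      (t : ℤ) ^ q * ((z : ℤ) - 1) ^ (e + f) ≠ ((z : ℤ) ^ n2 - 1) ^ e * ((z : ℤ) ^ n - 1) ^ f := by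
    intro n
    by_cases hn : 2 ≤ n
    · obtain ⟨C, N1, h⟩ := main_one n hn
      exact ⟨C, N1, fun _ => h⟩
    · exact ⟨0, 0, fun h => absurd h hn⟩
  choose C N1 h using h
  refine ⟨∑ n ∈ range 22400, C n, ∑ n ∈ range 22400, N1 n, ?_⟩
  intro q hq hq3 z n1 n2 u y hz hn1 hlt h12 hN h1 h2 h3 hu hy
  have hC : C n1 ≤ ∑ n ∈ range 22400, C n :=
    Finset.single_le_sum (f := C) (fun _ _ => Nat.zero_le _) (Finset.mem_range.2 hlt)
  have hN1 : N1 n1 ≤ ∑ n ∈ range 22400, N1 n :=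
    Finset.single_le_sum (f := N1) (fun _ _ => Nat.zero_le _) (Finset.mem_range.2 hlt)
  obtain ⟨e, f, J, he, hf, hef, hJ⟩ := choice hq hq3 (by omega : 1 ≤ n1) (by omega : 1 ≤ n2) h1 h2 h3
  exact h n1 hn1 q e f J n2 z (y ^ e * u ^ f) hq3 he hf hef (hN1.trans hN) hJ
    ((Nat.pow_le_pow_right (by omega) hC).trans hz) (choice_eq hu hy)

/-- For large exponents the base is at most a power of the exponent. -/
private theorem base_le : ∃ C q1 : ℕ, ∀ q : ℕ, q.Prime → q1 ≤ q → ∀ z n1 n2 u y : ℕ, 2 ≤ z →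
    2 ≤ n1 → n1 < n2 → u ^ q = NL.rep z n1 → y ^ q = NL.rep z n2 → z ≤ q ^ C := by
  obtain ⟨C1, h1⟩ := pair_large
  obtain ⟨C2, h2⟩ := pair_same_u
  obtain ⟨C3, N1, h3⟩ := one_unif
  refine ⟨C1 + C2 + C3 + 100, 4 * 22400 * N1 + 4 * 22400 * 22400 + 3, ?_⟩
  intro q hq hq1 z n1 n2 u y hz hn1 h12 hu hy
  by_contra hcon
  rw [not_le] at hcon
  have hq3 : 3 ≤ q := by omega
  have hpw : ∀ c : ℕ, c ≤ C1 + C2 + C3 + 100 → q ^ c ≤ z := fun c hc =>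
    (Nat.pow_le_pow_right (by omega) hc).trans hcon.le
  have ha : n1 % q ≠ 1 := fun h5 => fixed_one_u hq3 (hpw 100 (by omega)) (by omega) h5 hu
  have hb : n2 % q ≠ 1 := fun h5 => fixed_one_u hq3 (hpw 100 (by omega)) (by omega) h5 hy
  by_cases hs : n1 % q = n2 % q
  · obtain ⟨k, hk⟩ := Nat.dvd_of_mod_eq_zero (Nat.sub_mod_eq_zero_of_mod_eq hs.symm)
    rcases Nat.lt_or_ge n2 (2 * n1) with hlt | hge
    · exact same_small (by omega) hz hn1 h12 hlt (k := k) (by omega) hu hy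
    · exact h2 q hq3 z n1 n2 k u y (hpw C2 (by omega)) (by omega) hge (by omega) hu hy
  · rcases Nat.lt_or_ge n1 22400 with hlt | hge
    · have hsm : q < 4 * n1 * n2 := small_u hz hn1 h12 hu hy
      have hN : N1 ≤ n2 := by
        by_contra hc
        have h5 : 4 * n1 * n2 ≤ 4 * 22400 * N1 :=
          Nat.mul_le_mul (Nat.mul_le_mul_left _ hlt.le) (by omega)
        omega
      exact h3 q hq hq3 z n1 n2 u y (hpw C3 (by omega)) hn1 hlt h12 hN ha hb hs hu hy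
    · exact h1 q hq hq3 z n1 n2 u y (hpw C1 (by omega)) hge h12 ha hb hs hu hy

/-- The exponent is bounded. -/
private theorem exp_bounded : ∃ q0 : ℕ, ∀ q : ℕ, q.Prime → q0 ≤ q → ∀ z n1 n2 u y : ℕ, 2 ≤ z →
    2 ≤ n1 → n1 < n2 → u ^ q = NL.rep z n1 → y ^ q = NL.rep z n2 → False := by
  obtain ⟨C, q1, hU⟩ := base_le
  obtain ⟨q0, hL⟩ := partL C
  refine ⟨max q0 q1, fun q hq hq0 z n1 n2 u y hz hn1 h12 hu hy => ?_⟩
  have h1 := hU q hq ((le_max_right _ _).trans hq0) z n1 n2 u y hz hn1 h12 hu hy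
  have hsm : q < 4 * n1 * n2 := small_u hz hn1 h12 hu hy
  have h2 : q ≤ 4 * n2 ^ 2 := by
    have : 4 * n1 * n2 ≤ 4 * n2 ^ 2 := by
      rw [pow_two, ← mul_assoc]
      exact Nat.mul_le_mul_right _ (Nat.mul_le_mul_left _ h12.le)
    omega
  refine hL q n2 z y ((le_max_left _ _).trans hq0) hz h1 h2 ?_
  rw [hy]
  have h3 := NL.rep_mul (by omega : 1 ≤ z) n2
  omega

/-- For each exponent the base is bounded. -/
private theorem base_bounded {q : ℕ} (hq : q.Prime) (hq3 : 3 ≤ q) : ∃ X : ℕ, ∀ z n1 n2 u y : ℕ,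
    2 ≤ z → 2 ≤ n1 → n1 < n2 → u ^ q = NL.rep z n1 → y ^ q = NL.rep z n2 → z < X := by
  obtain ⟨X1, hX1⟩ := NL.fixed_one hq3
  obtain ⟨X2, hX2⟩ := pair_same hq3
  obtain ⟨C1, h1⟩ := pair_large
  obtain ⟨C3, N1, h3⟩ := one_unif
  have hfix : ∀ n1 n2 : ℕ, ∃ Z : ℕ, 1 < n1 → n1 < n2 → n1 % q ≠ 1 → ∀ z u y : ℕ, Z ≤ z →
      u ^ q = NL.rep z n1 → y ^ q = NL.rep z n2 → False := by
    intro n1 n2
    by_cases h : 1 < n1 ∧ n1 < n2 ∧ n1 % q ≠ 1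
    · obtain ⟨Z, hZ⟩ := pair_fixed (n1 := n1) (n2 := n2) hq h.1 h.2.1 h.2.2
      exact ⟨Z, fun _ _ _ => hZ⟩
    · exact ⟨0, fun h1 h2 h3 => absurd ⟨h1, h2, h3⟩ h⟩
  choose Z hZ using hfix
  set X4 : ℕ := ∑ n1 ∈ range 22400, ∑ n2 ∈ range N1, Z n1 n2 with hX4
  refine ⟨X1 + X2 + q ^ C1 + q ^ C3 + X4 + 1, fun z n1 n2 u y hz hn1 h12 hu hy => ?_⟩
  by_contra hcon
  have hn1q : n1 % q ≠ 1 := fun h1 => hX1 z u n1 (by omega) (by omega) h1 hu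
  have hnq1 : n2 % q ≠ 1 := fun h1 => hX1 z y n2 (by omega) (by omega) h1 hy
  by_cases hs : n1 % q = n2 % q
  · obtain ⟨k, hk⟩ := Nat.dvd_of_mod_eq_zero (Nat.sub_mod_eq_zero_of_mod_eq hs.symm)
    rcases Nat.lt_or_ge n2 (2 * n1) with hlt | hge
    · exact same_small (by omega) hz hn1 h12 hlt (k := k) (by omega) hu hy
    · exact hX2 z n1 n2 k u y (by omega) (by omega) hge (by omega) hu hy
  · rcases Nat.lt_or_ge n1 22400 with hlt | hge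
    · rcases Nat.lt_or_ge n2 N1 with hlt2 | hge2
      · have h6 : Z n1 n2 ≤ X4 := by
          calc Z n1 n2 ≤ ∑ n2 ∈ range N1, Z n1 n2 :=
                Finset.single_le_sum (f := fun n2 => Z n1 n2) (fun _ _ => Nat.zero_le _)
                  (Finset.mem_range.2 hlt2)
            _ ≤ X4 := Finset.single_le_sum (f := fun n1 => ∑ n2 ∈ range N1, Z n1 n2)
                  (fun _ _ => Nat.zero_le _) (Finset.mem_range.2 hlt)
        exact hZ n1 n2 (by omega) h12 hn1q z u y (by omega) hu hy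
      · exact h3 q hq hq3 z n1 n2 u y (by omega) hn1 hlt h12 hge2 hn1q hnq1 hs hu hy
    · exact h1 q hq hq3 z n1 n2 u y (by omega) hge h12 hn1q hnq1 hs hu hy

private theorem rep_of_eq {x y m n : ℕ} (hx : 2 ≤ x) (h : y ^ m * (x - 1) = x ^ n - 1) :
    y ^ m = NL.rep x n := by
  have h1 := NL.rep_mul (by omega : 1 ≤ x) n
  have h2 : y ^ m * (x - 1) = NL.rep x n * (x - 1) := by omega
  exact Nat.eq_of_mul_eq_mul_right (by omega) h2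

/-- sizes of `y` and `m` -/
private theorem size {x y m n : ℕ} (hx : 2 ≤ x) (hm : m ≠ 0) (hn : 2 ≤ n) (h : y ^ m = NL.rep x n) :
    y ≤ x ^ n ∧ m ≤ x ^ n := by
  have h3 := NL.rep_lt (x := x) (n := n) hx
  have h1 : y ≤ y ^ m := Nat.le_self_pow hm y
  have hy2 : 2 ≤ y := by
    by_contra hcon
    have h4 : y ^ m ≤ 1 := by
      calc y ^ m ≤ 1 ^ m := Nat.pow_le_pow_left (by omega) m
        _ = 1 := one_pow m
    have h5 : x + 1 ≤ NL.rep x n := by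
      obtain ⟨a, rfl⟩ : ∃ a, n = a + 2 := ⟨n - 2, by omega⟩
      rw [NL.rep_succ]
      have h6 : 0 < NL.rep x (a + 1) := NL.rep_pos (by omega)
      have h7 : x ≤ x ^ (a + 1) := Nat.le_self_pow (by omega) x
      omega
    omega
  have h4 : m < y ^ m := Nat.lt_pow_self (by omega)
  exact ⟨by omega, by omega⟩

/-- THEOREM F. -/
theorem at_most_one : {t : ℕ × (ℕ × ℕ × ℕ) × (ℕ × ℕ × ℕ) | 1 < t.1 ∧
    1 < Nat.gcd t.2.1.2.1 t.2.2.2.1 ∧ 1 < t.2.1.2.2 ∧ t.2.1.2.2 < t.2.2.2.2 ∧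
    t.2.1.1 ^ t.2.1.2.1 * (t.1 - 1) = t.1 ^ t.2.1.2.2 - 1 ∧
    t.2.2.1 ^ t.2.2.2.1 * (t.1 - 1) = t.1 ^ t.2.2.2.2 - 1}.Finite := by
  obtain ⟨q0, hq0⟩ := exp_bounded
  have hX : ∀ q : ℕ, ∃ X : ℕ, q.Prime → 3 ≤ q → ∀ z n1 n2 u y : ℕ,
      2 ≤ z → 2 ≤ n1 → n1 < n2 → u ^ q = NL.rep z n1 → y ^ q = NL.rep z n2 → z < X := by
    intro q
    by_cases h : q.Prime ∧ 3 ≤ q
    · obtain ⟨X, hX⟩ := base_bounded h.1 h.2
      exact ⟨X, fun _ _ => hX⟩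
    · exact ⟨0, fun h1 h2 => absurd ⟨h1, h2⟩ h⟩
  choose X hX using hX
  have hfin : (⋃ q ∈ {q : ℕ | 3 ≤ q ∧ q ≤ q0}, ⋃ x ∈ {x : ℕ | 2 ≤ x ∧ x ≤ X q},
      ⋃ n ∈ {n : ℕ | ∃ y : ℕ, y ^ q = NL.rep x n},
      (fun w : (ℕ × ℕ × ℕ) × (ℕ × ℕ × ℕ) => (x, w)) ''
        ((Set.Iic (x ^ n) ×ˢ Set.Iic (x ^ n) ×ˢ Set.Iic n) ×ˢ
          (Set.Iic (x ^ n) ×ˢ Set.Iic (x ^ n) ×ˢ Set.Iic n))).Finite := by
    refine Set.Finite.biUnion ((Set.finite_Iic q0).subset fun x hx => hx.2) ?_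
    intro q hq
    refine Set.Finite.biUnion ((Set.finite_Iic (X q)).subset fun x hx => hx.2) ?_
    intro x hx
    refine Set.Finite.biUnion (NLG.fixed_base hq.1 hx.1) ?_
    intro n _
    have h1 : (Set.Iic (x ^ n) ×ˢ Set.Iic (x ^ n) ×ˢ Set.Iic n : Set (ℕ × ℕ × ℕ)).Finite :=
      (Set.finite_Iic _).prod ((Set.finite_Iic _).prod (Set.finite_Iic _))
    exact (h1.prod h1).image _
  have hfin2 : ((Set.Iic 7 : Set ℕ) ×ˢ
      ((Set.Iic (7 ^ 5) ×ˢ Set.Iic (7 ^ 5) ×ˢ Set.Iic 5 : Set (ℕ × ℕ × ℕ)) ×ˢ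
      (Set.Iic (7 ^ 5) ×ˢ Set.Iic (7 ^ 5) ×ˢ Set.Iic 5 : Set (ℕ × ℕ × ℕ)))).Finite := by
    have h1 : (Set.Iic (7 ^ 5) ×ˢ Set.Iic (7 ^ 5) ×ˢ Set.Iic 5 : Set (ℕ × ℕ × ℕ)).Finite :=
      (Set.finite_Iic _).prod ((Set.finite_Iic _).prod (Set.finite_Iic _))
    exact (Set.finite_Iic 7).prod (h1.prod h1)
  refine (hfin.union hfin2).subset ?_
  rintro ⟨x, ⟨y1, m1, n1⟩, ⟨y2, m2, n2⟩⟩ ⟨hx, hm, hn1, h12, e1, e2⟩
  simp only at hx hm hn1 h12 e1 e2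
  have hx2 : 2 ≤ x := hx
  have r1 := rep_of_eq hx2 e1
  have r2 := rep_of_eq hx2 e2
  obtain ⟨q, hq, hqg⟩ := Nat.exists_prime_and_dvd (show Nat.gcd m1 m2 ≠ 1 by omega)
  obtain ⟨k1, hk1⟩ := hqg.trans (Nat.gcd_dvd_left m1 m2)
  obtain ⟨k2, hk2⟩ := hqg.trans (Nat.gcd_dvd_right m1 m2)
  have hm12 : m1 ≠ 0 ∧ m2 ≠ 0 := by
    constructor
    · rintro rfl
      rw [pow_zero] at r1
      have : x + 1 ≤ NL.rep x n1 := by
        obtain ⟨a, rfl⟩ : ∃ a, n1 = a + 2 := ⟨n1 - 2, by omega⟩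
        rw [NL.rep_succ]
        have h6 : 0 < NL.rep x (a + 1) := NL.rep_pos (by omega)
        have h7 : x ≤ x ^ (a + 1) := Nat.le_self_pow (by omega) x
        omega
      omega
    · rintro rfl
      rw [pow_zero] at r2
      have : x + 1 ≤ NL.rep x n2 := by
        obtain ⟨a, rfl⟩ : ∃ a, n2 = a + 2 := ⟨n2 - 2, by omega⟩
        rw [NL.rep_succ]
        have h6 : 0 < NL.rep x (a + 1) := NL.rep_pos (by omega)
        have h7 : x ≤ x ^ (a + 1) := Nat.le_self_pow (by omega) x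
        omega
      omega
  have s1 := size hx2 hm12.1 (by omega) r1
  have s2 := size hx2 hm12.2 (by omega) r2
  have p1 : (y1 ^ k1) ^ q = NL.rep x n1 := by rw [← pow_mul, mul_comm k1 q, ← hk1, r1]
  have p2 : (y2 ^ k2) ^ q = NL.rep x n2 := by rw [← pow_mul, mul_comm k2 q, ← hk2, r2]
  have hmono : x ^ n1 ≤ x ^ n2 := Nat.pow_le_pow_right (by omega) h12.le
  rcases Nat.lt_or_ge q 3 with hq3 | hq3
  · -- squares
    right
    have hq2 : q = 2 := by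
      have := hq.two_le
      omega
    rw [hq2] at p2
    have hx7 : x ≤ 7 ∧ n2 ≤ 5 := by
      rcases sq_all hx (by omega) p2 with ⟨h1, h2⟩ | ⟨h1, h2⟩ <;> omega
    have hb : x ^ n2 ≤ 7 ^ 5 :=
      (Nat.pow_le_pow_left hx7.1 _).trans (Nat.pow_le_pow_right (by norm_num) hx7.2)
    simp only [Set.mem_prod, Set.mem_Iic]
    exact ⟨hx7.1, ⟨s1.1.trans (hmono.trans hb), s1.2.trans (hmono.trans hb), by omega⟩,
      ⟨s2.1.trans hb, s2.2.trans hb, by omega⟩⟩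
  · left
    have hqq : q < q0 := by
      by_contra hcon
      exact hq0 q hq (by omega) x n1 n2 (y1 ^ k1) (y2 ^ k2) hx2 (by omega) h12 p1 p2
    have hxX := hX q hq hq3 x n1 n2 (y1 ^ k1) (y2 ^ k2) hx2 (by omega) h12 p1 p2
    simp only [Set.mem_iUnion, Set.mem_image, Set.mem_prod, Set.mem_Iic]
    exact ⟨q, ⟨hq3, hqq.le⟩, x, ⟨hx2, hxX.le⟩, n2, ⟨y2 ^ k2, p2⟩,
      ((y1, m1, n1), (y2, m2, n2)), ⟨⟨s1.1.trans hmono, s1.2.trans hmono, h12.le⟩,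
        ⟨s2.1, s2.2, le_rfl⟩⟩, rfl⟩

end Pool.Agent.NLF
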