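import Pool.Agent.NLF.FFin

/-!
# NLF-FInt: the integer form of THEOREM F
-/

namespace Pool.Agent.NLF

theorem at_most_one_int : {t : ℤ × (ℤ × ℕ × ℕ) × (ℤ × ℕ × ℕ) | 1 < t.1 ∧
    1 < t.2.1.1 ∧ 1 < t.2.2.1 ∧ 1 < Nat.gcd t.2.1.2.1 t.2.2.2.1 ∧
    1 < t.2.1.2.2 ∧ t.2.1.2.2 < t.2.2.2.2 ∧
    t.2.1.1 ^ t.2.1.2.1 * (t.1 - 1) = t.1 ^ t.2.1.2.2 - 1 ∧
    t.2.2.1 ^ t.2.2.2.1 * (t.1 - 1) = t.1 ^ t.2.2.2.2 - 1}.Finite := by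
  refine (at_most_one.image
    (fun w : ℕ × (ℕ × ℕ × ℕ) × (ℕ × ℕ × ℕ) => (((w.1 : ℕ) : ℤ),
      (((w.2.1.1 : ℕ) : ℤ), w.2.1.2.1, w.2.1.2.2),
      (((w.2.2.1 : ℕ) : ℤ), w.2.2.2.1, w.2.2.2.2)))).subset ?_
  rintro ⟨x, ⟨y1, m1, n1⟩, ⟨y2, m2, n2⟩⟩ ⟨hx, hy1, hy2, hm, hn1, h12, e1, e2⟩
  simp only at hx hy1 hy2 hm hn1 h12 e1 e2
  obtain ⟨a, rfl⟩ : ∃ a : ℕ, x = (a : ℤ) := ⟨x.toNat, by rw [Int.toNat_of_nonneg (by omega)]⟩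
  obtain ⟨b, rfl⟩ : ∃ b : ℕ, y1 = (b : ℤ) := ⟨y1.toNat, by rw [Int.toNat_of_nonneg (by omega)]⟩
  obtain ⟨c, rfl⟩ : ∃ c : ℕ, y2 = (c : ℤ) := ⟨y2.toNat, by rw [Int.toNat_of_nonneg (by omega)]⟩
  have ha : 1 < a := by exact_mod_cast hx
  have key : ∀ y m n : ℕ, (y : ℤ) ^ m * ((a : ℤ) - 1) = (a : ℤ) ^ n - 1 →
      y ^ m * (a - 1) = a ^ n - 1 := by
    intro y m n h
    have h1 : 1 ≤ a ^ n := Nat.one_le_pow _ _ (by omega)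
    zify [h1, ha.le]
    exact h
  exact ⟨(a, (b, m1, n1), (c, m2, n2)), ⟨ha, hm, hn1, h12, key b m1 n1 e1, key c m2 n2 e2⟩, rfl⟩

end Pool.Agent.NLF
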