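import Pool.Agent.NLF.Defs

/-!
# NLF-HSum: the expansion at infinity of the derivative of one monomial

PLAN.  (1) Binomial series: for real `x`, `|x| < 1`, `ρ : ℚ`: `HasSum (fun a => (kap ρ a : ℝ) * x ^ a)
((1 - x) ^ (ρ : ℝ))` (rpow).  Mathlib: `Real.one_add_rpow_hasFPowerSeriesOnBall_zero` / `binomialSeries`
/ `Real.hasSum...` with `Ring.choose`; see `NL/PadeReal.lean` (`hasSum_binS`) and `Mathlib/Analysis/
Analytic/Binomial.lean`; `kap ρ a = (-1) ^ a * Ring.choose ρ a`; the cast `Ring.choose (ρ : ℚ) a ↦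
Ring.choose (ρ : ℝ) a` is `Ring.map_choose`-like, or use the recursion `NLG.kap_succ`.
(2) `kap α a * kap (α - a) j = kap α j * kap (α - j) a` (recursion `kap_succ` or `Ring.choose` /
`descPochhammer`; e.g. induction on `a` with `kap_succ`: `(a+1) kap α (a+1) = (a - α) kap α a` and
`(a - (α - j)) kap (α-j) a = (a+1) kap (α-j) (a+1)`; and `(α - a - j) ... ` as needed: polynomial
identities in `α`).
(3) Vandermonde `NLG.kap_add`: `kap (ρ + σ) l = ∑ kap ρ k * kap σ (l - k)`.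
(4) `one_var`: for real `x > 1`, `e α : ℚ`, `e + α` arbitrary:
`HasSum (fun a : ℕ => (kap α a : ℝ) * kap (e + α - a) l * x ^ (-(a:ℝ))) ((1 - 1/x) ^ α *
 (∑ k ∈ range (l+1), kap e k * (kap α (l-k)) * (x / (x-1)) ^ (l-k)))`:
by (3) `kap (e + (α - a)) l = ∑ k, kap e k * kap (α - a) (l-k)`, by (2) and (1) with `ρ = α - (l-k)`
and `(1 - 1/x) ^ (α - j) = (1 - 1/x) ^ α * (x/(x-1)) ^ j`.
Multiply by `(x-1) ^ l`: `(x-1) ^ l * (x/(x-1)) ^ (l-k) = (x-1) ^ k * x ^ (l-k)`.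
(5) `hasSum_mono` = product of the two one-variable sums (`HasSum.mul_of_nonneg` / `HasSum.mul` with
`Summable.norm`; `summable_mul_of_summable_norm`), `x = z` (`α = -h/q`, `e = m - n β + J + h/q`) and
`x = w = z ^ n` (`α = (h-1)/q`, `e = β - (h-1)/q`), using `(KZ q j k : ℚ) = q ^ (2 k) kap (j/q) k`
(`NLG.KZ_cast`).
Numerically checked (Python, q = 5).
-/

namespace Pool.Agent.NLF

open Finset Polynomial
open Pool.Agent.NLG (KZ kap)
open Pool.Agent.NLC (mom nrm)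

/-- `T = z ^ J (1 - 1/z) ^ (-h/q) (1 - 1/w) ^ ((h-1)/q)`. -/
noncomputable def TT (p : Par) (z w : ℝ) : ℝ :=
  z ^ p.J * (1 - 1 / z) ^ (-(p.h : ℝ) / p.q) * (1 - 1 / w) ^ ((p.f : ℝ) / p.q)

private theorem hsum_congr {ι : Type} {f g : ι → ℝ} {a b : ℝ} (h : ∀ k, f k = g k) (hab : a = b)
    (hg : HasSum g b) : HasSum f a := by
  rw [show f = g from funext h, hab]
  exact hg

/-- The binomial series. -/
private theorem hsum_bin (ρ : ℚ) (x : ℝ) (h0 : 0 ≤ x) (h1 : x < 1) :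
    HasSum (fun a : ℕ => ((kap ρ a : ℚ) : ℝ) * x ^ a) ((1 - x) ^ (ρ : ℝ)) := by
  have h := (Real.one_add_rpow_hasFPowerSeriesOnBall_zero (a := (ρ : ℝ))).hasSum
    (y := -x) (by
      rw [← ENNReal.ofReal_one, Metric.eball_ofReal]
      simp [abs_of_nonneg h0, h1])
  rw [zero_add, ← sub_eq_add_neg] at h
  refine hsum_congr (fun k => ?_) rfl h
  have hc : ((Ring.choose ρ k : ℚ) : ℝ) = Ring.choose (ρ : ℝ) k := by
    have := Ring.map_choose (algebraMap ℚ ℝ) ρ k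
    simpa using this
  rw [binomialSeries_apply]
  simp only [List.ofFn_const, List.prod_replicate, smul_eq_mul]
  unfold kap
  push_cast
  rw [hc, neg_pow x k]
  ring

private theorem hsum_kap (α : ℚ) (a j : ℕ) :
    kap α a * kap (α - a) j = kap α (a + j) * ((a + j).choose j : ℚ) := by
  induction j with
  | zero => rw [Nat.choose_zero_right, NLG.kap_zero, Nat.cast_one, add_zero]
  | succ j ih =>
    have h1 := NLG.kap_succ (α - a) j
    have h2 := NLG.kap_succ α (a + j)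
    have h3 : ((a + j + 1 : ℕ) : ℚ) * ((a + j).choose j : ℚ) =
        ((a + j + 1).choose (j + 1) : ℚ) * ((j + 1 : ℕ) : ℚ) := by
      exact_mod_cast Nat.add_one_mul_choose_eq (a + j) j
    have hj : ((j : ℚ) + 1) ≠ 0 := by positivity
    apply mul_left_cancel₀ hj
    have e : a + (j + 1) = a + j + 1 := by ring
    rw [e]
    push_cast at h2 h3
    calc ((j : ℚ) + 1) * (kap α a * kap (α - a) (j + 1))
        = kap α a * (((j : ℚ) + 1) * kap (α - a) (j + 1)) := by ring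
      _ = (((a : ℚ) + j) - α) * (kap α a * kap (α - a) j) := by rw [h1]; ring
      _ = ((((a : ℚ) + j) - α) * kap α (a + j)) * ((a + j).choose j : ℚ) := by rw [ih]; ring
      _ = kap α (a + j + 1) * (((a : ℚ) + j + 1) * ((a + j).choose j : ℚ)) := by rw [← h2]; ring
      _ = ((j : ℚ) + 1) * (kap α (a + j + 1) * ((a + j + 1).choose (j + 1) : ℚ)) := by
        rw [h3]; ring

private theorem hsum_kap_symm (α : ℚ) (a j : ℕ) :
    kap α a * kap (α - a) j = kap α j * kap (α - j) a := by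
  rw [hsum_kap, hsum_kap, add_comm j a, Nat.choose_symm_add]

/-- The sum in one variable. -/
private theorem hsum_one (e α : ℚ) (l : ℕ) (x : ℝ) (hx : 1 < x) :
    HasSum (fun a : ℕ => ((kap α a : ℚ) : ℝ) * ((kap (e + α - a) l : ℚ) : ℝ) * (x ^ a)⁻¹)
      ((1 - 1 / x) ^ (α : ℝ) * ∑ k ∈ range (l + 1), ((kap e k : ℚ) : ℝ) *
        ((kap α (l - k) : ℚ) : ℝ) * (x / (x - 1)) ^ (l - k)) := by
  have hx0 : 0 < x := by linarith
  have h0 : 0 ≤ 1 / x := by positivity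
  have h1 : 1 / x < 1 := by rw [div_lt_one hx0]; exact hx
  have h2 : 0 < 1 - 1 / x := by linarith
  have h3 : ∀ k ∈ range (l + 1), HasSum (fun a : ℕ => ((kap e k : ℚ) : ℝ) *
      ((kap α (l - k) : ℚ) : ℝ) * (((kap (α - ((l - k : ℕ) : ℚ)) a : ℚ) : ℝ) * (1 / x) ^ a))
      (((kap e k : ℚ) : ℝ) * ((kap α (l - k) : ℚ) : ℝ) *
        ((1 - 1 / x) ^ (α : ℝ) * (x / (x - 1)) ^ (l - k))) := by
    intro k _
    refine HasSum.mul_left _ ?_
    refine hsum_congr (fun _ => rfl) ?_ (hsum_bin (α - ((l - k : ℕ) : ℚ)) (1 / x) h0 h1)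
    have h4 : (((α - ((l - k : ℕ) : ℚ) : ℚ)) : ℝ) = (α : ℝ) - ((l - k : ℕ) : ℝ) := by
      push_cast
      rfl
    have h5 : x - 1 ≠ 0 := by linarith
    have h6 : x / (x - 1) = (1 - 1 / x)⁻¹ := by
      rw [one_sub_div hx0.ne', inv_div]
    rw [h4, Real.rpow_sub_natCast h2.ne', h6, inv_pow, ← div_eq_mul_inv]
  refine hsum_congr (fun a => ?_) ?_ (hasSum_sum h3)
  · have h4 : kap α a * kap (e + α - a) l = ∑ k ∈ range (l + 1),
        kap e k * kap α (l - k) * kap (α - ((l - k : ℕ) : ℚ)) a := by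
      rw [show e + α - a = e + (α - a) from by ring, NLG.kap_add, Finset.mul_sum]
      refine Finset.sum_congr rfl fun k _ => ?_
      rw [mul_left_comm, hsum_kap_symm, mul_assoc]
    have h5 : ((kap α a : ℚ) : ℝ) * ((kap (e + α - a) l : ℚ) : ℝ) =
        ((kap α a * kap (e + α - a) l : ℚ) : ℝ) := by push_cast; rfl
    rw [h5, h4]
    push_cast
    rw [Finset.sum_mul]
    refine Finset.sum_congr rfl fun k _ => ?_
    rw [one_div, inv_pow]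
    ring
  · rw [Finset.mul_sum]
    refine Finset.sum_congr rfl fun k _ => ?_
    ring

private theorem hsum_E {q : ℕ} (hq : 1 ≤ q) (i j : ℤ) (l : ℕ) (x : ℝ) (hx : x - 1 ≠ 0) :
    (q : ℝ) ^ (2 * l) * (x - 1) ^ l * (∑ k ∈ range (l + 1), ((kap ((i : ℚ) / q) k : ℚ) : ℝ) *
        ((kap ((j : ℚ) / q) (l - k) : ℚ) : ℝ) * (x / (x - 1)) ^ (l - k)) =
      ∑ k ∈ range (l + 1), ((KZ q i k : ℤ) : ℝ) * (x - 1) ^ k *
        (((KZ q j (l - k) : ℤ) : ℝ) * x ^ (l - k)) := by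
  rw [Finset.mul_sum]
  refine Finset.sum_congr rfl fun k hk => ?_
  have hkl : k ≤ l := Nat.lt_succ_iff.mp (mem_range.mp hk)
  have h1 : ((KZ q i k : ℤ) : ℝ) = (q : ℝ) ^ (2 * k) * ((kap ((i : ℚ) / q) k : ℚ) : ℝ) := by
    have h := congrArg (fun t : ℚ => (t : ℝ)) (NLG.KZ_cast hq i k)
    push_cast at h
    exact h
  have h2 : ((KZ q j (l - k) : ℤ) : ℝ) =
      (q : ℝ) ^ (2 * (l - k)) * ((kap ((j : ℚ) / q) (l - k) : ℚ) : ℝ) := by
    have h := congrArg (fun t : ℚ => (t : ℝ)) (NLG.KZ_cast hq j (l - k))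
    push_cast at h
    exact h
  have h3 : (q : ℝ) ^ (2 * l) = (q : ℝ) ^ (2 * k) * (q : ℝ) ^ (2 * (l - k)) := by
    rw [← pow_add, ← mul_add, Nat.add_sub_cancel' hkl]
  have h4 : (x - 1) ^ l = (x - 1) ^ k * (x - 1) ^ (l - k) := by
    rw [← pow_add, Nat.add_sub_cancel' hkl]
  have h5 : (x - 1) ^ (l - k) * (x / (x - 1)) ^ (l - k) = x ^ (l - k) := by
    rw [← mul_pow, mul_div_cancel₀ _ hx]
  rw [h1, h2, h3, h4, ← h5]
  ring

theorem hasSum_mono (p : Par) (hq : 1 ≤ p.q) (hn : 1 ≤ p.n) {z : ℕ} (hz : 2 ≤ z) (m β l₁ l₂ : ℕ) :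
    HasSum (fun x : ℕ × ℕ => (p.q : ℝ) ^ (2 * (l₁ + l₂)) * ((z : ℝ) - 1) ^ l₁ *
        (((z : ℝ) ^ p.n) - 1) ^ l₂ *
        ((kap (-(p.h : ℚ) / p.q) x.1 : ℝ) * (kap ((p.f : ℚ) / p.q) x.2 : ℝ) *
        ((kap (((m : ℤ) - p.n * β + p.J - x.1 : ℤ) : ℚ) l₁ : ℝ) *
          (kap (((β : ℤ) - x.2 : ℤ) : ℚ) l₂ : ℝ) * (z : ℝ) ^ ((m : ℤ) + p.J - x.1 - p.n * x.2))))
      (TT p z ((z : ℝ) ^ p.n) * (z : ℝ) ^ m * (E1 p z m β l₁ : ℝ) *
        (E2 p ((z : ℤ) ^ p.n) β l₂ : ℝ)) := by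
  have hz1 : (1 : ℝ) < z := by exact_mod_cast hz
  have hw1 : (1 : ℝ) < (z : ℝ) ^ p.n := one_lt_pow₀ hz1 (by omega)
  have hz0 : (z : ℝ) ≠ 0 := by linarith
  have hq0 : (p.q : ℚ) ≠ 0 := by
    have : p.q ≠ 0 := by omega
    exact_mod_cast this
  have hz1' : (z : ℝ) - 1 ≠ 0 := by linarith
  have hw1' : (z : ℝ) ^ p.n - 1 ≠ 0 := by linarith
  -- the two sums
  have s1 := hsum_one (((p.q * ((m : ℤ) - p.n * β + p.J) + p.h : ℤ) : ℚ) / p.q)
    (((-p.h : ℤ) : ℚ) / p.q) l₁ (z : ℝ) hz1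
  have s2 := hsum_one ((((p.q : ℤ) * β - p.f : ℤ) : ℚ) / p.q)
    (((p.f : ℤ) : ℚ) / p.q) l₂ ((z : ℝ) ^ p.n) hw1
  have s3 := s1.mul s2 (summable_mul_of_summable_norm (summable_norm_iff.2 s1.summable)
    (summable_norm_iff.2 s2.summable))
  have s4 := s3.mul_left (((p.q : ℝ) ^ (2 * (l₁ + l₂)) * ((z : ℝ) - 1) ^ l₁ *
    (((z : ℝ) ^ p.n) - 1) ^ l₂) * ((z : ℝ) ^ m * (z : ℝ) ^ p.J))
  refine hsum_congr (fun x => ?_) ?_ s4
  · have e1 : (((p.q * ((m : ℤ) - p.n * β + p.J) + p.h : ℤ) : ℚ) / p.q) +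
        (((-p.h : ℤ) : ℚ) / p.q) - x.1 = (((m : ℤ) - p.n * β + p.J - x.1 : ℤ) : ℚ) := by
      push_cast
      field_simp
      ring
    have e2 : ((((p.q : ℤ) * β - p.f : ℤ) : ℚ) / p.q) + (((p.f : ℤ) : ℚ) / p.q) - x.2 =
        (((β : ℤ) - x.2 : ℤ) : ℚ) := by
      push_cast
      field_simp
      ring
    have e3 : (((-p.h : ℤ) : ℚ) / p.q) = -(p.h : ℚ) / p.q := by push_cast; rfl
    have e4 : (((p.f : ℤ) : ℚ) / p.q) = (p.f : ℚ) / p.q := by push_cast; rfl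
    have e5 : (z : ℝ) ^ ((m : ℤ) + p.J - x.1 - p.n * x.2) =
        (z : ℝ) ^ m * (z : ℝ) ^ p.J * ((z : ℝ) ^ x.1)⁻¹ * (((z : ℝ) ^ p.n) ^ x.2)⁻¹ := by
      rw [zpow_sub₀ hz0, zpow_sub₀ hz0, zpow_add₀ hz0, ← pow_mul]
      have e6 : (z : ℝ) ^ ((p.n : ℤ) * (x.2 : ℤ)) = (z : ℝ) ^ (p.n * x.2) := by
        rw [← zpow_natCast]
        push_cast
        rfl
      rw [e6, zpow_natCast, zpow_natCast, zpow_natCast]
      rw [div_eq_mul_inv, div_eq_mul_inv]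
    rw [e1, e2, e3, e4, e5]
    ring
  · have e3 : ((((-p.h : ℤ) : ℚ) / p.q : ℚ) : ℝ) = -(p.h : ℝ) / p.q := by push_cast; rfl
    have e4 : ((((p.f : ℤ) : ℚ) / p.q : ℚ) : ℝ) = (p.f : ℝ) / p.q := by push_cast; rfl
    have f1 := hsum_E hq (p.q * ((m : ℤ) - p.n * β + p.J) + p.h) (-p.h) l₁ (z : ℝ) hz1'
    have f2 := hsum_E hq ((p.q : ℤ) * β - p.f) p.f l₂ ((z : ℝ) ^ p.n) hw1'
    have g1 : _ = ((E1 p z m β l₁ : ℤ) : ℝ) := f1.trans (by
      unfold E1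
      push_cast
      rfl)
    have g2 : _ = ((E2 p ((z : ℤ) ^ p.n) β l₂ : ℤ) : ℝ) := f2.trans (by
      unfold E2
      push_cast
      rfl)
    have e5 : (p.q : ℝ) ^ (2 * (l₁ + l₂)) = (p.q : ℝ) ^ (2 * l₁) * (p.q : ℝ) ^ (2 * l₂) := by
      rw [mul_add, pow_add]
    rw [← g1, ← g2, e3, e4, e5, TT]
    ring

end Pool.Agent.NLF
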