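import Pool.Agent.NLF.Defs

/-!
# NLF-Siegel: the auxiliary form (Siegel's lemma)

PLAN.  Unknowns `(i, β) ∈ range P ×ˢ range B` (`U = P B` of them, use `Fin P × Fin B`), equations
`(r, j)`, `S ≤ r < S + R`, `j < B + L` (`Fin R × Fin (B + L)`, `r = S + r'`), `E = R (B + L)`, `0 < E`,
`2 E ≤ U`.  Matrix entry = the factor of `A i β` in `gZ` (0 if the condition fails).  It is
`≤ q ^ (2 Q)` in absolute value: `|KZ q j m| ≤ q ^ (2 m)` for `|j| ≤ q` (`NLG.abs_KZ_le`), and with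
`a' = β + L - j`, `a = r - i - n a'`: `a + a' ≤ a + n a' ≤ r < S + R = Q`, so the three exponents add up
to `2 Q`.  Kernel vector from `Int.Matrix.exists_ne_zero_int_vec_norm_le` exactly as in the private
theorem `AuxB_siegel` of `Pool/Agent/NLG/AuxB.lean` (copy it, `lam = 1`): `|t| ≤ (U q ^ (2 Q)) ^ 1`.
`A i β := if h : i < P ∧ β < B then t (⟨i,_⟩,⟨β,_⟩) else 0`.
-/

namespace Pool.Agent.NLF

open Finset Polynomial
open Pool.Agent.NLG (KZ kap)
open Pool.Agent.NLC (mom nrm)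

attribute [local instance] Matrix.seminormedAddCommGroup

private theorem Siegel_vec {α β : Type} [Fintype α] [Fintype β] (A : Matrix α β ℤ)
    (hlt : Fintype.card α < Fintype.card β) (h0 : 0 < Fintype.card α)
    (h : 2 * Fintype.card α ≤ Fintype.card β) (M : ℝ) (hM : 1 ≤ M)
    (hA : ∀ i j, |(A i j : ℝ)| ≤ M) :
    ∃ t : β → ℤ, t ≠ 0 ∧ A.mulVec t = 0 ∧ ∀ j, |(t j : ℝ)| ≤ (Fintype.card β : ℝ) * M := by
  obtain ⟨t, ht0, ht1, ht2⟩ := Int.Matrix.exists_ne_zero_int_vec_norm_le A hlt h0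
  refine ⟨t, ht0, ht1, fun j => ?_⟩
  have hβ : (1 : ℝ) ≤ Fintype.card β := by exact_mod_cast (h0.trans hlt)
  have hAn : ‖A‖ ≤ M := by
    rw [Matrix.norm_le_iff (by linarith)]
    intro i j
    rw [Int.norm_eq_abs]
    exact hA i j
  have hmax : max 1 ‖A‖ ≤ M := max_le hM hAn
  have hb1 : (1 : ℝ) ≤ Fintype.card β * max 1 ‖A‖ := by nlinarith [le_max_left (1 : ℝ) ‖A‖]
  have hlt' : (Fintype.card α : ℝ) < Fintype.card β := by exact_mod_cast hlt
  have h' : 2 * (Fintype.card α : ℝ) ≤ Fintype.card β := by exact_mod_cast h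
  have hexp : (Fintype.card α : ℝ) / (Fintype.card β - Fintype.card α) ≤ 1 := by
    rw [div_le_iff₀ (by linarith)]
    linarith
  have h4 := norm_le_pi_norm t j
  rw [Int.norm_eq_abs] at h4
  calc |(t j : ℝ)| ≤ ‖t‖ := h4
    _ ≤ _ := ht2
    _ ≤ ((Fintype.card β : ℝ) * max 1 ‖A‖) ^ (1 : ℝ) := Real.rpow_le_rpow_of_exponent_le hb1 hexp
    _ = (Fintype.card β : ℝ) * max 1 ‖A‖ := Real.rpow_one _
    _ ≤ _ := mul_le_mul_of_nonneg_left hmax (by linarith)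

/-- the matrix entry -/
private noncomputable def Siegel_m (p : Par) (r j i β : ℕ) : ℤ :=
  if j ≤ β + p.L ∧ i + p.n * (β + p.L - j) ≤ r then
    KZ p.q (-p.h) (r - i - p.n * (β + p.L - j)) * KZ p.q p.f (β + p.L - j) *
      (p.q : ℤ) ^ (2 * (p.Q - (r - i - p.n * (β + p.L - j)) - (β + p.L - j)))
  else 0

private theorem Siegel_gZ (p : Par) (A : ℕ → ℕ → ℤ) (r j : ℕ) :
    gZ p A r j = ∑ i ∈ range p.P, ∑ β ∈ range p.B, Siegel_m p r j i β * A i β := by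
  unfold gZ
  rw [Finset.sum_comm]
  refine Finset.sum_congr rfl fun i _ => Finset.sum_congr rfl fun β _ => ?_
  unfold Siegel_m
  split_ifs
  · ring
  · rw [zero_mul]

private theorem Siegel_le (p : Par) (hq : 1 ≤ p.q) (hf : p.f ≤ p.q) (hh : p.h ≤ p.q)
    (hn : 1 ≤ p.n) (r j i β : ℕ) (hr : r < p.Q) :
    |Siegel_m p r j i β| ≤ (p.q : ℤ) ^ (2 * p.Q) := by
  have hq0 : (0 : ℤ) < p.q := by exact_mod_cast hq
  unfold Siegel_m
  split_ifs with hc
  · obtain ⟨a', ha'⟩ : ∃ a', a' = β + p.L - j := ⟨_, rfl⟩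
    obtain ⟨a, ha⟩ : ∃ a, a = r - i - p.n * (β + p.L - j) := ⟨_, rfl⟩
    rw [← ha, ← ha']
    have hc2 := hc.2
    rw [← ha'] at ha hc2
    have h5 : a' ≤ p.n * a' := Nat.le_mul_of_pos_left _ hn
    have h2 := Pool.Agent.NLG.abs_KZ_le hq (j := -(p.h : ℤ)) (by
      rw [abs_neg, abs_of_nonneg (by positivity)]
      exact_mod_cast hh) a
    have h3 := Pool.Agent.NLG.abs_KZ_le hq (j := (p.f : ℤ)) (by
      rw [abs_of_nonneg (by positivity)]
      exact_mod_cast hf) a'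
    rw [abs_mul, abs_mul, abs_of_pos (pow_pos hq0 (2 * (p.Q - a - a')))]
    calc |KZ p.q (-(p.h : ℤ)) a| * |KZ p.q (p.f : ℤ) a'| * (p.q : ℤ) ^ (2 * (p.Q - a - a'))
        ≤ (p.q : ℤ) ^ (2 * a) * (p.q : ℤ) ^ (2 * a') * (p.q : ℤ) ^ (2 * (p.Q - a - a')) := by
          refine mul_le_mul_of_nonneg_right ?_ (pow_pos hq0 _).le
          exact mul_le_mul h2 h3 (abs_nonneg _) (pow_pos hq0 _).le
      _ = (p.q : ℤ) ^ (2 * p.Q) := by
          rw [← pow_add, ← pow_add]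
          congr 1
          omega
  · rw [abs_zero]
    exact (pow_pos hq0 _).le

theorem siegel (p : Par) (hq : 1 ≤ p.q) (hf : p.f ≤ p.q) (hh : p.h ≤ p.q) (hn : 1 ≤ p.n)
    (hR : 1 ≤ p.R) (hB : 1 ≤ p.B) (hU : 2 * (p.R * (p.B + p.L)) ≤ p.P * p.B) :
    ∃ A : ℕ → ℕ → ℤ, (∃ i < p.P, ∃ β < p.B, A i β ≠ 0) ∧
      (∀ i β, |A i β| ≤ p.P * p.B * (p.q : ℤ) ^ (2 * p.Q)) ∧
      ∀ r j, p.S ≤ r → r < p.S + p.R → j < p.B + p.L → gZ p A r j = 0 := by
  have hE : 0 < p.R * (p.B + p.L) := Nat.mul_pos hR (by omega)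
  have hSQ : p.S + p.R = p.Q := rfl
  have hq1 : (1 : ℝ) ≤ p.q := by exact_mod_cast hq
  obtain ⟨t, ht0, ht1, ht2⟩ := Siegel_vec (α := Fin p.R × Fin (p.B + p.L))
    (β := Fin p.P × Fin p.B)
    (Matrix.of fun v u => Siegel_m p (p.S + v.1) v.2 u.1 u.2)
    (by
      rw [Fintype.card_prod, Fintype.card_prod, Fintype.card_fin, Fintype.card_fin,
        Fintype.card_fin, Fintype.card_fin]
      omega)
    (by
      rw [Fintype.card_prod, Fintype.card_fin, Fintype.card_fin]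
      exact hE)
    (by
      rw [Fintype.card_prod, Fintype.card_prod, Fintype.card_fin, Fintype.card_fin,
        Fintype.card_fin, Fintype.card_fin]
      exact hU)
    ((p.q : ℝ) ^ (2 * p.Q)) (one_le_pow₀ hq1)
    (fun v u => by
      have h2 := Siegel_le p hq hf hh hn (p.S + v.1) v.2 u.1 u.2 (by
        have := v.1.2
        omega)
      rw [Matrix.of_apply]
      exact_mod_cast h2)
  obtain ⟨A, hA⟩ : ∃ A : ℕ → ℕ → ℤ, A = fun i β =>
      if h : i < p.P ∧ β < p.B then t (⟨i, h.1⟩, ⟨β, h.2⟩) else 0 := ⟨_, rfl⟩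
  have hA1 : ∀ (i : Fin p.P) (β : Fin p.B), A i β = t (i, β) := by
    intro i β
    rw [hA]
    exact dif_pos ⟨i.2, β.2⟩
  refine ⟨A, ?_, ?_, ?_⟩
  · obtain ⟨u, hu⟩ := Function.ne_iff.1 ht0
    refine ⟨u.1, u.1.2, u.2, u.2.2, ?_⟩
    rw [hA1]
    exact hu
  · intro i β
    by_cases h : i < p.P ∧ β < p.B
    · have h2 := ht2 (⟨i, h.1⟩, ⟨β, h.2⟩)
      rw [Fintype.card_prod, Fintype.card_fin, Fintype.card_fin] at h2
      rw [hA]
      simp only [dif_pos h]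
      exact_mod_cast h2
    · rw [hA]
      simp only [dif_neg h, abs_zero]
      positivity
  · intro r j hr hr' hj
    obtain ⟨s, rfl⟩ := Nat.exists_eq_add_of_le hr
    have h2 := congrFun ht1 (⟨s, by omega⟩, ⟨j, hj⟩)
    have h3 : ∑ u : Fin p.P × Fin p.B, Siegel_m p (p.S + s) j u.1 u.2 * t u = 0 := h2
    rw [Siegel_gZ, Finset.sum_range (fun i => ∑ β ∈ range p.B, Siegel_m p (p.S + s) j i β * A i β)]
    rw [Fintype.sum_prod_type] at h3
    rw [← h3]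
    refine Finset.sum_congr rfl fun i _ => ?_
    rw [Finset.sum_range (fun β => Siegel_m p (p.S + s) j i β * A i β)]
    refine Finset.sum_congr rfl fun β _ => ?_
    rw [hA1]

end Pool.Agent.NLF
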