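import Pool.Agent.NLF.Defs

/-!
# NLF-Split: the finite part of the expansion, sorted by weight

For fixed `(i, β)` the pairs `(a, a')` with `i + a + n a' < Q` correspond to the pairs `(r, j)`,
`r = i + a + n a'`, `j = β + L - a'`, and the terms agree by `NLG.KZ_cast`.
-/

namespace Pool.Agent.NLF

open Finset Polynomial
open Pool.Agent.NLG (KZ kap)
open Pool.Agent.NLC (mom nrm)

private theorem Split_aux (Q L B n i β : ℕ) (hβ : β < B) (hL : Q < n * (L + 1))
    (f : ℕ → ℕ → ℕ → ℕ → ℝ) :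
    ∑ a ∈ range Q, ∑ a' ∈ range (L + 1),
      (if i + a + n * a' < Q then f a a' (i + a + n * a') (β + L - a') else 0) =
    ∑ r ∈ range Q, ∑ j ∈ range (B + L),
      (if j ≤ β + L ∧ i + n * (β + L - j) ≤ r then
        f (r - i - n * (β + L - j)) (β + L - j) r j else 0) := by
  rw [← sum_product', ← sum_product', ← sum_filter, ← sum_filter]
  refine sum_nbij' (fun x => (i + x.1 + n * x.2, β + L - x.2))
    (fun y => (y.1 - i - n * (β + L - y.2), β + L - y.2)) ?_ ?_ ?_ ?_ ?_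
  · rintro ⟨a, a'⟩ h
    simp only [mem_filter, mem_product, mem_range] at h ⊢
    obtain ⟨⟨h1, h2⟩, h3⟩ := h
    have e : β + L - (β + L - a') = a' := Nat.sub_sub_self (by omega)
    rw [e]
    refine ⟨⟨h3, by omega⟩, by omega, by omega⟩
  · rintro ⟨r, j⟩ h
    simp only [mem_filter, mem_product, mem_range] at h ⊢
    obtain ⟨⟨h1, h2⟩, h3, h4⟩ := h
    have h5 : n * (β + L - j) < n * (L + 1) := by omega
    have h6 := Nat.lt_of_mul_lt_mul_left h5
    refine ⟨⟨by omega, h6⟩, by omega⟩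
  · rintro ⟨a, a'⟩ h
    simp only [mem_filter, mem_product, mem_range] at h ⊢
    obtain ⟨⟨h1, h2⟩, h3⟩ := h
    have e : β + L - (β + L - a') = a' := Nat.sub_sub_self (by omega)
    rw [e]
    refine Prod.ext ?_ rfl
    show i + a + n * a' - i - n * a' = a
    omega
  · rintro ⟨r, j⟩ h
    simp only [mem_filter, mem_product, mem_range] at h ⊢
    obtain ⟨⟨h1, h2⟩, h3, h4⟩ := h
    refine Prod.ext ?_ ?_
    · show i + (r - i - n * (β + L - j)) + n * (β + L - j) = r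
      omega
    · exact Nat.sub_sub_self h3
  · rintro ⟨a, a'⟩ h
    simp only [mem_filter, mem_product, mem_range] at h ⊢
    obtain ⟨⟨h1, h2⟩, h3⟩ := h
    have e : β + L - (β + L - a') = a' := Nat.sub_sub_self (by omega)
    rw [e]
    have e2 : i + a + n * a' - i - n * a' = a := by omega
    rw [e2]

private theorem Split_cast {q : ℕ} (hq : 1 ≤ q) (j : ℤ) (m : ℕ) :
    (KZ q j m : ℝ) = (q : ℝ) ^ (2 * m) * (kap ((j : ℚ) / q) m : ℝ) := by
  have h := congrArg (fun x : ℚ => (x : ℝ)) (Pool.Agent.NLG.KZ_cast hq j m)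
  push_cast at h
  exact h

private theorem Split_swap (s t u v : Finset ℕ) (g : ℕ → ℕ → ℕ → ℕ → ℝ) :
    ∑ i ∈ s, ∑ β ∈ t, ∑ r ∈ u, ∑ j ∈ v, g i β r j =
      ∑ r ∈ u, ∑ j ∈ v, ∑ β ∈ t, ∑ i ∈ s, g i β r j := by
  refine ((sum_congr rfl fun i _ => sum_comm).trans sum_comm).trans ?_
  refine sum_congr rfl fun r _ => ?_
  exact ((sum_congr rfl fun i _ => sum_comm).trans sum_comm).trans
    (sum_congr rfl fun j _ => sum_comm)

theorem split (p : Par) (hq : 1 ≤ p.q) (hn : 1 ≤ p.n) (hL : p.Q < p.n * (p.L + 1))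
    (A : ℕ → ℕ → ℤ) (K : ℕ → ℕ → ℝ) :
    ∑ i ∈ range p.P, ∑ β ∈ range p.B, (A i β : ℝ) * (p.q : ℝ) ^ (2 * p.Q) *
      (∑ a ∈ range p.Q, ∑ a' ∈ range (p.L + 1), if i + a + p.n * a' < p.Q then
        (kap (-(p.h : ℚ) / p.q) a : ℝ) * (kap ((p.f : ℚ) / p.q) a' : ℝ) *
          K (i + a + p.n * a') (β + p.L - a') else 0) =
    ∑ r ∈ range p.Q, ∑ j ∈ range (p.B + p.L), (gZ p A r j : ℝ) * K r j := by
  have key : ∀ i ∈ range p.P, ∀ β ∈ range p.B, (A i β : ℝ) * (p.q : ℝ) ^ (2 * p.Q) *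
      (∑ a ∈ range p.Q, ∑ a' ∈ range (p.L + 1), if i + a + p.n * a' < p.Q then
        (kap (-(p.h : ℚ) / p.q) a : ℝ) * (kap ((p.f : ℚ) / p.q) a' : ℝ) *
          K (i + a + p.n * a') (β + p.L - a') else 0) =
      ∑ r ∈ range p.Q, ∑ j ∈ range (p.B + p.L),
        ((if j ≤ β + p.L ∧ i + p.n * (β + p.L - j) ≤ r then
          A i β * KZ p.q (-p.h) (r - i - p.n * (β + p.L - j)) * KZ p.q p.f (β + p.L - j) *
            (p.q : ℤ) ^ (2 * (p.Q - (r - i - p.n * (β + p.L - j)) - (β + p.L - j)))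
          else 0 : ℤ) : ℝ) * K r j := by
    intro i hi β hβ
    rw [Split_aux p.Q p.L p.B p.n i β (mem_range.1 hβ) hL
      (fun a a' r j => (kap (-(p.h : ℚ) / p.q) a : ℝ) * (kap ((p.f : ℚ) / p.q) a' : ℝ) *
        K r j), mul_sum]
    refine sum_congr rfl fun r hr => ?_
    rw [mul_sum]
    refine sum_congr rfl fun j hj => ?_
    have hr' := mem_range.1 hr
    by_cases h : j ≤ β + p.L ∧ i + p.n * (β + p.L - j) ≤ r
    · rw [if_pos h, if_pos h]
      obtain ⟨h1, h2⟩ := h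
      generalize hb : β + p.L - j = b at h2 ⊢
      generalize ha : r - i - p.n * b = a
      have h3 : b ≤ p.n * b := Nat.le_mul_of_pos_left b hn
      have h4 : a + b ≤ p.Q := by omega
      have h5 : (p.q : ℝ) ^ (2 * p.Q) =
          (p.q : ℝ) ^ (2 * a) * (p.q : ℝ) ^ (2 * b) * (p.q : ℝ) ^ (2 * (p.Q - a - b)) := by
        rw [← pow_add, ← pow_add]
        congr 1
        omega
      rw [Int.cast_mul, Int.cast_mul, Int.cast_mul, Split_cast hq, Split_cast hq, Int.cast_pow,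
        Int.cast_neg, h5]
      push_cast
      ring
    · rw [if_neg h, if_neg h, mul_zero, Int.cast_zero, zero_mul]
  rw [sum_congr rfl fun i hi => sum_congr rfl fun β hβ => key i hi β hβ]
  have e1 : ∀ r j : ℕ, (gZ p A r j : ℝ) * K r j = ∑ β ∈ range p.B, ∑ i ∈ range p.P,
      ((if j ≤ β + p.L ∧ i + p.n * (β + p.L - j) ≤ r then
          A i β * KZ p.q (-p.h) (r - i - p.n * (β + p.L - j)) * KZ p.q p.f (β + p.L - j) *
            (p.q : ℤ) ^ (2 * (p.Q - (r - i - p.n * (β + p.L - j)) - (β + p.L - j)))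
          else 0 : ℤ) : ℝ) * K r j := by
    intro r j
    unfold gZ
    rw [Int.cast_sum, sum_mul]
    refine sum_congr rfl fun β _ => ?_
    rw [Int.cast_sum, sum_mul]
  rw [sum_congr rfl fun r _ => sum_congr rfl fun j _ => e1 r j]
  exact Split_swap _ _ _ _ (fun i β r j => ((if j ≤ β + p.L ∧ i + p.n * (β + p.L - j) ≤ r then
          A i β * KZ p.q (-p.h) (r - i - p.n * (β + p.L - j)) * KZ p.q p.f (β + p.L - j) *
            (p.q : ℤ) ^ (2 * (p.Q - (r - i - p.n * (β + p.L - j)) - (β + p.L - j)))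
          else 0 : ℤ) : ℝ) * K r j)

end Pool.Agent.NLF
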