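import Pool.Agent.NLF.HSum
import Pool.Agent.NLF.Split

/-!
# NLF-Tail: the form is small at the point

The difference `T * vA - vB` is the sum over `i, β` of `A i β q ^ (2 Q)` times the tail (the terms with
`i + a + n a' ≥ Q`) of the expansion `hasSum_mono` (the terms with `i + a + n a' < Q` give `vB` by `split`),
and the tail is bounded termwise by a geometric double series, using `|kap ρ m| ≤ 1` for `|ρ| ≤ 1` and
`|kap N l| ≤ 2 ^ (|N| + l)` for integers `N`.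
-/

namespace Pool.Agent.NLF

open Finset Polynomial
open Pool.Agent.NLG (KZ kap)
open Pool.Agent.NLC (mom nrm)

private theorem Tail_abs_le_one {ρ : ℚ} (h1 : -1 ≤ ρ) (h2 : ρ ≤ 1) (m : ℕ) : |kap ρ m| ≤ 1 := by
  induction m with
  | zero => rw [NLG.kap_zero, abs_one]
  | succ m ih =>
    have h := NLG.kap_succ ρ m
    have hm : (0 : ℚ) < (m : ℚ) + 1 := by positivity
    have h3 : ((m : ℚ) + 1) * |kap ρ (m + 1)| = |(m : ℚ) - ρ| * |kap ρ m| := by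
      rw [← abs_mul, ← h, abs_mul, abs_of_pos hm]
    have h4 : |(m : ℚ) - ρ| ≤ (m : ℚ) + 1 := by
      rw [abs_le]
      constructor
      · have : (0 : ℚ) ≤ m := by positivity
        linarith
      · linarith
    have h5 : ((m : ℚ) + 1) * |kap ρ (m + 1)| ≤ ((m : ℚ) + 1) * 1 := by
      rw [h3]
      exact mul_le_mul h4 ih (abs_nonneg _) hm.le
    exact le_of_mul_le_mul_left h5 hm

private theorem Tail_succ_left (ρ : ℚ) (m : ℕ) : kap (ρ + 1) (m + 1) = kap ρ (m + 1) - kap ρ m := by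
  unfold kap
  rw [Ring.choose_succ_succ, pow_succ]
  ring

private theorem Tail_nat (d : ℕ) (m : ℕ) : |kap (d : ℚ) m| ≤ 2 ^ d := by
  induction d generalizing m with
  | zero =>
    rw [Nat.cast_zero, pow_zero]
    exact Tail_abs_le_one (by norm_num) (by norm_num) m
  | succ d ih =>
    rw [Nat.cast_add, Nat.cast_one]
    cases m with
    | zero =>
      rw [NLG.kap_zero, abs_one]
      exact one_le_pow₀ (by norm_num)
    | succ m =>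
      rw [Tail_succ_left]
      have h4 := ih (m + 1)
      have h5 := ih m
      have h6 : |kap (d : ℚ) (m + 1) - kap (d : ℚ) m| ≤
          |kap (d : ℚ) (m + 1)| + |kap (d : ℚ) m| := abs_sub _ _
      rw [pow_succ]
      linarith

private theorem Tail_neg (d : ℕ) (m : ℕ) : |kap (-(d : ℚ)) m| ≤ 2 ^ (d + m) := by
  induction d generalizing m with
  | zero =>
    rw [Nat.cast_zero, neg_zero]
    exact (Tail_abs_le_one (by norm_num) (by norm_num) m).trans (one_le_pow₀ (by norm_num))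
  | succ d ih =>
    induction m with
    | zero =>
      rw [NLG.kap_zero, abs_one]
      exact one_le_pow₀ (by norm_num)
    | succ m ih2 =>
      have h3 := Tail_succ_left (-((d + 1 : ℕ) : ℚ)) m
      have h4 : -((d + 1 : ℕ) : ℚ) + 1 = -(d : ℚ) := by push_cast; ring
      rw [h4] at h3
      have h5 : kap (-((d + 1 : ℕ) : ℚ)) (m + 1) = kap (-(d : ℚ)) (m + 1) + kap (-((d + 1 : ℕ) : ℚ)) m := by
        linarith
      rw [h5]
      have h6 := ih (m + 1)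
      have h7 : (2 : ℚ) ^ (d + 1 + (m + 1)) = 2 ^ (d + (m + 1)) + 2 ^ (d + 1 + m) := by
        have e1 : d + 1 + (m + 1) = (d + m + 1) + 1 := by ring
        have e2 : d + (m + 1) = d + m + 1 := by ring
        have e3 : d + 1 + m = d + m + 1 := by ring
        rw [e1, e2, e3, pow_succ]
        ring
      rw [h7]
      exact (abs_add_le _ _).trans (add_le_add h6 ih2)

private theorem Tail_int (N : ℤ) (l : ℕ) : |(kap (N : ℚ) l : ℝ)| ≤ 2 ^ (N.natAbs + l) := by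
  have h : |kap (N : ℚ) l| ≤ 2 ^ (N.natAbs + l) := by
    obtain ⟨n, rfl | rfl⟩ := Int.eq_nat_or_neg N
    · rw [Int.natAbs_natCast, Int.cast_natCast]
      exact (Tail_nat n l).trans (pow_le_pow_right₀ (by norm_num) (Nat.le_add_right _ _))
    · rw [Int.natAbs_neg, Int.natAbs_natCast, Int.cast_neg, Int.cast_natCast]
      exact Tail_neg n l
  have h' : ((|kap (N : ℚ) l| : ℚ) : ℝ) ≤ ((2 ^ (N.natAbs + l) : ℚ) : ℝ) := by exact_mod_cast h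
  push_cast at h'
  exact h'

private theorem Tail_one {ρ : ℚ} (h1 : -1 ≤ ρ) (h2 : ρ ≤ 1) (m : ℕ) : |(kap ρ m : ℝ)| ≤ 1 := by
  have h := Tail_abs_le_one h1 h2 m
  have h' : ((|kap ρ m| : ℚ) : ℝ) ≤ ((1 : ℚ) : ℝ) := by exact_mod_cast h
  push_cast at h'
  exact h'

/-- the term `(a, a')` of the expansion of the monomial `(i, β)` -/
private noncomputable def Tail_F (p : Par) (z l₁ l₂ i β : ℕ) (x : ℕ × ℕ) : ℝ :=
  (kap (-(p.h : ℚ) / p.q) x.1 : ℝ) * (kap ((p.f : ℚ) / p.q) x.2 : ℝ) *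
    ((kap ((((p.P - 1 - i : ℕ) : ℤ) - p.n * β + p.J - x.1 : ℤ) : ℚ) l₁ : ℝ) *
      (kap (((β : ℤ) - x.2 : ℤ) : ℚ) l₂ : ℝ) * (z : ℝ) ^ (((p.P - 1 - i : ℕ) : ℤ) + p.J - x.1 - p.n * x.2))

/-- the value of the derivative of the monomial `z ^ (ρ - n b') w ^ b'` -/
private noncomputable def Tail_K (p : Par) (z l₁ l₂ r j : ℕ) : ℝ :=
  (kap (((p.S : ℤ) - 1 - r - p.n * ((j : ℤ) - p.L) : ℤ) : ℚ) l₁ : ℝ) *
    (kap (((j : ℤ) - p.L : ℤ) : ℚ) l₂ : ℝ) * (z : ℝ) ^ ((p.S : ℤ) - 1 - r)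

private theorem Tail_FK (p : Par) (z l₁ l₂ i β a a' : ℕ) (hi : i < p.P) (ha : a' ≤ p.L) :
    Tail_F p z l₁ l₂ i β (a, a') = (kap (-(p.h : ℚ) / p.q) a : ℝ) * (kap ((p.f : ℚ) / p.q) a' : ℝ) *
      Tail_K p z l₁ l₂ (i + a + p.n * a') (β + p.L - a') := by
  unfold Tail_F Tail_K Par.S
  have h1 : ((p.P - 1 - i : ℕ) : ℤ) = (p.P : ℤ) - 1 - i := by omega
  have h2 : ((β + p.L - a' : ℕ) : ℤ) = (β : ℤ) + p.L - a' := by omega
  have h3 : (((p.P + p.J : ℕ) : ℤ) - 1 - ((i + a + p.n * a' : ℕ) : ℤ) -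
      p.n * (((β + p.L - a' : ℕ) : ℤ) - p.L) : ℤ) = ((p.P - 1 - i : ℕ) : ℤ) - p.n * β + p.J - a := by
    rw [h1, h2]
    push_cast
    ring
  have h4 : ((β + p.L - a' : ℕ) : ℤ) - p.L = (β : ℤ) - a' := by
    rw [h2]
    ring
  have h5 : (((p.P + p.J : ℕ) : ℤ) - 1 - ((i + a + p.n * a' : ℕ) : ℤ) : ℤ) =
      ((p.P - 1 - i : ℕ) : ℤ) + p.J - a - p.n * a' := by
    rw [h1]
    push_cast
    ring
  rw [h3, h4, h5]

private theorem Tail_F_le (p : Par) (h1 : 1 ≤ p.h) (hh : p.h ≤ p.q) (hf : p.f ≤ p.q) (hn : 1 ≤ p.n) {z : ℕ} (hz : 16 ≤ z)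
    (l₁ l₂ : ℕ) {i β a a' : ℕ} (hi : i < p.P) (hβ : β < p.B) (hr : p.Q ≤ i + a + p.n * a') :
    |Tail_F p z l₁ l₂ i β (a, a')| ≤
      16 ^ p.Q * 2 ^ ((p.n + 1) * p.B + l₁ + l₂) / (z : ℝ) ^ p.R * ((1 / 2 : ℝ) ^ a * (1 / 2 : ℝ) ^ a') := by
  obtain ⟨r, hr'⟩ : ∃ r, r = i + a + p.n * a' := ⟨_, rfl⟩
  obtain ⟨d, hd⟩ : ∃ d, r = p.Q + d := ⟨r - p.Q, by omega⟩
  have hq0 : (0 : ℚ) < (p.q : ℚ) := by
    have : 0 < p.q := by omega
    exact_mod_cast this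
  have hh1 : (1 : ℚ) ≤ (p.h : ℚ) := by exact_mod_cast h1
  have hhq : (p.h : ℚ) ≤ (p.q : ℚ) := by exact_mod_cast hh
  have k1 : |(kap (-(p.h : ℚ) / p.q) a : ℝ)| ≤ 1 := by
    refine Tail_one ?_ ?_ a
    · rw [le_div_iff₀ hq0]
      linarith
    · rw [div_le_one hq0]
      linarith
  have hf0 : (0 : ℚ) ≤ (p.f : ℚ) := Nat.cast_nonneg _
  have hfq : (p.f : ℚ) ≤ (p.q : ℚ) := by exact_mod_cast hf
  have k2 : |(kap ((p.f : ℚ) / p.q) a' : ℝ)| ≤ 1 := by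
    refine Tail_one ?_ ?_ a'
    · rw [le_div_iff₀ hq0]
      linarith
    · rw [div_le_one hq0]
      linarith
  have hPi : ((p.P - 1 - i : ℕ) : ℤ) = (p.P : ℤ) - 1 - i := by omega
  have hQ : (p.Q : ℤ) = p.P + p.J + p.R := by
    unfold Par.Q
    push_cast
    ring
  have hnβ : (p.n : ℤ) * β + p.n ≤ p.n * p.B := by
    have h2 : (β : ℤ) + 1 ≤ p.B := by exact_mod_cast hβ
    have h3 : (0 : ℤ) ≤ p.n := by positivity
    nlinarith
  have hna : (a' : ℤ) ≤ p.n * a' := by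
    have h3 : (1 : ℤ) ≤ p.n := by exact_mod_cast hn
    have h4 : (0 : ℤ) ≤ a' := by positivity
    nlinarith
  have hnn : (0 : ℤ) ≤ (p.n : ℤ) * β := by positivity
  have hn1 : (1 : ℤ) ≤ p.n := by exact_mod_cast hn
  have hrz : (r : ℤ) = i + a + p.n * a' := by
    rw [hr']
    push_cast
    ring
  have k3 : |(kap ((((p.P - 1 - i : ℕ) : ℤ) - p.n * β + p.J - a : ℤ) : ℚ) l₁ : ℝ)| ≤
      2 ^ (r + p.n * p.B + l₁) := by
    refine (Tail_int _ l₁).trans (pow_le_pow_right₀ (by norm_num) ?_)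
    have h2 : (((p.P - 1 - i : ℕ) : ℤ) - p.n * β + p.J - a).natAbs ≤ r + p.n * p.B := by
      have h3 : |((p.P - 1 - i : ℕ) : ℤ) - p.n * β + p.J - a| ≤ (r : ℤ) + p.n * p.B := by
        rw [abs_le, hPi]
        have h4 : (p.Q : ℤ) ≤ r := by
          rw [hd]
          push_cast
          linarith [Int.natCast_nonneg d]
        constructor
        · nlinarith [Int.natCast_nonneg i, Int.natCast_nonneg a, Int.natCast_nonneg p.P, Int.natCast_nonneg p.J]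
        · nlinarith [Int.natCast_nonneg i, Int.natCast_nonneg a, Int.natCast_nonneg p.R, Int.natCast_nonneg p.B]
      have h5 := Int.natCast_natAbs (((p.P - 1 - i : ℕ) : ℤ) - p.n * β + p.J - a)
      have h6 : ((((p.P - 1 - i : ℕ) : ℤ) - p.n * β + p.J - a).natAbs : ℤ) ≤ ((r + p.n * p.B : ℕ) : ℤ) := by
        rw [h5]
        push_cast
        exact h3
      exact_mod_cast h6
    omega
  have k4 : |(kap (((β : ℤ) - a' : ℤ) : ℚ) l₂ : ℝ)| ≤ 2 ^ (r + p.B + l₂) := by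
    refine (Tail_int _ l₂).trans (pow_le_pow_right₀ (by norm_num) ?_)
    have h2 : a' ≤ r := by
      have : (a' : ℤ) ≤ r := by
        rw [hrz]
        linarith [Int.natCast_nonneg i, Int.natCast_nonneg a]
      exact_mod_cast this
    omega
  have hz0 : (0 : ℝ) < z := by
    have : 0 < z := by omega
    exact_mod_cast this
  have hz16 : (16 : ℝ) ≤ z := by exact_mod_cast hz
  have k5 : (z : ℝ) ^ (((p.P - 1 - i : ℕ) : ℤ) + p.J - a - p.n * a') ≤ 1 / (z : ℝ) ^ p.R * (1 / 16) ^ (d + 1) := by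
    have h2 : (((p.P - 1 - i : ℕ) : ℤ) + p.J - a - p.n * a') = -((p.R + (d + 1) : ℕ) : ℤ) := by
      have h3 : (r : ℤ) = p.Q + d := by
        rw [hd]
        push_cast
        ring
      rw [hPi]
      push_cast
      linarith
    rw [h2, zpow_neg, zpow_natCast, pow_add, mul_inv, one_div, one_div, inv_pow]
    refine mul_le_mul_of_nonneg_left ?_ (by positivity)
    exact inv_anti₀ (by positivity) (pow_le_pow_left₀ (by norm_num) hz16 _)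
  have k6 : (0 : ℝ) ≤ (z : ℝ) ^ (((p.P - 1 - i : ℕ) : ℤ) + p.J - a - p.n * a') := (zpow_pos hz0 _).le
  unfold Tail_F
  rw [abs_mul, abs_mul, abs_mul, abs_mul, abs_of_nonneg k6]
  have k7 : |(kap (-(p.h : ℚ) / p.q) a : ℝ)| * |(kap ((p.f : ℚ) / p.q) a' : ℝ)| ≤ 1 :=
    mul_le_one₀ k1 (abs_nonneg _) k2
  have k8 : |(kap ((((p.P - 1 - i : ℕ) : ℤ) - p.n * β + p.J - a : ℤ) : ℚ) l₁ : ℝ)| *
      |(kap (((β : ℤ) - a' : ℤ) : ℚ) l₂ : ℝ)| ≤ 2 ^ (r + p.n * p.B + l₁) * 2 ^ (r + p.B + l₂) :=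
    mul_le_mul k3 k4 (abs_nonneg _) (by positivity)
  have k9 := mul_le_mul k8 k5 k6 (by positivity)
  have k10 := mul_le_mul k7 k9 (by positivity) zero_le_one
  refine k10.trans ?_
  rw [one_mul]
  have e1 : (2 : ℝ) ^ (r + p.n * p.B + l₁) * 2 ^ (r + p.B + l₂) =
      2 ^ ((p.n + 1) * p.B + l₁ + l₂) * 4 ^ p.Q * 4 ^ d := by
    have h2 : (4 : ℝ) = 2 ^ 2 := by norm_num
    rw [h2, ← pow_mul, ← pow_mul, ← pow_add, ← pow_add, ← pow_add, hd]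
    congr 1
    ring
  rw [e1]
  have e2 : (1 / 2 : ℝ) ^ (p.Q + d) ≤ (1 / 2 : ℝ) ^ a * (1 / 2 : ℝ) ^ a' := by
    rw [← pow_add]
    refine pow_le_pow_of_le_one (by norm_num) (by norm_num) ?_
    have : (a : ℤ) + a' ≤ r := by
      rw [hrz]
      linarith [Int.natCast_nonneg i]
    have h3 : a + a' ≤ r := by exact_mod_cast this
    omega
  have e3 : (4 : ℝ) ^ p.Q * 4 ^ d * (1 / 16) ^ (d + 1) ≤ 16 ^ p.Q * (1 / 2) ^ (p.Q + d) := by
    have h2 : (16 : ℝ) ^ p.Q = 4 ^ p.Q * 4 ^ p.Q := by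
      rw [← mul_pow]
      norm_num
    have h3 : (4 : ℝ) ^ d * (1 / 16) ^ d ≤ (1 / 2) ^ d := by
      rw [← mul_pow]
      exact pow_le_pow_left₀ (by norm_num) (by norm_num) _
    have h4 : (1 : ℝ) ≤ 4 ^ p.Q * (1 / 2) ^ p.Q := by
      rw [← mul_pow]
      exact one_le_pow₀ (by norm_num)
    rw [h2, pow_add (1 / 2 : ℝ) p.Q d, pow_succ (1 / 16 : ℝ) d]
    have h5 : (0 : ℝ) ≤ 4 ^ p.Q := by positivity
    have h6 : (0 : ℝ) ≤ (1 / 2) ^ d := by positivity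
    have h7 : (4 : ℝ) ^ d * ((1 / 16) ^ d * (1 / 16)) ≤ (1 / 2) ^ d := by
      have h8 : (0 : ℝ) ≤ (4 : ℝ) ^ d * (1 / 16) ^ d := by positivity
      linarith
    calc (4 : ℝ) ^ p.Q * 4 ^ d * ((1 / 16) ^ d * (1 / 16)) = 4 ^ p.Q * (4 ^ d * ((1 / 16) ^ d * (1 / 16))) := by ring
      _ ≤ 4 ^ p.Q * (1 / 2) ^ d := mul_le_mul_of_nonneg_left h7 h5
      _ ≤ 4 ^ p.Q * (1 / 2) ^ d * (4 ^ p.Q * (1 / 2) ^ p.Q) := le_mul_of_one_le_right (by positivity) h4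
      _ = 4 ^ p.Q * 4 ^ p.Q * ((1 / 2) ^ p.Q * (1 / 2) ^ d) := by ring
  calc (2 : ℝ) ^ ((p.n + 1) * p.B + l₁ + l₂) * 4 ^ p.Q * 4 ^ d * (1 / (z : ℝ) ^ p.R * (1 / 16) ^ (d + 1))
      = 2 ^ ((p.n + 1) * p.B + l₁ + l₂) / (z : ℝ) ^ p.R * (4 ^ p.Q * 4 ^ d * (1 / 16) ^ (d + 1)) := by ring
    _ ≤ 2 ^ ((p.n + 1) * p.B + l₁ + l₂) / (z : ℝ) ^ p.R * (16 ^ p.Q * (1 / 2) ^ (p.Q + d)) :=
        mul_le_mul_of_nonneg_left e3 (by positivity)
    _ = 16 ^ p.Q * 2 ^ ((p.n + 1) * p.B + l₁ + l₂) / (z : ℝ) ^ p.R * (1 / 2) ^ (p.Q + d) := by ring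
    _ ≤ _ := mul_le_mul_of_nonneg_left e2 (by positivity)

private theorem Tail_sum (p : Par) (h1 : 1 ≤ p.h) (hh : p.h ≤ p.q) (hf : p.f ≤ p.q) (hn : 1 ≤ p.n)
    (hL : p.Q < p.n * (p.L + 1)) {z : ℕ} (hz : 16 ≤ z) (l₁ l₂ : ℕ) {i β : ℕ} (hi : i < p.P) (hβ : β < p.B)
    {s : ℝ} (hs : HasSum (Tail_F p z l₁ l₂ i β) s) :
    |s - ∑ a ∈ range p.Q, ∑ a' ∈ range (p.L + 1), (if i + a + p.n * a' < p.Q then
        (kap (-(p.h : ℚ) / p.q) a : ℝ) * (kap ((p.f : ℚ) / p.q) a' : ℝ) *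
          Tail_K p z l₁ l₂ (i + a + p.n * a') (β + p.L - a') else 0)| ≤
      16 ^ p.Q * 2 ^ ((p.n + 1) * p.B + l₁ + l₂ + 2) / (z : ℝ) ^ p.R := by
  classical
  have hfin : HasSum (fun x : ℕ × ℕ => if i + x.1 + p.n * x.2 < p.Q then Tail_F p z l₁ l₂ i β x else 0)
      (∑ x ∈ range p.Q ×ˢ range (p.L + 1),
        if i + x.1 + p.n * x.2 < p.Q then Tail_F p z l₁ l₂ i β x else 0) := by
    refine hasSum_sum_of_ne_finset_zero ?_
    intro x hx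
    rw [if_neg]
    intro h2
    refine hx (mem_product.2 ⟨mem_range.2 ?_, mem_range.2 ?_⟩)
    · have := Nat.zero_le (p.n * x.2)
      omega
    · by_contra h3
      rw [not_lt] at h3
      have h4 := Nat.mul_le_mul_left p.n h3
      omega
  rw [sum_product] at hfin
  have he : ∑ a ∈ range p.Q, ∑ a' ∈ range (p.L + 1), (if i + (a, a').1 + p.n * (a, a').2 < p.Q then
      Tail_F p z l₁ l₂ i β (a, a') else 0) =
      ∑ a ∈ range p.Q, ∑ a' ∈ range (p.L + 1), (if i + a + p.n * a' < p.Q then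
        (kap (-(p.h : ℚ) / p.q) a : ℝ) * (kap ((p.f : ℚ) / p.q) a' : ℝ) *
          Tail_K p z l₁ l₂ (i + a + p.n * a') (β + p.L - a') else 0) := by
    refine sum_congr rfl fun a _ => sum_congr rfl fun a' ha' => ?_
    rw [Tail_FK p z l₁ l₂ i β a a' hi (by have := mem_range.1 ha'; omega)]
  rw [he] at hfin
  have hd := hs.sub hfin
  have hg : HasSum (fun x : ℕ × ℕ => 16 ^ p.Q * 2 ^ ((p.n + 1) * p.B + l₁ + l₂) / (z : ℝ) ^ p.R *
      ((1 / 2 : ℝ) ^ x.1 * (1 / 2 : ℝ) ^ x.2))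
      (16 ^ p.Q * 2 ^ ((p.n + 1) * p.B + l₁ + l₂) / (z : ℝ) ^ p.R * (2 * 2)) := by
    refine HasSum.mul_left _ ?_
    exact hasSum_geometric_two.mul hasSum_geometric_two
      (hasSum_geometric_two.summable.mul_of_nonneg hasSum_geometric_two.summable
        (fun _ => by positivity) (fun _ => by positivity))
  have hb : ∀ x : ℕ × ℕ, ‖Tail_F p z l₁ l₂ i β x -
      (if i + x.1 + p.n * x.2 < p.Q then Tail_F p z l₁ l₂ i β x else 0)‖ ≤
      16 ^ p.Q * 2 ^ ((p.n + 1) * p.B + l₁ + l₂) / (z : ℝ) ^ p.R * ((1 / 2 : ℝ) ^ x.1 * (1 / 2 : ℝ) ^ x.2) := by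
    intro x
    by_cases hx : i + x.1 + p.n * x.2 < p.Q
    · rw [if_pos hx, sub_self, norm_zero]
      positivity
    · rw [if_neg hx, sub_zero, Real.norm_eq_abs]
      exact Tail_F_le p h1 hh hf hn hz l₁ l₂ hi hβ (by omega)
  have hfinal := hd.norm_le_of_bounded hg hb
  rw [Real.norm_eq_abs] at hfinal
  refine hfinal.trans (le_of_eq ?_)
  rw [pow_add (2 : ℝ) ((p.n + 1) * p.B + l₁ + l₂) 2]
  ring

theorem tail (p : Par) (h1 : 1 ≤ p.h) (hh : p.h ≤ p.q) (hf : p.f ≤ p.q) (hn : 1 ≤ p.n)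
    (hL : p.Q < p.n * (p.L + 1)) (A : ℕ → ℕ → ℤ) {H : ℝ} (hH : 0 ≤ H) (hA : ∀ i β, |(A i β : ℝ)| ≤ H)
    (hg : ∀ r j, p.S ≤ r → r < p.S + p.R → j < p.B + p.L → gZ p A r j = 0)
    {z : ℕ} (hz : 16 ≤ z) (l₁ l₂ : ℕ) :
    |TT p z ((z : ℝ) ^ p.n) * (vA p A z ((z : ℤ) ^ p.n) l₁ l₂ : ℝ) -
        (vB p A z ((z : ℤ) ^ p.n) l₁ l₂ : ℝ)| ≤
      (p.q : ℝ) ^ (2 * (l₁ + l₂)) * (z : ℝ) ^ (l₁ + p.n * l₂) *
        (p.P * p.B * (H * (p.q : ℝ) ^ (2 * p.Q)) *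
          (16 ^ p.Q * 2 ^ ((p.n + 1) * p.B + l₁ + l₂ + 2) / (z : ℝ) ^ p.R)) := by
  have hq : 1 ≤ p.q := h1.trans hh
  have hz16 : (16 : ℝ) ≤ z := by exact_mod_cast hz
  have hq0 : (0 : ℝ) < p.q := by
    have : 0 < p.q := by omega
    exact_mod_cast this
  have hw1 : (1 : ℝ) < (z : ℝ) ^ p.n := one_lt_pow₀ (by linarith) (by omega)
  obtain ⟨Pw, hPw⟩ : ∃ Pw : ℝ, Pw = (p.q : ℝ) ^ (2 * (l₁ + l₂)) * ((z : ℝ) - 1) ^ l₁ *
      (((z : ℝ) ^ p.n) - 1) ^ l₂ := ⟨_, rfl⟩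
  have hz1 : (0 : ℝ) < (z : ℝ) - 1 := by linarith
  have hw0 : (0 : ℝ) < (z : ℝ) ^ p.n - 1 := by linarith
  have hPw0 : 0 < Pw := by
    rw [hPw]
    positivity
  have hPwle : Pw ≤ (p.q : ℝ) ^ (2 * (l₁ + l₂)) * (z : ℝ) ^ (l₁ + p.n * l₂) := by
    rw [hPw, pow_add, pow_mul (z : ℝ) p.n l₂, mul_assoc]
    refine mul_le_mul_of_nonneg_left ?_ (by positivity)
    refine mul_le_mul ?_ ?_ (by positivity) (by positivity)
    · exact pow_le_pow_left₀ hz1.le (by linarith) _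
    · exact pow_le_pow_left₀ hw0.le (by linarith) _
  -- the sums of the expansions
  obtain ⟨s, hs⟩ : ∃ s : ℕ → ℕ → ℝ, s = fun i β => TT p z ((z : ℝ) ^ p.n) * (z : ℝ) ^ (p.P - 1 - i) *
      (E1 p z (p.P - 1 - i) β l₁ : ℝ) * (E2 p ((z : ℤ) ^ p.n) β l₂ : ℝ) := ⟨_, rfl⟩
  have hsum : ∀ i β, HasSum (Tail_F p z l₁ l₂ i β) (s i β / Pw) := by
    intro i β
    have h2 := hasSum_mono p hq hn (z := z) (by omega) (p.P - 1 - i) β l₁ l₂
    have h3 := h2.div_const Pw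
    have h4 : ∀ x : ℕ × ℕ, Pw * Tail_F p z l₁ l₂ i β x / Pw = Tail_F p z l₁ l₂ i β x := fun x =>
      mul_div_cancel_left₀ _ hPw0.ne'
    have h5 : (fun x : ℕ × ℕ => Pw * Tail_F p z l₁ l₂ i β x / Pw) = Tail_F p z l₁ l₂ i β := funext h4
    rw [← h5, hs, hPw]
    rw [hPw] at h3
    exact h3
  obtain ⟨fin, hfin⟩ : ∃ fin : ℕ → ℕ → ℝ, fin = fun i β => ∑ a ∈ range p.Q, ∑ a' ∈ range (p.L + 1),
      (if i + a + p.n * a' < p.Q then
        (kap (-(p.h : ℚ) / p.q) a : ℝ) * (kap ((p.f : ℚ) / p.q) a' : ℝ) *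
          Tail_K p z l₁ l₂ (i + a + p.n * a') (β + p.L - a') else 0) := ⟨_, rfl⟩
  have hsp := split p hq hn hL A (Tail_K p z l₁ l₂)
  have hTA : TT p z ((z : ℝ) ^ p.n) * (vA p A z ((z : ℤ) ^ p.n) l₁ l₂ : ℝ) =
      ∑ i ∈ range p.P, ∑ β ∈ range p.B, (A i β : ℝ) * (p.q : ℝ) ^ (2 * p.Q) * s i β := by
    unfold vA
    push_cast
    rw [mul_sum]
    refine sum_congr rfl fun i _ => ?_
    rw [mul_sum]
    refine sum_congr rfl fun β _ => ?_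
    rw [hs]
    push_cast
    ring
  have hVB : (vB p A z ((z : ℤ) ^ p.n) l₁ l₂ : ℝ) =
      Pw * ∑ r ∈ range p.Q, ∑ j ∈ range (p.B + p.L), (gZ p A r j : ℝ) * Tail_K p z l₁ l₂ r j := by
    have hQ : p.Q = p.S + p.R := rfl
    rw [hQ, sum_range_add]
    have h0 : ∑ x ∈ range p.R, ∑ j ∈ range (p.B + p.L), (gZ p A (p.S + x) j : ℝ) *
        Tail_K p z l₁ l₂ (p.S + x) j = 0 := by
      refine sum_eq_zero fun x hx => sum_eq_zero fun j hj => ?_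
      rw [hg (p.S + x) j (Nat.le_add_right _ _) (Nat.add_lt_add_left (mem_range.1 hx) _) (mem_range.1 hj)]
      rw [Int.cast_zero, zero_mul]
    rw [h0, add_zero, mul_sum]
    unfold vB
    push_cast
    refine sum_congr rfl fun r hr => ?_
    rw [mul_sum]
    refine sum_congr rfl fun j _ => ?_
    have hr' : r < p.S := mem_range.1 hr
    have hKZ : ∀ (k : ℤ) (l : ℕ), (KZ p.q (p.q * k) l : ℝ) = (p.q : ℝ) ^ (2 * l) * (kap (k : ℚ) l : ℝ) := by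
      intro k l
      have h2 := NLG.KZ_cast hq ((p.q : ℤ) * k) l
      have h3 : (((p.q : ℤ) * k : ℤ) : ℚ) / p.q = (k : ℚ) := by
        push_cast
        have h4 : (p.q : ℚ) ≠ 0 := by
          have : p.q ≠ 0 := by omega
          exact_mod_cast this
        field_simp
      rw [h3] at h2
      have h5 : ((KZ p.q (p.q * k) l : ℚ) : ℝ) = (((p.q : ℚ) ^ (2 * l) * kap (k : ℚ) l : ℚ) : ℝ) := by
        rw [h2]
      push_cast at h5
      exact h5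
    rw [hKZ, hKZ]
    unfold Tail_K
    have h6 : ((p.S - 1 - r : ℕ) : ℤ) = (p.S : ℤ) - 1 - r := by omega
    have h7 : (z : ℝ) ^ ((p.S : ℤ) - 1 - r) = (z : ℝ) ^ (p.S - 1 - r) := by
      rw [← h6, zpow_natCast]
    rw [h6, h7, hPw, mul_add, pow_add]
    ring
  have hdiff : TT p z ((z : ℝ) ^ p.n) * (vA p A z ((z : ℤ) ^ p.n) l₁ l₂ : ℝ) -
      (vB p A z ((z : ℤ) ^ p.n) l₁ l₂ : ℝ) =
      ∑ i ∈ range p.P, ∑ β ∈ range p.B, (A i β : ℝ) * (p.q : ℝ) ^ (2 * p.Q) * (Pw * (s i β / Pw - fin i β)) := by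
    rw [hTA, hVB, ← hsp, mul_sum, ← sum_sub_distrib]
    refine sum_congr rfl fun i _ => ?_
    rw [mul_sum, ← sum_sub_distrib]
    refine sum_congr rfl fun β _ => ?_
    rw [hfin]
    have h2 : Pw * (s i β / Pw) = s i β := mul_div_cancel₀ _ hPw0.ne'
    rw [mul_sub, h2]
    ring
  obtain ⟨M, hM⟩ : ∃ M : ℝ, M = 16 ^ p.Q * 2 ^ ((p.n + 1) * p.B + l₁ + l₂ + 2) / (z : ℝ) ^ p.R := ⟨_, rfl⟩
  have hM0 : 0 ≤ M := by
    rw [hM]
    positivity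
  have hterm : ∀ i ∈ range p.P, ∀ β ∈ range p.B,
      |(A i β : ℝ) * (p.q : ℝ) ^ (2 * p.Q) * (Pw * (s i β / Pw - fin i β))| ≤
        H * (p.q : ℝ) ^ (2 * p.Q) * (Pw * M) := by
    intro i hi β hβ
    have h2 := Tail_sum p h1 hh hf hn hL hz l₁ l₂ (mem_range.1 hi) (mem_range.1 hβ) (hsum i β)
    rw [← hM] at h2
    rw [abs_mul, abs_mul, abs_mul, abs_of_pos hPw0, abs_of_nonneg (by positivity : (0 : ℝ) ≤ (p.q : ℝ) ^ (2 * p.Q))]
    have h3 : |s i β / Pw - fin i β| ≤ M := by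
      rw [hfin]
      exact h2
    have h4 := mul_le_mul_of_nonneg_left h3 hPw0.le
    exact mul_le_mul (mul_le_mul_of_nonneg_right (hA i β) (by positivity)) h4 (by positivity) (by positivity)
  rw [hdiff, ← hM]
  calc |∑ i ∈ range p.P, ∑ β ∈ range p.B, (A i β : ℝ) * (p.q : ℝ) ^ (2 * p.Q) * (Pw * (s i β / Pw - fin i β))|
      ≤ ∑ i ∈ range p.P, |∑ β ∈ range p.B,
          (A i β : ℝ) * (p.q : ℝ) ^ (2 * p.Q) * (Pw * (s i β / Pw - fin i β))| := abs_sum_le_sum_abs _ _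
    _ ≤ ∑ i ∈ range p.P, ∑ β ∈ range p.B,
          |(A i β : ℝ) * (p.q : ℝ) ^ (2 * p.Q) * (Pw * (s i β / Pw - fin i β))| :=
        sum_le_sum fun i _ => abs_sum_le_sum_abs _ _
    _ ≤ ∑ i ∈ range p.P, ∑ β ∈ range p.B, H * (p.q : ℝ) ^ (2 * p.Q) * (Pw * M) :=
        sum_le_sum fun i hi => sum_le_sum fun β hβ => hterm i hi β hβ
    _ = Pw * (p.P * p.B * (H * (p.q : ℝ) ^ (2 * p.Q)) * M) := by
        rw [sum_const, sum_const, card_range, card_range, nsmul_eq_mul, nsmul_eq_mul]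
        ring
    _ ≤ _ := mul_le_mul_of_nonneg_right hPwle (by positivity)

end Pool.Agent.NLF
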