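import Mathlib

/-!
# NLF-VE: evaluation of power series at `xi = 1 / (z (1 - g tau))` (paper: theoremF_h43.md, V4; helper79)

`Adm` is the ring of the power series over `ℝ` which converge absolutely at `1/8`; for `z ≥ 16`, `g ≥ 0` the
evaluation `E` at `xi z g` is a ring homomorphism from `Adm` to the power series in `tau`.
-/

namespace Pool.Agent.NLF

open PowerSeries Finset

/-- `1 / (z (1 - g tau))` -/
noncomputable def xi (z g : ℝ) : ℝ⟦X⟧ := PowerSeries.mk fun l => z⁻¹ * g ^ l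

/-- `z (1 - g tau)` -/
noncomputable def Zr (z g : ℝ) : ℝ⟦X⟧ := C z * (1 - C g * X)

theorem xi_mul_Zr {z : ℝ} (hz : z ≠ 0) (g : ℝ) : xi z g * Zr z g = 1 := by
  have h1 : xi z g * Zr z g = C z * (xi z g - C g * (xi z g * X)) := by
    unfold Zr
    ring
  rw [h1]
  ext n
  rw [coeff_C_mul, map_sub, coeff_C_mul]
  cases n with
  | zero => simp [xi, hz]
  | succ n =>
    rw [coeff_succ_mul_X, coeff_one, if_neg (Nat.succ_ne_zero n)]
    simp only [xi, coeff_mk]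
    ring

/-- the coefficients of the powers of `xi` -/
theorem coeff_xi_pow {z g : ℝ} (hz : 0 < z) (hg : 0 ≤ g) (m l : ℕ) :
    |coeff l (xi z g ^ m)| ≤ (2 / z) ^ m * (2 * g) ^ l := by
  induction m generalizing l with
  | zero =>
    rw [pow_zero, pow_zero, one_mul, coeff_one]
    split_ifs with h
    · rw [h, pow_zero, abs_one]
    · rw [abs_zero]
      positivity
  | succ m ih =>
    rw [pow_succ', coeff_mul]
    refine (Finset.abs_sum_le_sum_abs _ _).trans ?_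
    have h1 : ∀ p ∈ antidiagonal l, |coeff p.1 (xi z g) * coeff p.2 (xi z g ^ m)| ≤
        z⁻¹ * (2 / z) ^ m * g ^ l * 2 ^ p.2 := by
      rintro ⟨a, b⟩ hab
      rw [HasAntidiagonal.mem_antidiagonal] at hab
      simp only at hab ⊢
      rw [abs_mul]
      have h2 : |coeff a (xi z g)| = z⁻¹ * g ^ a := by
        rw [xi, coeff_mk, abs_of_nonneg (by positivity)]
      rw [h2]
      have h3 : z⁻¹ * g ^ a * |coeff b (xi z g ^ m)| ≤ z⁻¹ * g ^ a * ((2 / z) ^ m * (2 * g) ^ b) :=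
        mul_le_mul_of_nonneg_left (ih b) (by positivity)
      refine h3.trans (le_of_eq ?_)
      rw [mul_pow 2 g b, ← hab, pow_add]
      ring
    refine (Finset.sum_le_sum h1).trans ?_
    rw [← Finset.mul_sum]
    have h4 : ∑ p ∈ antidiagonal l, (2 : ℝ) ^ p.2 ≤ 2 * 2 ^ l := by
      rw [Finset.Nat.sum_antidiagonal_eq_sum_range_succ_mk]
      have h5 : ∑ k ∈ range (l + 1), (2 : ℝ) ^ (l - k) = ∑ k ∈ range (l + 1), (2 : ℝ) ^ k := by
        rw [← Finset.sum_range_reflect]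
        refine Finset.sum_congr rfl fun k hk => ?_
        rw [mem_range] at hk
        congr 1
        omega
      simp only [Nat.succ_eq_add_one] at *
      rw [h5, geom_sum_eq (by norm_num)]
      rw [pow_succ]
      linarith
    have h6 : z⁻¹ * (2 / z) ^ m * g ^ l * ∑ p ∈ antidiagonal l, (2 : ℝ) ^ p.2 ≤
        z⁻¹ * (2 / z) ^ m * g ^ l * (2 * 2 ^ l) := mul_le_mul_of_nonneg_left h4 (by positivity)
    refine h6.trans (le_of_eq ?_)
    rw [mul_pow, pow_succ]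
    ring

/-- the power series which converge absolutely at `1/8` -/
def AdmP (f : ℝ⟦X⟧) : Prop := Summable fun m : ℕ => |coeff m f| * (1 / 8) ^ m

private theorem ve_norm {f : ℝ⟦X⟧} (hf : AdmP f) :
    Summable fun m : ℕ => ‖coeff m f * (1 / 8 : ℝ) ^ m‖ := by
  refine hf.congr fun m => ?_
  rw [Real.norm_eq_abs, abs_mul, abs_of_nonneg (by positivity : (0 : ℝ) ≤ (1 / 8) ^ m)]

theorem adm_mul {f h : ℝ⟦X⟧} (hf : AdmP f) (hh : AdmP h) : AdmP (f * h) := by
  have h1 := summable_norm_sum_mul_antidiagonal_of_summable_norm (ve_norm hf) (ve_norm hh)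
  refine h1.congr fun m => ?_
  rw [Real.norm_eq_abs, coeff_mul]
  have h2 : ∑ kl ∈ antidiagonal m, coeff kl.1 f * (1 / 8 : ℝ) ^ kl.1 * (coeff kl.2 h * (1 / 8) ^ kl.2) =
      (∑ p ∈ antidiagonal m, coeff p.1 f * coeff p.2 h) * (1 / 8) ^ m := by
    rw [Finset.sum_mul]
    refine Finset.sum_congr rfl ?_
    rintro ⟨a, b⟩ hab
    rw [HasAntidiagonal.mem_antidiagonal] at hab
    simp only at hab ⊢
    rw [← hab, pow_add]
    ring
  rw [h2, abs_mul, abs_of_nonneg (by positivity : (0 : ℝ) ≤ (1 / 8) ^ m)]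

theorem adm_add {f h : ℝ⟦X⟧} (hf : AdmP f) (hh : AdmP h) : AdmP (f + h) := by
  refine Summable.of_nonneg_of_le (fun m => by positivity) (fun m => ?_) (Summable.add hf hh)
  rw [map_add, ← add_mul]
  exact mul_le_mul_of_nonneg_right (abs_add_le _ _) (by positivity)

theorem adm_neg {f : ℝ⟦X⟧} (hf : AdmP f) : AdmP (-f) := by
  refine hf.congr fun m => ?_
  rw [map_neg, abs_neg]

theorem adm_of_fin {f : ℝ⟦X⟧} {N : ℕ} (h : ∀ m, N ≤ m → coeff m f = 0) : AdmP f := by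
  refine summable_of_ne_finset_zero (s := range N) fun m hm => ?_
  rw [mem_range, not_lt] at hm
  rw [h m hm, abs_zero, zero_mul]

/-- the ring of the power series which converge absolutely at `1/8` -/
noncomputable def Adm : Subring ℝ⟦X⟧ where
  carrier := {f | AdmP f}
  mul_mem' := adm_mul
  add_mem' := adm_add
  neg_mem' := adm_neg
  one_mem' := adm_of_fin (N := 1) fun m hm => by rw [coeff_one, if_neg (by omega)]
  zero_mem' := adm_of_fin (N := 0) fun m _ => by rw [map_zero]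

theorem mem_Adm {f : ℝ⟦X⟧} : f ∈ Adm ↔ Summable fun m : ℕ => |coeff m f| * (1 / 8) ^ m := Iff.rfl

theorem X_mem_Adm : (X : ℝ⟦X⟧) ∈ Adm :=
  adm_of_fin (N := 2) fun m hm => by rw [coeff_X, if_neg (by omega)]

theorem C_mem_Adm (r : ℝ) : (C r : ℝ⟦X⟧) ∈ Adm :=
  adm_of_fin (N := 1) fun m hm => by rw [coeff_C, if_neg (by omega)]

theorem poly_mem_Adm (p : Polynomial ℝ) : (p : ℝ⟦X⟧) ∈ Adm :=
  adm_of_fin (N := p.natDegree + 1) fun m hm => by
    rw [Polynomial.coeff_coe, Polynomial.coeff_eq_zero_of_natDegree_lt (by omega)]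

/-- the value at `xi z g` (a ring homomorphism on `Adm` for `z ≥ 16`, `g ≥ 0`) -/
noncomputable def ev (z g : ℝ) (f : ℝ⟦X⟧) : ℝ⟦X⟧ :=
  PowerSeries.mk fun l => ∑' m : ℕ, coeff m f * coeff l (xi z g ^ m)

theorem ev_term {z g : ℝ} (hz : 16 ≤ z) (hg : 0 ≤ g) (f : ℝ⟦X⟧) (m l : ℕ) :
    |coeff m f * coeff l (xi z g ^ m)| ≤ |coeff m f| * (1 / 8) ^ m * (2 * g) ^ l := by
  have hz0 : 0 < z := by linarith
  rw [abs_mul, mul_assoc]
  refine mul_le_mul_of_nonneg_left ((coeff_xi_pow hz0 hg m l).trans ?_) (abs_nonneg _)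
  refine mul_le_mul_of_nonneg_right (pow_le_pow_left₀ (by positivity) ?_ m) (by positivity)
  rw [div_le_div_iff₀ hz0 (by norm_num)]
  linarith

theorem ev_summable {z g : ℝ} (hz : 16 ≤ z) (hg : 0 ≤ g) {f : ℝ⟦X⟧} (hf : f ∈ Adm) (l : ℕ) :
    Summable fun m : ℕ => |coeff m f * coeff l (xi z g ^ m)| :=
  Summable.of_nonneg_of_le (fun _ => abs_nonneg _) (fun m => ev_term hz hg f m l)
    (Summable.mul_right _ hf)

theorem ev_summable' {z g : ℝ} (hz : 16 ≤ z) (hg : 0 ≤ g) {f : ℝ⟦X⟧} (hf : f ∈ Adm) (l : ℕ) :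
    Summable fun m : ℕ => coeff m f * coeff l (xi z g ^ m) :=
  (ev_summable hz hg hf l).of_abs

theorem coeff_ev (z g : ℝ) (f : ℝ⟦X⟧) (l : ℕ) :
    coeff l (ev z g f) = ∑' m : ℕ, coeff m f * coeff l (xi z g ^ m) := by
  rw [ev, coeff_mk]

theorem ev_add {z g : ℝ} (hz : 16 ≤ z) (hg : 0 ≤ g) {f h : ℝ⟦X⟧} (hf : f ∈ Adm) (hh : h ∈ Adm) :
    ev z g (f + h) = ev z g f + ev z g h := by
  ext l
  rw [map_add, coeff_ev, coeff_ev, coeff_ev,
    ← (ev_summable' hz hg hf l).tsum_add (ev_summable' hz hg hh l)]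
  exact tsum_congr fun m => by rw [map_add, add_mul]

theorem ev_mul {z g : ℝ} (hz : 16 ≤ z) (hg : 0 ≤ g) {f h : ℝ⟦X⟧} (hf : f ∈ Adm) (hh : h ∈ Adm) :
    ev z g (f * h) = ev z g f * ev z g h := by
  ext l
  have h1 : ∀ p ∈ antidiagonal l, coeff p.1 (ev z g f) * coeff p.2 (ev z g h) =
      ∑' m : ℕ, ∑ k ∈ antidiagonal m, (coeff k.1 f * coeff p.1 (xi z g ^ k.1)) *
        (coeff k.2 h * coeff p.2 (xi z g ^ k.2)) := by
    intro p _
    rw [coeff_ev, coeff_ev]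
    exact tsum_mul_tsum_eq_tsum_sum_antidiagonal_of_summable_norm
      ((ev_summable hz hg hf p.1).congr fun m => (Real.norm_eq_abs _).symm)
      ((ev_summable hz hg hh p.2).congr fun m => (Real.norm_eq_abs _).symm)
  have h2 : ∀ p ∈ antidiagonal l, Summable fun m : ℕ => ∑ k ∈ antidiagonal m,
      (coeff k.1 f * coeff p.1 (xi z g ^ k.1)) * (coeff k.2 h * coeff p.2 (xi z g ^ k.2)) := by
    intro p _
    exact (summable_norm_sum_mul_antidiagonal_of_summable_norm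
      ((ev_summable hz hg hf p.1).congr fun m => (Real.norm_eq_abs _).symm)
      ((ev_summable hz hg hh p.2).congr fun m => (Real.norm_eq_abs _).symm)).of_norm
  rw [coeff_mul, Finset.sum_congr rfl h1, ← Summable.tsum_finsetSum h2, coeff_ev]
  refine tsum_congr fun m => ?_
  rw [Finset.sum_comm, coeff_mul, Finset.sum_mul]
  refine Finset.sum_congr rfl ?_
  rintro ⟨a, b⟩ hab
  rw [HasAntidiagonal.mem_antidiagonal] at hab
  simp only at hab ⊢
  rw [← hab, pow_add, coeff_mul, Finset.mul_sum]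
  refine Finset.sum_congr rfl fun p _ => ?_
  ring

theorem ev_C (z g r : ℝ) : ev z g (C r) = C r := by
  ext l
  rw [coeff_ev, tsum_eq_single 0]
  · rw [coeff_C, if_pos rfl, pow_zero, ← coeff_C_mul, mul_one]
  · intro m hm
    rw [coeff_C, if_neg hm, zero_mul]

theorem ev_X (z g : ℝ) : ev z g X = xi z g := by
  ext l
  rw [coeff_ev, tsum_eq_single 1]
  · rw [coeff_X, if_pos rfl, pow_one, one_mul]
  · intro m hm
    rw [coeff_X, if_neg hm, zero_mul]

/-- the evaluation as a ring homomorphism -/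
noncomputable def E {z g : ℝ} (hz : 16 ≤ z) (hg : 0 ≤ g) : Adm →+* ℝ⟦X⟧ where
  toFun f := ev z g f
  map_one' := by
    have := ev_C z g 1
    rw [map_one] at this
    exact this
  map_zero' := by
    have := ev_C z g 0
    rw [map_zero] at this
    exact this
  map_add' f h := ev_add hz hg f.2 h.2
  map_mul' f h := ev_mul hz hg f.2 h.2

theorem E_apply {z g : ℝ} (hz : 16 ≤ z) (hg : 0 ≤ g) (f : Adm) : E hz hg f = ev z g f := rfl

theorem ev_pow {z g : ℝ} (hz : 16 ≤ z) (hg : 0 ≤ g) {f : ℝ⟦X⟧} (hf : f ∈ Adm) (k : ℕ) :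
    ev z g (f ^ k) = ev z g f ^ k :=
  map_pow (E hz hg) ⟨f, hf⟩ k

theorem ev_sum {z g : ℝ} (hz : 16 ≤ z) (hg : 0 ≤ g) {ι : Type*} (s : Finset ι) (f : ι → ℝ⟦X⟧)
    (hf : ∀ i, f i ∈ Adm) : ev z g (∑ i ∈ s, f i) = ∑ i ∈ s, ev z g (f i) := by
  have h := map_sum (E hz hg) (fun i => (⟨f i, hf i⟩ : Adm)) s
  rw [E_apply] at h
  have e : ((∑ i ∈ s, (⟨f i, hf i⟩ : Adm) : Adm) : ℝ⟦X⟧) = ∑ i ∈ s, f i := by
    rw [AddSubmonoidClass.coe_finsetSum]
  rw [e] at h
  exact h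

theorem ev_sub {z g : ℝ} (hz : 16 ≤ z) (hg : 0 ≤ g) {f h : ℝ⟦X⟧} (hf : f ∈ Adm) (hh : h ∈ Adm) :
    ev z g (f - h) = ev z g f - ev z g h :=
  map_sub (E hz hg) ⟨f, hf⟩ ⟨h, hh⟩

/-- bound for the coefficients of a value -/
theorem abs_coeff_ev {z g : ℝ} (hz : 16 ≤ z) (hg : 0 ≤ g) {f : ℝ⟦X⟧} {b : ℕ → ℝ}
    (hb : ∀ m, |coeff m f| ≤ b m) (hs : Summable fun m => b m * (2 / z) ^ m) (l : ℕ) :
    |coeff l (ev z g f)| ≤ (∑' m, b m * (2 / z) ^ m) * (2 * g) ^ l := by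
  have hz0 : 0 < z := by linarith
  have h1 : ∀ m, |coeff m f * coeff l (xi z g ^ m)| ≤ b m * (2 / z) ^ m * (2 * g) ^ l := by
    intro m
    rw [abs_mul, mul_assoc]
    refine mul_le_mul (hb m) (coeff_xi_pow hz0 hg m l) (abs_nonneg _) ((abs_nonneg _).trans (hb m))
  have h2 : Summable fun m => b m * (2 / z) ^ m * (2 * g) ^ l := hs.mul_right _
  have h3 : Summable fun m => |coeff m f * coeff l (xi z g ^ m)| :=
    Summable.of_nonneg_of_le (fun _ => abs_nonneg _) h1 h2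
  rw [coeff_ev, ← tsum_mul_right]
  have h4 : |∑' m : ℕ, coeff m f * coeff l (xi z g ^ m)| ≤
      ∑' m : ℕ, |coeff m f * coeff l (xi z g ^ m)| := by
    have := norm_tsum_le_tsum_norm (h3.congr fun m => (Real.norm_eq_abs _).symm)
    simpa only [Real.norm_eq_abs] using this
  exact h4.trans (h3.tsum_le_tsum h1 h2)

/-- `q`-th roots with positive constant terms are unique -/
theorem pow_inj_pos {A B : ℝ⟦X⟧} {q : ℕ} (hq : 1 ≤ q) (h : A ^ q = B ^ q)
    (hA : 0 < constantCoeff A) (hB : 0 < constantCoeff B) : A = B := by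
  have h1 := Commute.all A B |>.mul_geom_sum₂ q
  have h2 : (∑ i ∈ range q, A ^ i * B ^ (q - 1 - i)) ≠ 0 := by
    intro h3
    have h4 : constantCoeff (∑ i ∈ range q, A ^ i * B ^ (q - 1 - i)) = 0 := by rw [h3, map_zero]
    rw [map_sum] at h4
    have h5 : 0 < ∑ i ∈ range q, constantCoeff (A ^ i * B ^ (q - 1 - i)) := by
      refine Finset.sum_pos (fun i _ => ?_) ⟨0, mem_range.2 hq⟩
      rw [map_mul, map_pow, map_pow]
      positivity
    exact absurd h4 (ne_of_gt h5)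
  rw [h, sub_self] at h1
  rcases mul_eq_zero.1 h1 with h3 | h3
  · exact sub_eq_zero.1 h3
  · exact absurd h3 h2

end Pool.Agent.NLF
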