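import Pool.Agent.NLF.VE

/-!
# NLF-VF: the analytic part of V4 and V5 (paper: theoremF_h43.md; helper79)

`U = t Theta` is `kappa z(tau)^J psi(1 / z(tau))`, and the coefficients of
`U cA(z(tau)) - cB(z(tau))` are small.
-/

namespace Pool.Agent.NLF

open PowerSeries Finset

/-! ## the series psi -/

private theorem vf_lt_two_pow (m : ℕ) : (m : ℝ) + 1 ≤ 2 ^ m := by
  have : m + 1 ≤ 2 ^ m := Nat.lt_two_pow_self
  exact_mod_cast this

theorem psi_adm {ψ : ℝ⟦X⟧} (hb : ∀ m, |coeff m ψ| ≤ m + 1) : ψ ∈ Adm := by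
  rw [mem_Adm]
  refine Summable.of_nonneg_of_le (fun m => by positivity) (fun m => ?_)
    (summable_geometric_of_lt_one (by norm_num : (0 : ℝ) ≤ 1 / 4) (by norm_num))
  have h1 : |coeff m ψ| ≤ 2 ^ m := (hb m).trans (vf_lt_two_pow m)
  calc |coeff m ψ| * (1 / 8 : ℝ) ^ m ≤ 2 ^ m * (1 / 8) ^ m :=
        mul_le_mul_of_nonneg_right h1 (by positivity)
    _ = (1 / 4) ^ m := by rw [← mul_pow]; norm_num

theorem ev_psi_pos {z g : ℝ} (hz : 16 ≤ z) (hg : 0 ≤ g) {ψ : ℝ⟦X⟧} (h0 : coeff 0 ψ = 1)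
    (hb : ∀ m, |coeff m ψ| ≤ m + 1) : 0 < constantCoeff (ev z g ψ) := by
  have hz0 : 0 < z := by linarith
  rw [← coeff_zero_eq_constantCoeff_apply, coeff_ev]
  have hs := ev_summable' hz hg (psi_adm hb) 0
  rw [hs.tsum_eq_zero_add]
  have hx : ∀ m, coeff 0 (xi z g ^ m) = (z⁻¹) ^ m := by
    intro m
    rw [coeff_zero_eq_constantCoeff_apply, map_pow, ← coeff_zero_eq_constantCoeff_apply, xi,
      coeff_mk, pow_zero, mul_one]
  have h1 : ∀ m, |coeff (m + 1) ψ * coeff 0 (xi z g ^ (m + 1))| ≤ (1 / 8) * (1 / 8 : ℝ) ^ m := by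
    intro m
    rw [hx, abs_mul, abs_of_nonneg (by positivity : (0 : ℝ) ≤ (z⁻¹) ^ (m + 1))]
    have h2 : |coeff (m + 1) ψ| ≤ 2 ^ (m + 1) := (hb _).trans (vf_lt_two_pow _)
    have h3 : (z⁻¹) ^ (m + 1) ≤ (1 / 16 : ℝ) ^ (m + 1) := by
      refine pow_le_pow_left₀ (by positivity) ?_ _
      rw [inv_eq_one_div]
      exact one_div_le_one_div_of_le (by norm_num) hz
    calc |coeff (m + 1) ψ| * (z⁻¹) ^ (m + 1) ≤ 2 ^ (m + 1) * (1 / 16) ^ (m + 1) :=
          mul_le_mul h2 h3 (by positivity) (by positivity)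
      _ = (1 / 8) * (1 / 8) ^ m := by rw [← mul_pow, pow_succ']; norm_num
  have hg8 : Summable fun m : ℕ => (1 / 8) * (1 / 8 : ℝ) ^ m :=
    (summable_geometric_of_lt_one (by norm_num) (by norm_num)).mul_left _
  have h4 : Summable fun m => |coeff (m + 1) ψ * coeff 0 (xi z g ^ (m + 1))| :=
    Summable.of_nonneg_of_le (fun _ => abs_nonneg _) h1 hg8
  have h5 : |∑' m : ℕ, coeff (m + 1) ψ * coeff 0 (xi z g ^ (m + 1))| ≤
      ∑' m : ℕ, |coeff (m + 1) ψ * coeff 0 (xi z g ^ (m + 1))| := by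
    have := norm_tsum_le_tsum_norm (h4.congr fun m => (Real.norm_eq_abs _).symm)
    simpa only [Real.norm_eq_abs] using this
  have h6 := h5.trans (h4.tsum_le_tsum h1 hg8)
  rw [tsum_mul_left, tsum_geometric_of_lt_one (by norm_num) (by norm_num)] at h6
  rw [hx, pow_zero, h0]
  have h7 := (abs_le.1 h6).1
  norm_num at h7 ⊢
  linarith

/-! ## the identification of `t Theta` -/

theorem one_sub_pow_ev {z g : ℝ} (hz : 16 ≤ z) (hg : 0 ≤ g) (n f : ℕ) :
    ev z g ((1 - X ^ n) ^ f) = (1 - xi z g ^ n) ^ f := by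
  have hx : E hz hg ⟨X, X_mem_Adm⟩ = xi z g := ev_X z g
  have h := map_pow (E hz hg) (1 - (⟨X, X_mem_Adm⟩ : Adm) ^ n) f
  rw [map_sub, map_one, map_pow (E hz hg) (⟨X, X_mem_Adm⟩ : Adm) n, hx] at h
  exact h

/-- the `q`-th power of `z(tau)^J psi(1 / z(tau))` -/
theorem That_pow {q h e f J n n2 : ℕ} {z g : ℝ} (hz : 16 ≤ z) (hg : 0 ≤ g)
    (heq : q * J + h = e * n2 + f * n) {ψ : ℝ⟦X⟧} (hψ : ψ ∈ Adm)
    (hψ1 : ψ ^ q * (1 - X) ^ h = (1 - X ^ n) ^ f) :
    (Zr z g ^ J * ev z g ψ) ^ q * (Zr z g - 1) ^ h =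
      Zr z g ^ (e * n2) * (Zr z g ^ n - 1) ^ f := by
  have hz0 : z ≠ 0 := by
    intro h
    rw [h] at hz
    norm_num at hz
  have hX1 : ((1 - X) ^ h : ℝ⟦X⟧) ∈ Adm := pow_mem (sub_mem (one_mem _) X_mem_Adm) h
  have h1 : ev z g ψ ^ q * (1 - xi z g) ^ h = (1 - xi z g ^ n) ^ f := by
    rw [← one_sub_pow_ev hz hg n f, ← hψ1, ev_mul hz hg (pow_mem hψ q) hX1, ev_pow hz hg hψ]
    congr 1
    have := one_sub_pow_ev hz hg 1 h
    rw [pow_one, pow_one] at this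
    exact this.symm
  have hx := xi_mul_Zr hz0 g
  have h2 : Zr z g - 1 = Zr z g * (1 - xi z g) := by
    rw [mul_sub, mul_one, mul_comm (Zr z g), hx]
  have h3 : Zr z g ^ n - 1 = Zr z g ^ n * (1 - xi z g ^ n) := by
    rw [mul_sub, mul_one, ← mul_pow, mul_comm (Zr z g), hx, one_pow]
  calc (Zr z g ^ J * ev z g ψ) ^ q * (Zr z g - 1) ^ h
      = Zr z g ^ (q * J + h) * (ev z g ψ ^ q * (1 - xi z g) ^ h) := by
        rw [h2, mul_pow, mul_pow, ← pow_mul, pow_add, mul_comm J q]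
        ring
    _ = Zr z g ^ (e * n2 + f * n) * (1 - xi z g ^ n) ^ f := by rw [h1, heq]
    _ = Zr z g ^ (e * n2) * (Zr z g ^ n - 1) ^ f := by
        rw [h3, mul_pow, ← pow_mul, pow_add, mul_comm f n]
        ring

private theorem vf_kappa {δ : ℝ} (h0 : 0 ≤ δ) (h1 : δ < 1) {e q : ℕ} (hq : 1 ≤ q) (he : e ≤ q) :
    ∃ κ : ℝ, 0 < κ ∧ κ ≤ 1 ∧ 1 - κ ≤ δ ∧ κ ^ q = (1 - δ) ^ e := by
  have hp : 0 < 1 - δ := by linarith
  have hq0 : q ≠ 0 := by omega
  refine ⟨((1 - δ) ^ e) ^ ((q : ℝ)⁻¹), by positivity, ?_, ?_, ?_⟩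
  · exact Real.rpow_le_one (by positivity) (pow_le_one₀ hp.le (by linarith)) (by positivity)
  · have h2 : (1 - δ) ^ q ≤ (1 - δ) ^ e := pow_le_pow_of_le_one hp.le (by linarith) he
    have h3 : ((1 - δ) ^ q) ^ ((q : ℝ)⁻¹) ≤ ((1 - δ) ^ e) ^ ((q : ℝ)⁻¹) :=
      Real.rpow_le_rpow (by positivity) h2 (by positivity)
    rw [Real.pow_rpow_inv_natCast hp.le hq0] at h3
    linarith
  · exact Real.rpow_inv_natCast_pow (by positivity) hq0

/-- V4: `t Theta = kappa z(tau)^J psi(1 / z(tau))` -/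
theorem t_theta {q h e f J n n2 : ℕ} {z g t : ℝ} (hz : 16 ≤ z) (hg : 0 ≤ g) (hq : 1 ≤ q)
    (he : e ≤ q) (hn2 : 1 ≤ n2) (ht : 0 < t) (heq : q * J + h = e * n2 + f * n) {ψ Θ : ℝ⟦X⟧}
    (h0 : coeff 0 ψ = 1) (hb : ∀ m, |coeff m ψ| ≤ m + 1)
    (hψ1 : ψ ^ q * (1 - X) ^ h = (1 - X ^ n) ^ f) (hΘ0 : constantCoeff Θ = 1)
    (hΘ : (C t * Θ) ^ q * (Zr z g - 1) ^ h =
      C ((1 - (z⁻¹) ^ n2) ^ e) * (Zr z g ^ (e * n2) * (Zr z g ^ n - 1) ^ f)) :
    ∃ κ : ℝ, 0 < κ ∧ κ ≤ 1 ∧ 1 - κ ≤ (z⁻¹) ^ n2 ∧ C t * Θ = C κ * (Zr z g ^ J * ev z g ψ) := by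
  have hz0 : 0 < z := by linarith
  have hzi : z⁻¹ < 1 := inv_lt_one_of_one_lt₀ (by linarith)
  obtain ⟨κ, hκ0, hκ1, hκ2, hκ3⟩ := vf_kappa (e := e) (q := q) (δ := (z⁻¹) ^ n2) (by positivity)
    (pow_lt_one₀ (by positivity) hzi (by omega)) hq he
  refine ⟨κ, hκ0, hκ1, hκ2, ?_⟩
  have h1 := That_pow hz hg heq (psi_adm hb) hψ1
  have hZ : constantCoeff (Zr z g) = z := by simp [Zr]
  have hne : (Zr z g - 1) ^ h ≠ 0 := by
    refine pow_ne_zero _ fun h2 => ?_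
    have h3 : constantCoeff (Zr z g - 1) = 0 := by rw [h2, map_zero]
    rw [map_sub, map_one, hZ] at h3
    linarith
  have h4 : (C t * Θ) ^ q = (C κ * (Zr z g ^ J * ev z g ψ)) ^ q := by
    refine mul_right_cancel₀ hne ?_
    rw [hΘ, ← h1, mul_pow (C κ), ← map_pow, hκ3, mul_assoc]
  refine pow_inj_pos hq h4 ?_ ?_
  · rw [map_mul, constantCoeff_C, hΘ0, mul_one]
    exact ht
  · rw [map_mul, map_mul, constantCoeff_C, map_pow, hZ]
    exact mul_pos hκ0 (mul_pos (by positivity) (ev_psi_pos hz hg h0 hb))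

/-! ## smallness -/

private theorem vf_coeff_Zr {z g : ℝ} (hz : 0 < z) (hg : 0 ≤ g) (m l : ℕ) :
    |coeff l (Zr z g ^ m)| ≤ (2 * z) ^ m * (2 * g) ^ l := by
  induction m generalizing l with
  | zero =>
    rw [pow_zero, pow_zero, one_mul, coeff_one]
    split_ifs with h
    · rw [h, pow_zero, abs_one]
    · rw [abs_zero]
      positivity
  | succ m ih =>
    have h1 : Zr z g ^ (m + 1) = C z * Zr z g ^ m - C (z * g) * (Zr z g ^ m * X) := by
      rw [pow_succ]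
      unfold Zr
      rw [map_mul]
      ring
    rw [h1, map_sub, coeff_C_mul, coeff_C_mul]
    cases l with
    | zero =>
      rw [coeff_zero_mul_X, mul_zero, sub_zero, abs_mul, abs_of_pos hz]
      have := mul_le_mul_of_nonneg_left (ih 0) hz.le
      refine this.trans ?_
      rw [pow_zero, mul_one, mul_one, pow_succ]
      have h2 : 0 < (2 * z) ^ m := by positivity
      nlinarith
    | succ l =>
      rw [coeff_succ_mul_X]
      have h2 : |z * coeff (l + 1) (Zr z g ^ m)| ≤ z * ((2 * z) ^ m * (2 * g) ^ (l + 1)) := by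
        rw [abs_mul, abs_of_pos hz]
        exact mul_le_mul_of_nonneg_left (ih _) hz.le
      have h3 : |z * g * coeff l (Zr z g ^ m)| ≤ z * g * ((2 * z) ^ m * (2 * g) ^ l) := by
        rw [abs_mul, abs_of_nonneg (by positivity)]
        exact mul_le_mul_of_nonneg_left (ih _) (by positivity)
      refine (abs_sub _ _).trans ((add_le_add h2 h3).trans ?_)
      have h4 : 0 ≤ (2 * z) ^ m * (2 * g) ^ l := by positivity
      have h5 : z * ((2 * z) ^ m * (2 * g) ^ (l + 1)) + z * g * ((2 * z) ^ m * (2 * g) ^ l) =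
          3 * (z * g) * ((2 * z) ^ m * (2 * g) ^ l) := by ring
      have h6 : (2 * z) ^ (m + 1) * (2 * g) ^ (l + 1) =
          4 * (z * g) * ((2 * z) ^ m * (2 * g) ^ l) := by ring
      rw [h5, h6]
      exact mul_le_mul_of_nonneg_right (by nlinarith [mul_nonneg hz.le hg]) h4

/-- the bound for the coefficients of the form -/
theorem coeff_form_le {ψ : ℝ⟦X⟧} (hb : ∀ m, |coeff m ψ| ≤ m + 1) {A : ℕ → ℝ} {P : ℕ} {H : ℝ}
    (hH : ∀ i < P, |A i| ≤ H) (r : ℕ) :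
    |coeff r ((∑ i ∈ range P, C (A i) * X ^ i) * ψ)| ≤ P * H * (r + 1) := by
  rw [Finset.sum_mul, map_sum]
  refine (Finset.abs_sum_le_sum_abs _ _).trans ?_
  have h1 : ∀ i ∈ range P, |coeff r (C (A i) * X ^ i * ψ)| ≤ H * (r + 1) := by
    intro i hi
    have hHi := hH i (mem_range.1 hi)
    have hH0 : 0 ≤ H := (abs_nonneg _).trans hHi
    rw [mul_assoc, coeff_C_mul, mul_comm (X ^ i) ψ, coeff_mul_X_pow']
    split_ifs with h2
    · rw [abs_mul]
      refine mul_le_mul hHi ((hb _).trans ?_) (abs_nonneg _) hH0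
      have : ((r - i : ℕ) : ℝ) ≤ r := by exact_mod_cast Nat.sub_le r i
      linarith
    · rw [mul_zero, abs_zero]
      positivity
  refine (Finset.sum_le_sum h1).trans (le_of_eq ?_)
  rw [Finset.sum_const, card_range, nsmul_eq_mul]
  ring

private theorem vf_split {z g : ℝ} (hz : 16 ≤ z) (hg : 0 ≤ g) {G : ℝ⟦X⟧} (hG : G ∈ Adm) {S : ℕ}
    (hS : 1 ≤ S) :
    Zr z g ^ (S - 1) * ev z g G = ∑ r ∈ range S, C (coeff r G) * Zr z g ^ (S - 1 - r) +
      ev z g (PowerSeries.mk fun d => if d = 0 then 0 else coeff (S - 1 + d) G) := by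
  have hz0 : z ≠ 0 := by
    intro h
    rw [h] at hz
    norm_num at hz
  have hx := xi_mul_Zr hz0 g
  obtain ⟨D, hD⟩ : ∃ D : ℝ⟦X⟧, D = PowerSeries.mk fun d => if d = 0 then 0 else coeff (S - 1 + d) G :=
    ⟨_, rfl⟩
  rw [← hD]
  -- G = truncation + X^(S-1) D
  have hT : (∑ r ∈ range S, C (coeff r G) * X ^ r : ℝ⟦X⟧) ∈ Adm :=
    sum_mem fun r _ => mul_mem (C_mem_Adm _) (pow_mem X_mem_Adm _)
  have h1 : G = (∑ r ∈ range S, C (coeff r G) * X ^ r) + X ^ (S - 1) * D := by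
    ext m
    rw [map_add, map_sum, mul_comm (X ^ (S - 1)) D, coeff_mul_X_pow']
    have h2 : ∑ r ∈ range S, coeff m (C (coeff r G) * X ^ r) = if m < S then coeff m G else 0 := by
      simp only [coeff_C_mul, coeff_X_pow]
      by_cases hm : m < S
      · rw [if_pos hm, Finset.sum_eq_single m]
        · simp
        · intro b _ hb
          simp [Ne.symm hb]
        · intro h3
          exact absurd (mem_range.2 hm) h3
      · rw [if_neg hm]
        refine Finset.sum_eq_zero fun b hb => ?_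
        have : m ≠ b := by
          rintro rfl
          exact hm (mem_range.1 hb)
        simp [this]
    rw [h2, hD]
    by_cases hm : m < S
    · rw [if_pos hm]
      split_ifs with h3
      · rw [coeff_mk, if_pos (by omega), add_zero]
      · rw [add_zero]
    · rw [if_neg hm, if_pos (by omega), coeff_mk, if_neg (by omega), zero_add]
      congr 2
      omega
  have hDA : D ∈ Adm := by
    have h3 : X ^ (S - 1) * D ∈ Adm := by
      have : X ^ (S - 1) * D = G - ∑ r ∈ range S, C (coeff r G) * X ^ r := by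
        rw [eq_sub_iff_add_eq, add_comm]
        exact h1.symm
      rw [this]
      exact sub_mem hG hT
    rw [mem_Adm] at h3 ⊢
    have h4 := (summable_nat_add_iff (S - 1)).2 h3
    have h5 : ∀ m, |coeff (m + (S - 1)) (X ^ (S - 1) * D)| * (1 / 8 : ℝ) ^ (m + (S - 1)) =
        (1 / 8) ^ (S - 1) * (|coeff m D| * (1 / 8) ^ m) := by
      intro m
      rw [mul_comm (X ^ (S - 1)) D, coeff_mul_X_pow, pow_add]
      ring
    simp only [h5] at h4
    exact (summable_mul_left_iff (by positivity)).1 h4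
  have h6 : ev z g G = (∑ r ∈ range S, C (coeff r G) * xi z g ^ r) + xi z g ^ (S - 1) * ev z g D := by
    conv_lhs => rw [h1]
    rw [ev_add hz hg hT (mul_mem (pow_mem X_mem_Adm _) hDA), ev_mul hz hg (pow_mem X_mem_Adm _) hDA,
      ev_pow hz hg X_mem_Adm, ev_X]
    congr 1
    rw [ev_sum hz hg _ _ (fun r => mul_mem (C_mem_Adm _) (pow_mem X_mem_Adm _))]
    refine Finset.sum_congr rfl fun r _ => ?_
    rw [ev_mul hz hg (C_mem_Adm _) (pow_mem X_mem_Adm _), ev_C, ev_pow hz hg X_mem_Adm, ev_X]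
  have hxp : ∀ k, Zr z g ^ k * xi z g ^ k = 1 := by
    intro k
    rw [← mul_pow, mul_comm (Zr z g), hx, one_pow]
  rw [h6, mul_add, Finset.mul_sum, ← mul_assoc, hxp, one_mul]
  congr 1
  refine Finset.sum_congr rfl fun r hr => ?_
  rw [mem_range] at hr
  have h7 : Zr z g ^ (S - 1) = Zr z g ^ (S - 1 - r) * Zr z g ^ r := by
    rw [← pow_add]
    congr 1
    omega
  calc Zr z g ^ (S - 1) * (C (coeff r G) * xi z g ^ r)
      = C (coeff r G) * Zr z g ^ (S - 1 - r) * (Zr z g ^ r * xi z g ^ r) := by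
        rw [h7]
        ring
    _ = C (coeff r G) * Zr z g ^ (S - 1 - r) := by rw [hxp, mul_one]

private theorem vf_tail {z g : ℝ} (hz : 16 ≤ z) (hg : 0 ≤ g) {G : ℝ⟦X⟧} {S R : ℕ} {B : ℝ}
    (hS : 1 ≤ S) (hB : 0 ≤ B) (hGb : ∀ r, |coeff r G| ≤ B * (r + 1))
    (hG0 : ∀ r, S ≤ r → r < S + R → coeff r G = 0) (l : ℕ) :
    |coeff l (ev z g (PowerSeries.mk fun d => if d = 0 then 0 else coeff (S - 1 + d) G))| ≤
      B * (4 * (S + 1) * (4 / z) ^ (R + 1)) * (2 * g) ^ l := by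
  have hz0 : 0 < z := by linarith
  obtain ⟨b, hbd⟩ : ∃ b : ℕ → ℝ, b = fun d => if d < R + 1 then 0 else B * (S + 1) * 2 ^ d := ⟨_, rfl⟩
  have h1 : ∀ m, |coeff m (PowerSeries.mk fun d => if d = 0 then 0 else coeff (S - 1 + d) G)| ≤ b m := by
    intro m
    rw [coeff_mk, hbd]
    by_cases h2 : m < R + 1
    · simp only [if_pos h2]
      split_ifs with h3
      · rw [abs_zero]
      · rw [hG0 (S - 1 + m) (by omega) (by omega), abs_zero]
    · simp only [if_neg h2]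
      rw [if_neg (by omega)]
      refine (hGb _).trans ?_
      have h3 : ((S - 1 + m : ℕ) : ℝ) + 1 = S + m := by
        have : S - 1 + m + 1 = S + m := by omega
        exact_mod_cast this
      rw [h3, mul_assoc]
      refine mul_le_mul_of_nonneg_left ?_ hB
      have h4 := vf_lt_two_pow m
      have h5 : (0 : ℝ) ≤ S := Nat.cast_nonneg _
      have h6 : (0 : ℝ) ≤ m := Nat.cast_nonneg _
      nlinarith
  have h7 : ∀ m, b (m + (R + 1)) * (2 / z) ^ (m + (R + 1)) =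
      B * (S + 1) * (4 / z) ^ (R + 1) * (4 / z) ^ m := by
    intro m
    rw [hbd]
    simp only
    rw [if_neg (by omega), mul_assoc, ← mul_pow]
    have h8 : (2 : ℝ) * (2 / z) = 4 / z := by ring
    rw [h8, pow_add]
    ring
  have h9 : 4 / z ≤ 1 / 4 := by
    rw [div_le_div_iff₀ hz0 (by norm_num)]
    linarith
  have h10 : 0 ≤ 4 / z := by positivity
  have hgeo : Summable fun m : ℕ => B * (S + 1) * (4 / z) ^ (R + 1) * (4 / z) ^ m :=
    (summable_geometric_of_lt_one h10 (by linarith)).mul_left _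
  have hs : Summable fun m => b m * (2 / z) ^ m := by
    refine (summable_nat_add_iff (R + 1)).1 ?_
    exact hgeo.congr fun m => (h7 m).symm
  have h11 := abs_coeff_ev hz hg h1 hs l
  refine h11.trans (mul_le_mul_of_nonneg_right ?_ (by positivity))
  rw [← hs.sum_add_tsum_nat_add (R + 1)]
  have h12 : ∑ i ∈ range (R + 1), b i * (2 / z) ^ i = 0 := by
    refine Finset.sum_eq_zero fun i hi => ?_
    rw [hbd]
    simp only
    rw [if_pos (mem_range.1 hi), zero_mul]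
  rw [h12, zero_add, tsum_congr h7, tsum_mul_left, tsum_geometric_of_lt_one h10 (by linarith)]
  have h13 : (1 - 4 / z)⁻¹ ≤ 4 := by
    rw [inv_le_comm₀ (by linarith) (by norm_num)]
    linarith
  have h14 : 0 ≤ B * (S + 1) * (4 / z) ^ (R + 1) := by positivity
  have h15 := mul_le_mul_of_nonneg_left h13 h14
  refine h15.trans (le_of_eq ?_)
  ring

/-- V5: the coefficients of `U cA(z(tau)) - cB(z(tau))` are small -/
theorem v_small {z g κ δ H : ℝ} (hz : 16 ≤ z) (hg : 0 ≤ g) {ψ : ℝ⟦X⟧}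
    (hb : ∀ m, |coeff m ψ| ≤ m + 1) {A : ℕ → ℝ} {P J S R : ℕ} (hP : 1 ≤ P) (hS : S = P + J)
    (hH : ∀ i < P, |A i| ≤ H) {G : ℝ⟦X⟧} (hG : G = (∑ i ∈ range P, C (A i) * X ^ i) * ψ)
    (hG0 : ∀ r, S ≤ r → r < S + R → coeff r G = 0)
    (hκ0 : 0 ≤ κ) (hκ1 : κ ≤ 1) (hκ2 : 1 - κ ≤ δ) (l : ℕ) :
    |coeff l (C κ * (Zr z g ^ J * ev z g ψ) * (∑ i ∈ range P, C (A i) * Zr z g ^ (P - 1 - i)) -
      ∑ r ∈ range S, C (coeff r G) * Zr z g ^ (S - 1 - r))| ≤
      P * H * (8 * (S + 1) * (4 / z) ^ (R + 1) + 2 * δ * (2 * z) ^ (S - 1)) * (2 * g) ^ l := by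
  have hz0 : 0 < z := by linarith
  have hzn : z ≠ 0 := hz0.ne'
  have hH0 : 0 ≤ H := (abs_nonneg _).trans (hH 0 (by omega))
  have hδ0 : 0 ≤ δ := by linarith
  have hψ : ψ ∈ Adm := psi_adm hb
  have hpoly : (∑ i ∈ range P, C (A i) * X ^ i : ℝ⟦X⟧) ∈ Adm :=
    sum_mem fun i _ => mul_mem (C_mem_Adm _) (pow_mem X_mem_Adm _)
  have hGA : G ∈ Adm := by
    rw [hG]
    exact mul_mem hpoly hψ
  have hx := xi_mul_Zr hzn g
  have h1 : (Zr z g ^ J * ev z g ψ) * (∑ i ∈ range P, C (A i) * Zr z g ^ (P - 1 - i)) =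
      Zr z g ^ (S - 1) * ev z g G := by
    rw [hG, ev_mul hz hg hpoly hψ, ev_sum hz hg _ _ (fun r => mul_mem (C_mem_Adm _)
      (pow_mem X_mem_Adm _))]
    have h2 : ∀ i ∈ range P, ev z g (C (A i) * X ^ i) = C (A i) * xi z g ^ i := by
      intro i _
      rw [ev_mul hz hg (C_mem_Adm _) (pow_mem X_mem_Adm _), ev_C, ev_pow hz hg X_mem_Adm, ev_X]
    rw [Finset.sum_congr rfl h2, ← mul_assoc, mul_right_comm, Finset.mul_sum, Finset.mul_sum]
    congr 1
    refine Finset.sum_congr rfl fun i hi => ?_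
    rw [mem_range] at hi
    have h3 : Zr z g ^ (S - 1) = Zr z g ^ J * Zr z g ^ (P - 1 - i) * Zr z g ^ i := by
      rw [← pow_add, ← pow_add]
      congr 1
      omega
    rw [h3]
    have h4 : Zr z g ^ i * xi z g ^ i = 1 := by
      rw [← mul_pow, mul_comm (Zr z g), hx, one_pow]
    calc Zr z g ^ J * (C (A i) * Zr z g ^ (P - 1 - i))
        = C (A i) * (Zr z g ^ J * Zr z g ^ (P - 1 - i)) * (Zr z g ^ i * xi z g ^ i) := by
          rw [h4]
          ring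
      _ = _ := by ring
  have hS1 : 1 ≤ S := by omega
  have hsp := vf_split hz hg hGA hS1
  have hGb : ∀ r, |coeff r G| ≤ P * H * (r + 1) := by
    intro r
    rw [hG]
    exact coeff_form_le hb hH r
  have hPH : 0 ≤ (P : ℝ) * H := by positivity
  have htl := vf_tail hz hg (R := R) hS1 hPH hGb hG0 l
  obtain ⟨W, hW⟩ : ∃ W : ℝ⟦X⟧, W = ev z g (PowerSeries.mk fun d => if d = 0 then 0 else
    coeff (S - 1 + d) G) := ⟨_, rfl⟩
  obtain ⟨V, hV⟩ : ∃ V : ℝ⟦X⟧, V = ∑ r ∈ range S, C (coeff r G) * Zr z g ^ (S - 1 - r) := ⟨_, rfl⟩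
  rw [← hW] at htl hsp
  rw [← hV] at hsp ⊢
  have h5 : C κ * (Zr z g ^ J * ev z g ψ) * (∑ i ∈ range P, C (A i) * Zr z g ^ (P - 1 - i)) - V =
      C κ * W - C (1 - κ) * V := by
    rw [mul_assoc, h1, hsp, map_sub, map_one]
    ring
  -- the truncated part
  have hVb : |coeff l V| ≤ P * H * (2 * (2 * z) ^ (S - 1)) * (2 * g) ^ l := by
    rw [hV, map_sum]
    refine (Finset.abs_sum_le_sum_abs _ _).trans ?_
    have h6 : ∀ r ∈ range S, |coeff l (C (coeff r G) * Zr z g ^ (S - 1 - r))| ≤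
        P * H * (2 * z) ^ (S - 1) * (2 * g) ^ l * (1 / 2 : ℝ) ^ r := by
      intro r hr
      rw [mem_range] at hr
      rw [coeff_C_mul, abs_mul]
      have h7 := mul_le_mul (hGb r) (vf_coeff_Zr hz0 hg (S - 1 - r) l) (abs_nonneg _)
        (by positivity)
      refine h7.trans ?_
      have h8 : (2 * z) ^ (S - 1) = (2 * z) ^ (S - 1 - r) * (2 * z) ^ r := by
        rw [← pow_add]
        congr 1
        omega
      have h9 : ((r : ℝ) + 1) ≤ (2 * z) ^ r * (1 / 2) ^ r := by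
        refine (vf_lt_two_pow r).trans ?_
        rw [← mul_pow]
        exact pow_le_pow_left₀ (by norm_num) (by linarith) r
      rw [h8]
      have h10 : 0 ≤ P * H * ((2 * z) ^ (S - 1 - r) * (2 * g) ^ l) := by positivity
      have h11 := mul_le_mul_of_nonneg_left h9 h10
      calc P * H * ((r : ℝ) + 1) * ((2 * z) ^ (S - 1 - r) * (2 * g) ^ l)
          = P * H * ((2 * z) ^ (S - 1 - r) * (2 * g) ^ l) * ((r : ℝ) + 1) := by ring
        _ ≤ P * H * ((2 * z) ^ (S - 1 - r) * (2 * g) ^ l) * ((2 * z) ^ r * (1 / 2) ^ r) := h11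
        _ = _ := by ring
    refine (Finset.sum_le_sum h6).trans ?_
    rw [← Finset.mul_sum]
    have h12 : ∑ r ∈ range S, (1 / 2 : ℝ) ^ r ≤ 2 := by
      rw [geom_sum_eq (by norm_num)]
      have : (0 : ℝ) < (1 / 2) ^ S := by positivity
      have h13 : ((1 / 2 : ℝ) ^ S - 1) / (1 / 2 - 1) = 2 * (1 - (1 / 2) ^ S) := by ring
      rw [h13]
      linarith
    have h14 : 0 ≤ P * H * (2 * z) ^ (S - 1) * (2 * g) ^ l := by positivity
    have h15 := mul_le_mul_of_nonneg_left h12 h14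
    refine h15.trans (le_of_eq ?_)
    ring
  rw [h5, map_sub, coeff_C_mul, coeff_C_mul]
  refine (abs_sub _ _).trans ?_
  rw [abs_mul, abs_mul, abs_of_nonneg hκ0, abs_of_nonneg (by linarith : 0 ≤ 1 - κ)]
  have h16 : κ * |coeff l W| ≤ 1 * (P * H * (4 * (S + 1) * (4 / z) ^ (R + 1)) * (2 * g) ^ l) :=
    mul_le_mul hκ1 htl (abs_nonneg _) (by norm_num)
  have h17 : (1 - κ) * |coeff l V| ≤ δ * (P * H * (2 * (2 * z) ^ (S - 1)) * (2 * g) ^ l) :=
    mul_le_mul hκ2 hVb (abs_nonneg _) hδ0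
  refine (add_le_add h16 h17).trans ?_
  have h18 : 0 ≤ P * H * (4 * (S + 1) * (4 / z) ^ (R + 1)) * (2 * g) ^ l := by positivity
  nlinarith

end Pool.Agent.NLF
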