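import Pool.Agent.NLF.VE

/-!
# NLF-VG: elimination, non-vanishing and lower bound (paper: theoremF_h43.md, V6, V7, V9; helper79)
-/

namespace Pool.Agent.NLF

open Finset

/-- the polynomial `1 + X + ... + X ^ (n - 1)` -/
noncomputable def repP (n : ℕ) : Polynomial ℤ := ∑ i ∈ range n, Polynomial.X ^ i

/-- `X` times the logarithmic derivative of `T`, times `q (X ^ n - 1)` -/
noncomputable def WP (q h f n J : ℕ) : Polynomial ℤ :=
  Polynomial.C ((q : ℤ) * J) * (Polynomial.X ^ n - 1) - Polynomial.C (h : ℤ) * repP n +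
    Polynomial.C ((n : ℤ) * f)

/-- the Wronskian of `cA T` and `cB`, divided by `T` -/
noncomputable def NP (q h f n J : ℕ) (cA cB : Polynomial ℤ) : Polynomial ℤ :=
  Polynomial.C (q : ℤ) * Polynomial.X * (Polynomial.X ^ n - 1) *
    (Polynomial.derivative cA * cB - cA * Polynomial.derivative cB) + cA * cB * WP q h f n J

theorem repP_mul (n : ℕ) : repP n * (Polynomial.X - 1) = Polynomial.X ^ n - 1 := by
  unfold repP
  exact geom_sum_mul _ n

/-- the value of an integer polynomial at a power series -/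
noncomputable def evP (Z : PowerSeries ℝ) : Polynomial ℤ →+* PowerSeries ℝ :=
  Polynomial.eval₂RingHom (Int.castRingHom (PowerSeries ℝ)) Z

theorem evP_X (Z : PowerSeries ℝ) : evP Z Polynomial.X = Z := by
  simp [evP]

theorem evP_C (Z : PowerSeries ℝ) (a : ℤ) : evP Z (Polynomial.C a) = (a : PowerSeries ℝ) := by
  simp [evP]

/-! ## elimination -/

section elim

variable {S R : Type*} [CommRing S] [CommRing R] [IsDomain R] [Algebra S R]

/-- logarithmic differentiation in a domain with a derivation -/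
private theorem vg_logder (D : Derivation S R R) {U V Z Y K : R} {q h a f : ℕ}
    (hD : D K = 0) (hne : U ^ q * V ^ h ≠ 0)
    (heq : U ^ q * V ^ h = K * (Z ^ a * Y ^ f)) :
    ((q : R) * D U * V + (h : R) * U * D V) * Z * Y =
      ((a : R) * D Z * Y + (f : R) * Z * D Y) * U * V := by
  have hpow : ∀ (A : R) (k : ℕ), A * D (A ^ k) = (k : R) * A ^ k * D A := by
    intro A k
    cases k with
    | zero => simp
    | succ k =>
      rw [Derivation.leibniz_pow]
      simp only [smul_eq_mul, nsmul_eq_mul, Nat.add_sub_cancel]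
      ring
  have h1 : D (U ^ q * V ^ h) * (U * V) = ((q : R) * D U * V + (h : R) * U * D V) * (U ^ q * V ^ h) := by
    rw [Derivation.leibniz]
    simp only [smul_eq_mul]
    have e1 := hpow U q
    have e2 := hpow V h
    linear_combination (U ^ q * U) * e2 + (V ^ h * V) * e1
  have h2 : D (K * (Z ^ a * Y ^ f)) * (Z * Y) =
      ((a : R) * D Z * Y + (f : R) * Z * D Y) * (K * (Z ^ a * Y ^ f)) := by
    rw [Derivation.leibniz, Derivation.leibniz, hD]
    simp only [smul_eq_mul, mul_zero, add_zero]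
    have e1 := hpow Z a
    have e2 := hpow Y f
    linear_combination (K * Z ^ a * Z) * e2 + (K * Y ^ f * Y) * e1
  refine mul_right_cancel₀ hne ?_
  rw [heq] at h1
  calc ((q : R) * D U * V + (h : R) * U * D V) * Z * Y * (U ^ q * V ^ h)
      = (((q : R) * D U * V + (h : R) * U * D V) * (U ^ q * V ^ h)) * (Z * Y) := by ring
    _ = (D (K * (Z ^ a * Y ^ f)) * (U * V)) * (Z * Y) := by rw [h1, heq]
    _ = (D (K * (Z ^ a * Y ^ f)) * (Z * Y)) * (U * V) := by ring
    _ = (((a : R) * D Z * Y + (f : R) * Z * D Y) * (K * (Z ^ a * Y ^ f))) * (U * V) := by rw [h2]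
    _ = ((a : R) * D Z * Y + (f : R) * Z * D Y) * U * V * (U ^ q * V ^ h) := by rw [heq]; ring

end elim

/-! the power series part -/

private theorem vg_derivZr (z g : ℝ) :
    PowerSeries.derivative ℝ (Zr z g) = PowerSeries.C (-(z * g)) := by
  unfold Zr
  have h1 : PowerSeries.C z * (1 - PowerSeries.C g * PowerSeries.X) =
      PowerSeries.C z - PowerSeries.C (z * g) * (PowerSeries.X : PowerSeries ℝ) := by
    rw [map_mul]
    ring
  rw [h1, map_sub, Derivation.leibniz]
  simp [PowerSeries.derivative_C]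

private theorem vg_deriv_aeval (Z : PowerSeries ℝ) (p : Polynomial ℤ) :
    PowerSeries.derivative ℝ (evP Z p) =
      evP Z (Polynomial.derivative p) * PowerSeries.derivative ℝ Z := by
  induction p using Polynomial.induction_on' with
  | add p q hp hq => rw [map_add, map_add, hp, hq, Polynomial.derivative_add, map_add, add_mul]
  | monomial n a =>
    have h1 : ∀ (b : ℤ) (k : ℕ), evP Z (Polynomial.C b * Polynomial.X ^ k) = (b : PowerSeries ℝ) * Z ^ k := by
      intro b k
      rw [map_mul, map_pow, evP_X, evP_C]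
    rw [← Polynomial.C_mul_X_pow_eq_monomial, Polynomial.derivative_C_mul_X_pow, h1, h1,
      Derivation.leibniz, Derivation.leibniz_pow, Derivation.map_intCast]
    simp only [smul_eq_mul, nsmul_eq_mul, mul_zero, add_zero]
    push_cast
    ring

private theorem vg_series {q h e f n n2 J M : ℕ} {z g : ℝ} (hz : 1 < z) (hg : 0 < g)
    (heq : q * J + h = e * n2 + f * n) (cA cB : Polynomial ℤ) (U : PowerSeries ℝ) (K : ℝ)
    (hU : PowerSeries.constantCoeff U ≠ 0)
    (hU1 : U ^ q * (Zr z g - 1) ^ h =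
      PowerSeries.C K * (Zr z g ^ (e * n2) * (Zr z g ^ n - 1) ^ f))
    (hM : PowerSeries.X ^ (M + 1) ∣ U * evP (Zr z g) cA - evP (Zr z g) cB) :
    PowerSeries.X ^ M ∣ evP (Zr z g) (NP q h f n J cA cB) := by
  obtain ⟨Z, hZ⟩ : ∃ Z : PowerSeries ℝ, Z = Zr z g := ⟨_, rfl⟩
  rw [← hZ] at hU1 hM ⊢
  obtain ⟨D, hD⟩ : ∃ D : Derivation ℝ (PowerSeries ℝ) (PowerSeries ℝ), D = PowerSeries.derivative ℝ :=
    ⟨_, rfl⟩
  have hDZ : D Z = PowerSeries.C (-(z * g)) := by rw [hD, hZ, vg_derivZr]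
  have hDa : ∀ p : Polynomial ℤ, D (evP Z p) =
      evP Z (Polynomial.derivative p) * D Z := by
    intro p
    rw [hD, vg_deriv_aeval]
  have hDK : D (PowerSeries.C K) = 0 := by rw [hD, PowerSeries.derivative_C]
  have hZ0 : PowerSeries.constantCoeff Z = z := by rw [hZ]; simp [Zr]
  have hV : Z - 1 ≠ 0 := by
    intro h2
    have h3 : PowerSeries.constantCoeff (Z - 1) = 0 := by rw [h2, map_zero]
    rw [map_sub, map_one, hZ0] at h3
    linarith
  have hUne : U ≠ 0 := by
    rintro rfl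
    exact hU (map_zero _)
  have h1 := vg_logder D hDK (mul_ne_zero (pow_ne_zero q hUne) (pow_ne_zero h hV)) hU1
  have hDV : D (Z - 1) = D Z := by rw [map_sub, Derivation.map_one_eq_zero, sub_zero]
  have hDY : Z * D (Z ^ n - 1) = (n : PowerSeries ℝ) * Z ^ n * D Z := by
    rw [map_sub, Derivation.map_one_eq_zero, sub_zero]
    cases n with
    | zero => simp
    | succ k =>
      rw [Derivation.leibniz_pow]
      simp only [smul_eq_mul, nsmul_eq_mul, Nat.add_sub_cancel]
      ring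
  obtain ⟨r, hr⟩ : ∃ r : PowerSeries ℝ, r = evP Z (repP n) := ⟨_, rfl⟩
  have hrY : Z ^ n - 1 = r * (Z - 1) := by
    have h2 := congrArg (evP Z) (repP_mul n)
    rw [map_mul, map_sub, map_sub, map_pow, map_one, evP_X, ← hr] at h2
    exact h2.symm
  have ha : ((e * n2 : ℕ) : PowerSeries ℝ) = (q : PowerSeries ℝ) * J + h - f * n := by
    have h2 : ((q * J + h : ℕ) : PowerSeries ℝ) = ((e * n2 + f * n : ℕ) : PowerSeries ℝ) := by rw [heq]
    push_cast at h2 ⊢
    linear_combination -h2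
  obtain ⟨W, hW⟩ : ∃ W : PowerSeries ℝ, W = evP Z (WP q h f n J) := ⟨_, rfl⟩
  have hW' : W = (q : PowerSeries ℝ) * J * (Z ^ n - 1) - h * r + n * f := by
    rw [hW, hr]
    simp [WP, evP_X]
  have key : (q : PowerSeries ℝ) * Z * (Z ^ n - 1) * D U = U * D Z * W := by
    refine mul_left_cancel₀ hV ?_
    rw [hDV] at h1
    have h2 : (f : PowerSeries ℝ) * Z * D (Z ^ n - 1) = f * ((n : PowerSeries ℝ) * Z ^ n * D Z) := by
      rw [mul_assoc, hDY]
    rw [h2, ha] at h1
    rw [hW']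
    have h3 : Z ^ n = r * (Z - 1) + 1 := by rw [← hrY]; ring
    rw [h3] at h1 ⊢
    linear_combination h1
  obtain ⟨Y1, hY1⟩ := hM
  obtain ⟨a, haa⟩ : ∃ a : PowerSeries ℝ, a = evP Z cA := ⟨_, rfl⟩
  obtain ⟨b, hbb⟩ : ∃ b : PowerSeries ℝ, b = evP Z cB := ⟨_, rfl⟩
  obtain ⟨a', haa'⟩ : ∃ a' : PowerSeries ℝ, a' = evP Z (Polynomial.derivative cA) := ⟨_, rfl⟩
  obtain ⟨b', hbb'⟩ : ∃ b' : PowerSeries ℝ, b' = evP Z (Polynomial.derivative cB) := ⟨_, rfl⟩
  have hDA : D a = a' * D Z := by rw [haa, hDa, haa']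
  have hDB : D b = b' * D Z := by rw [hbb, hDa, hbb']
  rw [← haa, ← hbb] at hY1
  have hN : evP Z (NP q h f n J cA cB) =
      (q : PowerSeries ℝ) * Z * (Z ^ n - 1) * (a' * b - a * b') + a * b * W := by
    rw [haa, hbb, haa', hbb', hW]
    simp [NP, evP_X]
  have hDX : D (U * a - b) = PowerSeries.X ^ M *
      (((M + 1 : ℕ) : PowerSeries ℝ) * D PowerSeries.X * Y1 + PowerSeries.X * D Y1) := by
    rw [hY1, Derivation.leibniz, Derivation.leibniz_pow]
    simp only [smul_eq_mul, nsmul_eq_mul, Nat.add_sub_cancel]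
    ring
  have hDX2 : D (U * a - b) = D U * a + U * (a' * D Z) - b' * D Z := by
    rw [map_sub, Derivation.leibniz, hDA, hDB]
    simp only [smul_eq_mul]
    ring
  have hfin : D Z * ((q : PowerSeries ℝ) * Z * (Z ^ n - 1) * (a' * b - a * b') + a * b * W) =
      PowerSeries.X ^ M * (a * (q : PowerSeries ℝ) * Z * (Z ^ n - 1) *
        (((M + 1 : ℕ) : PowerSeries ℝ) * D PowerSeries.X * Y1 + PowerSeries.X * D Y1) -
        D Z * (PowerSeries.X * Y1) * (a * W + (q : PowerSeries ℝ) * Z * (Z ^ n - 1) * a')) := by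
    have h5 : a * ((q : PowerSeries ℝ) * Z * (Z ^ n - 1)) * D (U * a - b) =
        a * ((q : PowerSeries ℝ) * Z * (Z ^ n - 1)) * (PowerSeries.X ^ M *
      (((M + 1 : ℕ) : PowerSeries ℝ) * D PowerSeries.X * Y1 + PowerSeries.X * D Y1)) := by rw [hDX]
    rw [hDX2] at h5
    have h6 : PowerSeries.X ^ M * (PowerSeries.X * Y1) = U * a - b := by
      rw [hY1, pow_succ]
      ring
    linear_combination h5 - a * a * key +
      (D Z * (a * W + (q : PowerSeries ℝ) * Z * (Z ^ n - 1) * a')) * h6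
  rw [hN]
  have hunit : IsUnit (D Z) := by
    rw [hDZ, PowerSeries.isUnit_iff_constantCoeff, PowerSeries.constantCoeff_C]
    exact isUnit_iff_ne_zero.2 (neg_ne_zero.2 (mul_pos (by linarith) hg).ne')
  exact (hunit.dvd_mul_left).1 (Dvd.intro _ hfin.symm)

/-- V6: `(Z - z) ^ M` divides the polynomial `NP` -/
theorem elim_dvd {q h e f n n2 J M : ℕ} {z : ℤ} {g : ℝ} (hz : 1 < z) (hg : 0 < g)
    (heq : q * J + h = e * n2 + f * n) (cA cB : Polynomial ℤ) (U : PowerSeries ℝ) (K : ℝ)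
    (hU : PowerSeries.constantCoeff U ≠ 0)
    (hU1 : U ^ q * (Zr z g - 1) ^ h =
      PowerSeries.C K * (Zr z g ^ (e * n2) * (Zr z g ^ n - 1) ^ f))
    (hM : PowerSeries.X ^ (M + 1) ∣ U * evP (Zr z g) cA - evP (Zr z g) cB) :
    (Polynomial.X - Polynomial.C z) ^ M ∣ NP q h f n J cA cB := by
  have hz' : (1 : ℝ) < (z : ℝ) := by exact_mod_cast hz
  have h1 := vg_series hz' hg heq cA cB U K hU hU1 hM
  obtain ⟨N, hN⟩ : ∃ N : Polynomial ℤ, N = NP q h f n J cA cB := ⟨_, rfl⟩
  rw [← hN] at h1 ⊢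
  obtain ⟨L, hL⟩ : ∃ L : Polynomial ℝ,
      L = Polynomial.C (z : ℝ) - Polynomial.C ((z : ℝ) * g) * Polynomial.X := ⟨_, rfl⟩
  have hLZ : ((L : Polynomial ℝ) : PowerSeries ℝ) = Zr z g := by
    rw [hL]
    unfold Zr
    rw [Polynomial.coe_sub, Polynomial.coe_C, Polynomial.coe_mul, Polynomial.coe_C, Polynomial.coe_X,
      map_mul]
    ring
  obtain ⟨N', hN'⟩ : ∃ N' : Polynomial ℝ, N' = N.eval₂ (Int.castRingHom (Polynomial ℝ)) L := ⟨_, rfl⟩
  have h2 : evP (Zr z g) N = (N' : PowerSeries ℝ) := by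
    have h3 := Polynomial.hom_eval₂ N (Int.castRingHom (Polynomial ℝ))
      (Polynomial.coeToPowerSeries.ringHom (R := ℝ)) L
    have h4 : Polynomial.coeToPowerSeries.ringHom (R := ℝ) L = Zr z g := hLZ
    rw [h4, ← hN'] at h3
    have h3' : (Polynomial.coeToPowerSeries.ringHom (R := ℝ)) N' = (N' : PowerSeries ℝ) := rfl
    rw [← h3', h3, evP, Polynomial.coe_eval₂RingHom]
    congr 1
    exact RingHom.ext_int _ _
  rw [h2] at h1
  have h5 : (Polynomial.X : Polynomial ℝ) ^ M ∣ N' := by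
    rw [Polynomial.X_pow_dvd_iff]
    rw [PowerSeries.X_pow_dvd_iff] at h1
    intro d hd
    have := h1 d hd
    rwa [Polynomial.coeff_coe] at this
  obtain ⟨Q, hQ⟩ := h5
  have hzg : (z : ℝ) * g ≠ 0 := (mul_pos (by linarith) hg).ne'
  obtain ⟨L', hL'⟩ : ∃ L' : Polynomial ℝ, L' = Polynomial.C (-((z : ℝ) * g)⁻¹) *
      (Polynomial.X - Polynomial.C (z : ℝ)) := ⟨_, rfl⟩
  have hLL : L.comp L' = Polynomial.X := by
    rw [hL, hL']
    simp only [Polynomial.sub_comp, Polynomial.C_comp, Polynomial.mul_comp, Polynomial.X_comp]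
    rw [← mul_assoc, ← Polynomial.C_mul, mul_neg, mul_inv_cancel₀ hzg, Polynomial.C_neg,
      Polynomial.C_1]
    ring
  have h6 : N'.comp L' = N.map (Int.castRingHom ℝ) := by
    have h7 : N' = (N.map (Int.castRingHom ℝ)).comp L := by
      rw [Polynomial.comp, Polynomial.eval₂_map, hN']
      congr 1
    rw [h7, Polynomial.comp_assoc, hLL, Polynomial.comp_X]
  have h8 : (Polynomial.X - Polynomial.C (z : ℝ)) ^ M ∣ N.map (Int.castRingHom ℝ) := by
    refine ⟨Polynomial.C (-((z : ℝ) * g)⁻¹) ^ M * Q.comp L', ?_⟩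
    rw [← h6, hQ, Polynomial.mul_comp, Polynomial.X_pow_comp]
    nth_rewrite 1 [hL']
    rw [mul_pow]
    ring
  have h10 : ((Polynomial.X - Polynomial.C z) ^ M : Polynomial ℤ).map (Int.castRingHom ℝ) =
      (Polynomial.X - Polynomial.C (z : ℝ)) ^ M := by
    rw [Polynomial.map_pow, Polynomial.map_sub, Polynomial.map_X, Polynomial.map_C]
    rfl
  rw [← h10] at h8
  exact (Polynomial.map_dvd_map (Int.castRingHom ℝ) Int.cast_injective
    ((Polynomial.monic_X_sub_C z).pow M)).1 h8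

/-! ## non-vanishing -/

/-- V7 -/
theorem NP_ne_zero {q h e f n J : ℕ} (hn : 1 ≤ n) (he : 1 ≤ e) (heq : e < q) (hh : h = e + f)
    {cA cB : Polynomial ℤ} (hA : cA ≠ 0) (hB : cB ≠ 0) : NP q h f n J cA cB ≠ 0 := by
  obtain ⟨A, hA1, hA2⟩ := Polynomial.exists_eq_pow_rootMultiplicity_mul_and_not_dvd cA hA 1
  obtain ⟨B, hB1, hB2⟩ := Polynomial.exists_eq_pow_rootMultiplicity_mul_and_not_dvd cB hB 1
  generalize Polynomial.rootMultiplicity 1 cA = a at hA1
  generalize Polynomial.rootMultiplicity 1 cB = b at hB1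
  rw [Polynomial.dvd_iff_isRoot, Polynomial.IsRoot.def] at hA2 hB2
  obtain ⟨Y, hY⟩ : ∃ Y : Polynomial ℤ, Y = Polynomial.X - Polynomial.C 1 := ⟨_, rfl⟩
  rw [← hY] at hA1 hB1
  have hder : ∀ (c : ℕ) (F : Polynomial ℤ), Y * Polynomial.derivative (Y ^ c * F) =
      Y ^ c * (Polynomial.C (c : ℤ) * F + Y * Polynomial.derivative F) := by
    intro c F
    have hdY : Polynomial.derivative Y = 1 := by rw [hY]; simp
    rw [Polynomial.derivative_mul, Polynomial.derivative_pow, hdY]
    cases c with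
    | zero => simp
    | succ c =>
      simp only [Nat.add_sub_cancel, mul_one]
      push_cast
      ring
  have h1 : NP q h f n J cA cB = Y ^ (a + b) * (Polynomial.C (q : ℤ) * Polynomial.X * repP n *
      ((Polynomial.C (a : ℤ) * A + Y * Polynomial.derivative A) * B -
        A * (Polynomial.C (b : ℤ) * B + Y * Polynomial.derivative B)) + A * B * WP q h f n J) := by
    unfold NP
    have h2 : (Polynomial.X ^ n - 1 : Polynomial ℤ) = repP n * Y := by
      rw [← repP_mul, hY, Polynomial.C_1]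
    rw [h2, hA1, hB1]
    have e1 := hder a A
    have e2 := hder b B
    linear_combination (Polynomial.C (q : ℤ) * Polynomial.X * repP n * (Y ^ b * B)) * e1 -
      (Polynomial.C (q : ℤ) * Polynomial.X * repP n * (Y ^ a * A)) * e2
  rw [h1]
  refine mul_ne_zero (pow_ne_zero _ ?_) ?_
  · rw [hY]
    exact Polynomial.X_sub_C_ne_zero 1
  · intro h3
    have h4 := congrArg (Polynomial.eval 1) h3
    have hrep : Polynomial.eval 1 (repP n) = (n : ℤ) := by
      unfold repP
      rw [Polynomial.eval_finsetSum]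
      simp
    have hYe : Polynomial.eval 1 Y = 0 := by rw [hY]; simp
    simp only [Polynomial.eval_add, Polynomial.eval_mul, Polynomial.eval_sub, Polynomial.eval_C,
      Polynomial.eval_X, hrep, hYe, zero_mul, add_zero, Polynomial.eval_zero, WP,
      Polynomial.eval_pow, Polynomial.eval_one, one_pow, sub_self, mul_zero, zero_sub, mul_one] at h4
    have h5 : (n : ℤ) * (Polynomial.eval 1 A * Polynomial.eval 1 B) * ((q : ℤ) * (a - b) - e) = 0 := by
      rw [hh] at h4
      push_cast at h4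
      linear_combination h4
    have hn0 : (n : ℤ) ≠ 0 := by exact_mod_cast (by omega : n ≠ 0)
    rcases mul_eq_zero.1 h5 with h6 | h6
    · exact (mul_ne_zero hn0 (mul_ne_zero hA2 hB2)) h6
    · have h7 : (q : ℤ) ∣ (e : ℤ) := ⟨(a : ℤ) - b, by linarith⟩
      have h8 : q ∣ e := by exact_mod_cast h7
      exact absurd (Nat.le_of_dvd he h8) (by omega)

/-- V9 -/
theorem exists_coeff_ge {N : Polynomial ℤ} (hN : N ≠ 0) {z : ℤ} (hz : 1 ≤ z) {M : ℕ}
    (h : (Polynomial.X - Polynomial.C z) ^ M ∣ N) : ∃ i, z ^ M ≤ |N.coeff i| := by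
  obtain ⟨F, rfl⟩ := h
  have hF : F ≠ 0 := right_ne_zero_of_mul hN
  refine ⟨((Polynomial.X - Polynomial.C z) ^ M * F).natTrailingDegree, ?_⟩
  have h1 : ((Polynomial.X - Polynomial.C z) ^ M * F).trailingCoeff =
      (-z) ^ M * F.trailingCoeff := by
    rw [Polynomial.trailingCoeff_mul]
    congr 1
    have h2 : ((Polynomial.X - Polynomial.C z) ^ M).coeff 0 = (-z) ^ M := by
      rw [Polynomial.coeff_zero_eq_eval_zero]
      simp
    have h3 : ((Polynomial.X - Polynomial.C z) ^ M).coeff 0 ≠ 0 := by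
      rw [h2]
      exact pow_ne_zero _ (by omega)
    rw [Polynomial.trailingCoeff, Polynomial.natTrailingDegree_eq_zero.2 (Or.inr h3), h2]
  have h3 : ((Polynomial.X - Polynomial.C z) ^ M * F).coeff
      ((Polynomial.X - Polynomial.C z) ^ M * F).natTrailingDegree = (-z) ^ M * F.trailingCoeff := h1
  rw [h3, abs_mul, abs_pow, abs_neg, abs_of_nonneg (by omega : 0 ≤ z)]
  have h4 : 1 ≤ |F.trailingCoeff| :=
    Int.one_le_abs (Polynomial.trailingCoeff_nonzero_iff_nonzero.2 hF)
  exact le_mul_of_one_le_right (pow_nonneg (by omega) M) h4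

end Pool.Agent.NLF
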